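import Mathlib
import Pool.Agent.TH841.PT.Stm5
import Pool.Agent.TH841.PT.AvgW
import Pool.Agent.TH841.PT.AvgH
import Pool.Agent.TH344.JG.Stm

/-!
# Project TJ: quadratic twists of Jacobians by the values of polynomials

`J` is the Jacobian of `y² = ∏ (x - a_i)`, `a_0, ..., a_m` distinct integers, `m` even. The twist
`J^D` is the Jacobian of `y² = ∏ (x - D a_i)`. At a prime `p > 2` that divides `D` exactly once and
divides no `a_i - a_j`, the local image is the image of the 2-torsion: if `v : Fin m → Bool` are the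
valuations of `d_0, ..., d_(m-1)` modulo 2 (the last one is their parity), then `d_j` is
`∏_(i ∈ v) (a_j - a_i)` for `j ∉ v` and `- D ∏_(i ∉ v) (a_j - a_i)` for `j ∈ v`, up to squares.

Part 1: the local count `NT` and its moments. Part 2: averages of an arbitrary function `R` with a
local bound, over the values of polynomials (as `TH841.PT.avgpH`, `TH841.PT.avgw`).
-/

set_option autoImplicit false

namespace Pool.Agent.TH344.TJ

open Finset Polynomial Pool.Agent.W262.RK Pool.Agent.W307.RT Pool.Agent.W307.RS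
open Pool.Agent.TH841.PT Pool.Agent.TH344.JG

open Pool.Agent.H474R2.PG (rho)

/-! ### The local count -/

/-- `v` with its parity as last coordinate -/
def ext {m : ℕ} (v : Fin m → Bool) : Fin (m + 1) → Bool :=
  Fin.snoc (α := fun _ => Bool) v (decide ((univ.filter (fun j => v j = true)).card % 2 = 1))

/-- the constant of the 2-torsion class `v` at `j` -/
def cT {m : ℕ} (a : Fin (m + 1) → ℤ) (v : Fin m → Bool) (j : Fin m) : ℤ :=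
  if v j = true then -∏ i ∈ univ.filter (fun i => ext v i = false), (a j.castSucc - a i)
  else ∏ i ∈ univ.filter (fun i => ext v i = true), (a j.castSucc - a i)

/-- TJ-LOC: the local condition at the primes that divide `D` exactly once. -/
def S_LOCT : Prop := ∀ (m p : ℕ) [Fact p.Prime] (a : Fin (m + 1) → ℤ) (D : ℤ)
  (d : Fin (m + 1) → ℤ), Even m → p ≠ 2 → (∀ i j, i ≠ j → ¬ (p : ℤ) ∣ a i - a j) →
  (p : ℤ) ∣ D → ¬ (p : ℤ) ^ 2 ∣ D → (∀ i, Squarefree (d i)) →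
  LocJ ℚ_[p] (fun i => D * a i) d →
  (∀ i, decide ((p : ℤ) ∣ d i) = ext (fun j => decide ((p : ℤ) ∣ d j.castSucc)) i) ∧
  ∀ j : Fin m,
    (¬ (p : ℤ) ∣ d j.castSucc →
      jacobiSym (d j.castSucc * cT a (fun l => decide ((p : ℤ) ∣ d l.castSucc)) j) p = 1) ∧
    ((p : ℤ) ∣ d j.castSucc →
      jacobiSym ((d j.castSucc / p) * (D / p) *
        cT a (fun l => decide ((p : ℤ) ∣ d l.castSucc)) j) p = 1)

/-- the number of the families `w` of sets of primes of `s` that satisfy the local conditions; `E` is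
the set of the primes `p ∣ s` with `(D / p / p) = -1` -/
def NT {m : ℕ} (a : Fin (m + 1) → ℤ) (s : ℕ) (E : Finset ℕ) : ℕ :=
  ((Fintype.piFinset (fun _ : Fin m => s.primeFactors.powerset)).filter (fun w =>
    ∀ p ∈ s.primeFactors, ∀ j : Fin m,
      (∏ q ∈ (w j).erase p, jacobiSym ((q : ℕ) : ℤ) p) *
        jacobiSym (cT a (fun l => decide (p ∈ w l)) j) p =
        if p ∈ w j ∧ p ∈ E then -1 else 1)).card

/-- the average over the signs -/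
noncomputable def FA (F : ℕ → Finset ℕ → ℝ) (s : ℕ) : ℝ :=
  (1 / 2) ^ s.primeFactors.card * ∑ E ∈ s.primeFactors.powerset, F s E

/-- the `k`-th power of the count -/
noncomputable def NTk {m : ℕ} (k : ℕ) (a : Fin (m + 1) → ℤ) (s : ℕ) (E : Finset ℕ) : ℝ :=
  (NT a s E : ℝ) ^ k

/-- TJ-SEL: the Selmer group of the twist by `D` is bounded by the local count. -/
def S_SELT : Prop := ∀ (m : ℕ) (a : Fin (m + 1) → ℤ) (D : ℤ) (s : ℕ), 2 ≤ m → Even m →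
  Function.Injective a → D ≠ 0 → Squarefree s → (∀ p : ℕ, p.Prime → p ∣ s → p ≠ 2 ∧
    (p : ℤ) ∣ D ∧ ¬ (p : ℤ) ^ 2 ∣ D ∧ ∀ i j, i ≠ j → ¬ (p : ℤ) ∣ a i - a j) →
  (SelJ (fun i => D * a i)).Finite ∧ (SelJ (fun i => D * a i)).ncard ≤
    (2 ^ (m + 1)) ^ (1 + ((2 * D.natAbs * ∏ c : PR (m + 1), (df a c).natAbs).primeFactors.filter
      (fun q => ¬ q ∣ s)).card) * NT a s (ngs D s)

/-- the order of the 2-Selmer group of the twist by `d` -/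
noncomputable def RJ {m : ℕ} (a : Fin (m + 1) → ℤ) (d : ℤ) : ℝ :=
  ((SelJ (fun i => d * a i)).ncard : ℝ)

/-- a local bound for the function `R` -/
def RKB (R : ℤ → ℝ) (F : ℕ → Finset ℕ → ℝ) (A : ℝ) (z : ℕ) : Prop :=
  ∃ C0 : ℝ, 0 ≤ C0 ∧ ∀ (y X k B : ℕ) (d : ℤ), d ≠ 0 → d.natAbs ≤ X ^ B → 1 ≤ X → 1 ≤ y →
    X < (y + 1) ^ k →
    R d ≤ C0 * (A ^ B) ^ k * A ^ (S2 z y (fun _ : Unit => d) ()).primeFactors.card *
      F (S1 z y (fun _ : Unit => d) ()) (ngs d (S1 z y (fun _ : Unit => d) ()))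

/-- growth of the average over the signs -/
def GRW (F : ℕ → Finset ℕ → ℝ) (A : ℝ) (z : ℕ) : Prop :=
  ∀ y, z < y → ∀ s e : ℕ, s * e ∣ PP z y → FA F (s * e) ≤ A ^ e.primeFactors.card * FA F s

/-- TJ-RNK: the local bound for the powers of the Selmer groups. -/
def S_RNKT : Prop := ∀ (m k : ℕ) (a : Fin (m + 1) → ℤ), 2 ≤ m → Even m → Function.Injective a →
  ∃ z0 : ℕ, ∀ z, z0 ≤ z → RKB (fun d => RJ a d ^ k) (NTk k a) ((2 ^ (m + 1)) ^ k) z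

/-- TJ-SUB: growth of the moments of the local count. -/
def S_SUBT : Prop := ∀ (m k : ℕ) (a : Fin (m + 1) → ℤ), Function.Injective a →
  ∃ z0 : ℕ, ∀ z, z0 ≤ z → GRW (NTk k a) ((2 ^ (m + 1)) ^ k) z

/-! ### The expansion -/

/-- the number of the pairs `(b, j)` with `v b j = x b j = true` -/
def dT {m k : ℕ} (v x : Fin k → Fin m → Bool) : ℕ :=
  (univ.filter (fun b : Fin k × Fin m => (v b.1 b.2 && x b.1 b.2) = true)).card

/-- the index set: `(v, χ)` with `∑ χ_b (v_b) = 0` -/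
def IT (m k : ℕ) : Type :=
  {i : (Fin k → Fin m → Bool) × (Fin k → Fin m → Bool) // dT i.1 i.2 % 2 = 0}

instance (m k : ℕ) : Fintype (IT m k) :=
  inferInstanceAs (Fintype {i : (Fin k → Fin m → Bool) × (Fin k → Fin m → Bool) //
    dT i.1 i.2 % 2 = 0})

instance (m k : ℕ) : DecidableEq (IT m k) :=
  fun a b => decidable_of_iff (a.1 = b.1) Subtype.ext_iff.symm

/-- the symbol `(d i / d i')` occurs if `∑ χ_{i', b} (v_{i, b}) = 1` -/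
def LT {m k : ℕ} (i i' : IT m k) : Bool := decide (dT i.1.1 i'.1.2 % 2 = 1)

/-- the constants -/
def κT {m k : ℕ} (a : Fin (m + 1) → ℤ) (i : IT m k) : ℤ :=
  ∏ b : Fin k, ∏ j ∈ univ.filter (fun j => i.1.2 b j = true), cT a (i.1.1 b) j

/-- TJ-EXP: expansion of the moments of the local count into symbols. -/
def S_EXPT : Prop := ∀ (m k : ℕ) (a : Fin (m + 1) → ℤ) (g : ℕ → ℝ) (c z y : ℕ), 2 ≤ z →
  Function.Injective a → (∀ i j, (a i - a j).natAbs ≤ z) →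
  ∑ s ∈ Tup Unit z y, FA (NTk k a) (s ()) * gp g c (s ()) =
    ∑ d ∈ Tup (IT m k) z y, (∏ i, gp (fun p => g p / 2 ^ (m * k)) c (d i)) * Sym LT (κT a) d

/-- TJ-CMB: the largest unlinked set. -/
def S_CMBT : Prop := ∀ (m k : ℕ) (U : Finset (IT m k)),
  (∀ i ∈ U, ∀ j ∈ U, LT i j = LT j i) → U.card ≤ 2 ^ (m * k)

/-- the main average -/
def MAV (F : ℕ → Finset ℕ → ℝ) (D : ℤ[X]) (w : ℕ → ℝ) (c : ℕ) : Prop :=
  ∃ z0 : ℕ, ∀ z, z0 ≤ z → ∃ C' : ℝ, ∀ y, z < y →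
    ∑ s ∈ Tup Unit z y, FA F (s ()) * gp (fun p => w p * rz D z p) c (s ()) ≤
      C' * Real.exp (Sp (fun p => w p * rho D p) z y)

/-- TJ-MAK: the main average for the moments of the local count. -/
def S_MAKT : Prop := ∀ (m k : ℕ) (a : Fin (m + 1) → ℤ), 2 ≤ m → Function.Injective a →
  ∀ D : ℤ[X], Squarefree (D.map (Int.castRingHom ℚ)) → 0 < D.natDegree →
  ∀ (c : ℕ) (lam : ℝ), 0 < lam → lam * D.natDegree ≤ c → 2 * c ≤ 2 ^ (m * k) →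
    MAV (NTk k a) D (fun _ => lam) c

/-! ### Averages of a function with a local bound -/

/-- the local data of `R` -/
def KIT (R : ℤ → ℝ) (F : ℕ → Finset ℕ → ℝ) : Prop :=
  (∀ d, 0 ≤ R d) ∧ (∀ s E, 0 ≤ F s E) ∧
  ∃ A : ℝ, 1 ≤ A ∧ ∃ zF : ℕ, ∀ z, zF ≤ z → RKB R F A z ∧ GRW F A z

/-- TJ-GAH: as `TH841.PT.avgpH`, for an arbitrary function. -/
def S_GAVH : Prop := ∀ (R : ℤ → ℝ) (F : ℕ → Finset ℕ → ℝ), KIT R F →
  ∀ (D G H : ℤ[X]) (B : ℕ), Squarefree ((D * G).map (Int.castRingHom ℚ)) → 0 < D.natDegree →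
  MAV F D (fun _ => 1) (D * G).natDegree → ∀ zH : ℕ,
  (∀ p : ℕ, p.Prime → zH < p → ∀ t : ℤ, (p : ℤ) ∣ H.eval t → (p : ℤ) ∣ G.eval t) →
    ∃ z0 : ℕ, ∀ z, z0 ≤ z → ∃ C : ℝ, ∀ (N : ℤ) (X : ℕ), 1 ≤ X → N.natAbs ≤ X ^ B →
      ∀ T : Finset ℕ, T ⊆ Icc 1 X → (∀ t ∈ T, (H * D).eval (N + (t : ℤ)) ≠ 0 ∧
        Sft G z X (N + (t : ℤ))) →
      ∑ t ∈ T, R ((H * D).eval (N + (t : ℤ))) ≤
        C * (X * Real.exp (-Sp (fun p => (rho G p : ℝ)) z X))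

/-- TJ-GAW: as `TH841.PT.avgw`, for an arbitrary function. -/
def S_GAVW : Prop := ∀ (R : ℤ → ℝ) (F : ℕ → Finset ℕ → ℝ), KIT R F →
  ∀ (D : ℤ[X]) (B : ℕ), Squarefree (D.map (Int.castRingHom ℚ)) → 0 < D.natDegree →
  ∀ (w : ℕ → ℝ) (W0 : ℝ) (z1 c : ℕ), (∀ p, 0 ≤ w p) → (∀ p, w p ≤ W0) → 1 ≤ W0 →
  W0 * D.natDegree ≤ c → MAV F D w c →
    ∃ z0 : ℕ, ∀ z, z0 ≤ z → ∃ C : ℝ, ∀ (N : ℤ) (X : ℕ), 1 ≤ X → N.natAbs ≤ X ^ B →
      ∑ t ∈ (Icc 1 X).filter (fun t : ℕ => D.eval (N + (t : ℤ)) ≠ 0),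
        Fw w W0 z1 (D.eval (N + (t : ℤ))) * R (D.eval (N + (t : ℤ))) ≤
          C * (X * Real.exp (Sp (fun p => (w p - 1) * rho D p) z X))

/-! ### From the averages to the moments -/

/-- elementary properties of `R` -/
def ELM (R : ℤ → ℝ) : Prop :=
  (∀ d, 0 ≤ R d) ∧ (∀ d, d ≠ 0 → 1 ≤ R d) ∧ (∀ d w : ℤ, d ≠ 0 → w ≠ 0 → R (d * w ^ 2) ≤ R d) ∧
  ∃ (A : ℝ) (W : ℕ), 1 ≤ A ∧ ∀ d, d ≠ 0 → R d ≤ A ^ (d.natAbs.primeFactors.card + W)

/-- the moments over sifted arguments, large exponents -/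
def AVR (R : ℤ → ℝ) : Prop := ∀ (D G H : ℤ[X]) (k0 B : ℕ),
  Squarefree ((D * G).map (Int.castRingHom ℚ)) → 0 < D.natDegree →
  2 * (D * G).natDegree ≤ 4 ^ k0 → ∀ zH : ℕ,
  (∀ p : ℕ, p.Prime → zH < p → ∀ t : ℤ, (p : ℤ) ∣ H.eval t → (p : ℤ) ∣ G.eval t) →
    ∃ z0 : ℕ, ∀ z, z0 ≤ z → ∃ C : ℝ, ∀ (N : ℤ) (X : ℕ), 1 ≤ X → N.natAbs ≤ X ^ B →
      ∀ T : Finset ℕ, T ⊆ Icc 1 X → (∀ t ∈ T, (H * D).eval (N + (t : ℤ)) ≠ 0 ∧
        Sft G z X (N + (t : ℤ))) →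
      ∑ t ∈ T, R ((H * D).eval (N + (t : ℤ))) ^ k0 ≤
        C * (X * Real.exp (-Sp (fun p => (rho G p : ℝ)) z X))

/-- the weighted moments, large exponents -/
def AWR (R : ℤ → ℝ) : Prop := ∀ (D g : ℤ[X]) (k0 B : ℕ),
  Squarefree (D.map (Int.castRingHom ℚ)) → 0 < D.natDegree →
  Squarefree (g.map (Int.castRingHom ℚ)) → 0 < g.natDegree →
  ∀ (w : ℕ → ℝ) (lam W0 : ℝ) (z1 z2 c : ℕ), (∀ p, 0 ≤ w p) → (∀ p, w p ≤ W0) → 1 ≤ W0 →
  W0 * D.natDegree ≤ c → 0 < lam → lam * g.natDegree ≤ c → 2 * c ≤ 4 ^ k0 →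
  (∀ p : ℕ, p.Prime → z2 < p → w p * rho D p = lam * rho g p) →
    ∃ z0 : ℕ, ∀ z, z0 ≤ z → ∃ C : ℝ, ∀ (N : ℤ) (X : ℕ), 1 ≤ X → N.natAbs ≤ X ^ B →
      ∑ t ∈ (Icc 1 X).filter (fun t : ℕ => D.eval (N + (t : ℤ)) ≠ 0),
        Fw w W0 z1 (D.eval (N + (t : ℤ))) * R (D.eval (N + (t : ℤ))) ^ k0 ≤
          C * (X * Real.exp (Sp (fun p => (w p - 1) * rho D p) z X))

end Pool.Agent.TH344.TJ
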