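import Mathlib
import Pool.Agent.TH344.TJ.Stm
import Pool.Agent.TH841.PT.FamS

/-!
# Project TJ: weighted moments of an arbitrary function over the values of a polynomial and over the
integers whose prime factors split completely
-/

set_option autoImplicit false

namespace Pool.Agent.TH344.TJ

open Finset Polynomial Pool.Agent.W262.RK

open Pool.Agent.TH841.PT

open Pool.Agent.H474R2.PG (rho)

variable {R : ℤ → ℝ}

/-- **the moments weighted by `lam ^ ω(D(t))`** -/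
theorem w_of (hE : ELM R) (h : AWR R) {r : ℕ} {G : Fin r → ℤ[X]} (hG : Irr G) (hr : 0 < r) {c : ℤ}
    (hc : c ≠ 0) (lam : ℝ) (hlam : 0 < lam) (k L : ℕ) :
    ∃ K : ℝ, 0 ≤ K ∧ ∀ (N : ℤ) (M : ℕ), 2 ≤ M → |N| ≤ (M : ℤ) ^ L →
      ∑ t ∈ (Ioc N (N + M)).filter (fun t => (C c * ∏ i, G i).eval t ≠ 0),
        lam ^ ((C c * ∏ i, G i).eval t).natAbs.primeFactors.card * R ((C c * ∏ i, G i).eval t) ^ k ≤
          K * (M * (Real.log M) ^ ((lam - 1) * r)) := by
  classical
  set D : ℤ[X] := C c * ∏ i, G i with hD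
  have hcQ : (c : ℚ) ≠ 0 := by exact_mod_cast hc
  have hsq : Squarefree (D.map (Int.castRingHom ℚ)) := by
    refine hG.sqf.squarefree_of_dvd ⟨C ((c : ℚ)⁻¹), ?_⟩
    rw [hD, Polynomial.map_mul, Polynomial.map_C]
    unfold mQ
    have : C ((Int.castRingHom ℚ) c) * C ((c : ℚ)⁻¹) = (1 : ℚ[X]) := by
      rw [← C_mul]
      simp [hcQ]
    rw [mul_right_comm, this, one_mul]
  have hne : ∏ i, G i ≠ 0 := prod_ne_zero_iff.2 fun i _ => (hG.irr i).ne_zero
  have hdeg : 0 < D.natDegree := by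
    rw [hD, natDegree_C_mul hc]
    have h1 : (G ⟨0, hr⟩).natDegree ≤ (∏ i, G i).natDegree :=
      natDegree_le_of_dvd (dvd_prod_of_mem _ (mem_univ _)) hne
    exact (hG.deg ⟨0, hr⟩).trans_le h1
  set W0 : ℝ := max 1 lam with hW0
  set c' : ℕ := ⌈W0 * D.natDegree⌉₊ with hc'
  set k' : ℕ := k + 2 * c' with hk'
  have hk2 : 2 * c' ≤ 4 ^ k' := by
    have h1 : k' < 4 ^ k' := Nat.lt_pow_self (by norm_num)
    omega
  have hlc : lam * D.natDegree ≤ c' :=
    (mul_le_mul_of_nonneg_right (le_max_right 1 lam) (Nat.cast_nonneg _)).trans (Nat.le_ceil _)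
  obtain ⟨z1, hz1⟩ := h D D k' L hsq hdeg hsq hdeg (fun _ => lam) lam W0 0 0 c' (fun _ => hlam.le)
    (fun _ => le_max_right _ _) (le_max_left _ _) (Nat.le_ceil _) hlam hlc hk2
    (fun _ _ _ => rfl)
  obtain ⟨z2, hz2⟩ := exp_lam hG hc (lam - 1)
  obtain ⟨C1, hC1⟩ := hz1 (z1 + z2) (by omega)
  obtain ⟨C2, hC20, hC2⟩ := hz2 (z1 + z2) (by omega)
  refine ⟨|C1| * C2, by positivity, fun N M hM hN => ?_⟩
  have hM0 : (0 : ℝ) ≤ M := Nat.cast_nonneg _
  have h1 : ∑ t ∈ (Ioc N (N + M)).filter (fun t => D.eval t ≠ 0),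
        lam ^ (D.eval t).natAbs.primeFactors.card * R (D.eval t) ^ k ≤
      ∑ t ∈ (Ioc N (N + M)).filter (fun t => D.eval t ≠ 0),
        Fw (fun _ => lam) W0 0 (D.eval t) * R (D.eval t) ^ k' := by
    refine sum_le_sum fun t ht => ?_
    have ht' := (mem_filter.1 ht).2
    refine mul_le_mul (Fw_ge hlam (le_max_right _ _) _) ?_ (pow_nonneg (hE.1 _) _)
      (Fw_nonneg (fun _ => hlam.le) (le_max_left _ _) _)
    exact pow_le_pow_right₀ (hE.2.1 _ ht') (by omega)
  refine h1.trans ((to_Ioc (fun t => Fw (fun _ => lam) W0 0 (D.eval t) *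
    R (D.eval t) ^ k') (fun t => mul_nonneg
      (Fw_nonneg (fun _ => hlam.le) (le_max_left _ _) _) (pow_nonneg (hE.1 _) _))
    (fun t => D.eval t ≠ 0) N M).trans ?_)
  refine le_trans ?_ ((hC1 N M (by omega) (natAbs_le_of hN)).trans ?_)
  · refine le_of_eq (sum_congr ?_ fun t _ => rfl)
    ext t
    simp
  · calc C1 * (M * Real.exp (Sp (fun p => (lam - 1) * rho D p) (z1 + z2) M))
        ≤ |C1| * (M * Real.exp (Sp (fun p => (lam - 1) * rho D p) (z1 + z2) M)) :=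
          mul_le_mul_of_nonneg_right (le_abs_self _) (by positivity)
      _ ≤ |C1| * (M * (C2 * (Real.log M) ^ ((lam - 1) * r))) :=
          mul_le_mul_of_nonneg_left (mul_le_mul_of_nonneg_left (hC2 M hM) hM0) (abs_nonneg _)
      _ = _ := by ring

/-- **the moments with the weight `∏ lam ρ_g(p)`** -/
theorem wts_avg_g (h : AWR R) (g : ℤ[X]) (k0 B : ℕ) (hg : Squarefree (g.map (Int.castRingHom ℚ)))
    (hd : 0 < g.natDegree) (lam W0 : ℝ) (c : ℕ) (hlam : 0 < lam)
    (hlW : lam * g.natDegree ≤ W0)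
    (hW1 : 1 ≤ W0) (hcW : W0 ≤ c) (hk : 2 * c ≤ 4 ^ k0) :
    ∃ z1 : ℕ, ∀ z2, z1 ≤ z2 → ∃ z0 : ℕ, ∀ z, z0 ≤ z → ∃ C : ℝ, ∀ (N : ℤ) (X : ℕ), 1 ≤ X →
      N.natAbs ≤ X ^ B →
      ∑ t ∈ (Icc 1 X).filter (fun t : ℕ => N + (t : ℤ) ≠ 0),
        Fw (wg lam g z2) W0 z2 (N + (t : ℤ)) * R (N + (t : ℤ)) ^ k0 ≤
          C * (X * Real.exp (Sp (fun p => lam * rho g p - 1) z X)) := by
  obtain ⟨zg, hzg⟩ := GDPf.gdp g hg
  refine ⟨zg, fun z2 hz2 => ?_⟩
  have hw0 : ∀ p, 0 ≤ wg lam g z2 p := by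
    intro p
    unfold wg
    split_ifs
    · exact mul_nonneg hlam.le (Nat.cast_nonneg _)
    · exact le_rfl
  have hwW : ∀ p, wg lam g z2 p ≤ W0 := by
    intro p
    unfold wg
    split_ifs with h
    · refine le_trans (mul_le_mul_of_nonneg_left ?_ hlam.le) hlW
      exact_mod_cast (hzg z2 hz2 p h.1 h.2).1
    · linarith
  have hsqX : Squarefree ((X : ℤ[X]).map (Int.castRingHom ℚ)) := by
    rw [Polynomial.map_X]
    exact irreducible_X.squarefree
  obtain ⟨z0, hz0⟩ := h X g k0 B hsqX (by simp) hg hd (wg lam g z2) lam W0 z2 z2 c hw0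
    hwW hW1 (by simpa using hcW) hlam (hlW.trans hcW) hk (fun p hp hpz => by
      unfold wg
      rw [if_pos ⟨hp, hpz⟩, rho_X' hp, Nat.cast_one, mul_one])
  refine ⟨z0 + z2, fun z hz => ?_⟩
  obtain ⟨C, hC⟩ := hz0 z (by omega)
  refine ⟨C, fun N X hX hN => ?_⟩
  have h1 := hC N X hX hN
  simp only [eval_X] at h1
  refine h1.trans (le_of_eq ?_)
  congr 3
  unfold Sp
  refine sum_congr rfl fun p hp => ?_
  have hp' := mem_PS'.1 hp
  unfold wg
  beta_reduce
  rw [if_pos ⟨hp'.2, by omega⟩, rho_X' hp'.2]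
  simp

/-- the moments over the integers whose prime factors split completely, with weights -/
theorem spl_of (hE : ELM R) (h : AWR R) {g : ℤ[X]} (hg : Irreducible g) (hn : 0 < g.natDegree)
    (lam : ℝ) (hlam : 0 < lam) (z k L : ℕ) :
    ∃ K : ℝ, 0 ≤ K ∧ ∀ (N : ℤ) (M : ℕ), 2 ≤ M → |N| ≤ (M : ℤ) ^ L → ∀ P : Finset ℤ,
      (∀ d ∈ P, d ∈ Ioc N (N + M) ∧ d ≠ 0 ∧ Spl g z d) →
      ∑ d ∈ P, lam ^ d.natAbs.primeFactors.card * R d ^ k ≤
        K * (M * (Real.log M) ^ (lam / g.natDegree - 1)) := by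
  classical
  set n : ℝ := (g.natDegree : ℝ) with hnd
  have hn0 : 0 < n := Nat.cast_pos.2 hn
  have hG : Irr (fun _ : Fin 1 => g) :=
    ⟨fun _ => hg, fun _ => hn, fun j l h => absurd (Subsingleton.elim j l) h⟩
  have hX : Irr (fun _ : Fin 1 => (X : ℤ[X])) :=
    ⟨fun _ => Polynomial.irreducible_X, fun _ => by rw [natDegree_X]; norm_num,
      fun j l h => absurd (Subsingleton.elim j l) h⟩
  have hsq : Squarefree (g.map (Int.castRingHom ℚ)) := (hG.irrQ 0).squarefree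
  set W0 : ℝ := max 1 lam with hW0
  set c' : ℕ := ⌈W0⌉₊ with hc'
  set k' : ℕ := k + 2 * c' with hk'
  have hk2 : 2 * c' ≤ 4 ^ k' := by
    have h1 : k' < 4 ^ k' := Nat.lt_pow_self (by norm_num)
    omega
  obtain ⟨z1, hz1⟩ := wts_avg_g h g k' L hsq hn (lam / n) W0 c' (by positivity)
    (by rw [← hnd, div_mul_cancel₀ _ hn0.ne']; exact le_max_right _ _)
    (le_max_left _ _) (Nat.le_ceil _) hk2
  obtain ⟨z2, hz2⟩ := hz1 (z1 + z) (by omega)
  obtain ⟨z3, hz3⟩ := mert_prod hG (c := 1) one_ne_zero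
  obtain ⟨z4, hz4⟩ := mert_prod hX (c := 1) one_ne_zero
  set zz : ℕ := z2 + z3 + z4 with hzz
  obtain ⟨C1, hC1⟩ := hz2 zz (by omega)
  obtain ⟨K3, hK30, hK3⟩ := hz3 zz (by omega)
  obtain ⟨K4, hK40, hK4⟩ := hz4 zz (by omega)
  -- the exponent
  have hexp : ∃ K : ℝ, 0 ≤ K ∧ ∀ M : ℕ, 2 ≤ M →
      Real.exp (Sp (fun p => lam / n * rho g p - 1) zz M) ≤
        K * (Real.log M) ^ (lam / n - 1) := by
    refine ⟨Real.exp (lam / n * K3 + K4) + ∑ M ∈ Icc 2 zz, (Real.log M) ^ (-(lam / n - 1)), ?_,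
      fun M hM => ?_⟩
    · refine add_nonneg (Real.exp_pos _).le (sum_nonneg fun M _ => Real.rpow_nonneg ?_ _)
      exact Real.log_natCast_nonneg M
    have hlM : 0 < Real.log M := Real.log_pos (by exact_mod_cast (by omega : 1 < M))
    have hs0 : ∀ X ∈ Icc 2 zz, (0 : ℝ) ≤ (Real.log X) ^ (-(lam / n - 1)) := fun X _ =>
      Real.rpow_nonneg (Real.log_natCast_nonneg X) _
    have hp0 : 0 < (Real.log M) ^ (lam / n - 1) := Real.rpow_pos_of_pos hlM _
    have hG1 : (C (1 : ℤ) * ∏ _i : Fin 1, g) = g := by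
      rw [C_1, one_mul, Fin.prod_const, pow_one]
    have hX1 : (C (1 : ℤ) * ∏ _i : Fin 1, (X : ℤ[X])) = X := by
      rw [C_1, one_mul, Fin.prod_const, pow_one]
    rcases Nat.lt_or_ge zz M with hlt | hge
    · have h1 := hK3 M hlt
      have h2 := hK4 M hlt
      rw [hG1] at h1
      rw [hX1] at h2
      have h3 : Sp (fun p => lam / n * rho g p - 1) zz M =
          lam / n * Sp (fun p => (rho g p : ℝ)) zz M - Sp (fun p => (rho X p : ℝ)) zz M := by
        unfold Sp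
        rw [mul_sum, ← sum_sub_distrib]
        refine sum_congr rfl fun p hp => ?_
        beta_reduce
        rw [rho_X' (mem_PS'.1 hp).2, Nat.cast_one]
        ring
      have h4 := (abs_le.1 h1).2
      have h5 := (abs_le.1 h2).1
      have h6 : Sp (fun p => lam / n * rho g p - 1) zz M ≤
          (lam / n * K3 + K4) + (lam / n - 1) * Real.log (Real.log M) := by
        rw [h3]
        push_cast at h4 h5
        have h7 : lam / n * (Sp (fun p => (rho g p : ℝ)) zz M - 1 * Real.log (Real.log M)) ≤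
            lam / n * K3 := mul_le_mul_of_nonneg_left h4 (by positivity)
        nlinarith
      calc Real.exp (Sp (fun p => lam / n * rho g p - 1) zz M)
          ≤ Real.exp ((lam / n * K3 + K4) + (lam / n - 1) * Real.log (Real.log M)) :=
            Real.exp_le_exp.2 h6
        _ = Real.exp (lam / n * K3 + K4) * (Real.log M) ^ (lam / n - 1) := by
            rw [Real.exp_add, Real.rpow_def_of_pos hlM]
            congr 2
            ring
        _ ≤ _ := mul_le_mul_of_nonneg_right (le_add_of_nonneg_right (sum_nonneg hs0)) hp0.le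
    · have h1 : Sp (fun p => lam / n * rho g p - 1) zz M = 0 := by
        unfold Sp
        refine sum_eq_zero fun p hp => ?_
        have := (mem_PS'.1 hp).1
        omega
      rw [h1, Real.exp_zero]
      have h2 : (Real.log M) ^ (-(lam / n - 1)) ≤
          ∑ X ∈ Icc 2 zz, (Real.log X) ^ (-(lam / n - 1)) :=
        single_le_sum (f := fun X : ℕ => (Real.log X) ^ (-(lam / n - 1))) hs0
          (mem_Icc.2 ⟨hM, hge⟩)
      have h3 : (Real.log M) ^ (-(lam / n - 1)) * (Real.log M) ^ (lam / n - 1) = 1 := by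
        rw [← Real.rpow_add hlM]
        simp
      calc (1 : ℝ) = (Real.log M) ^ (-(lam / n - 1)) * (Real.log M) ^ (lam / n - 1) := h3.symm
        _ ≤ (∑ X ∈ Icc 2 zz, (Real.log X) ^ (-(lam / n - 1))) * (Real.log M) ^ (lam / n - 1) :=
            mul_le_mul_of_nonneg_right h2 hp0.le
        _ ≤ _ := mul_le_mul_of_nonneg_right (le_add_of_nonneg_left (Real.exp_pos _).le) hp0.le
  obtain ⟨C2, hC20, hC2⟩ := hexp
  refine ⟨|C1| * C2, by positivity, fun N M hM hN P hP => ?_⟩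
  have hM0 : (0 : ℝ) ≤ M := Nat.cast_nonneg _
  have hwg : ∀ p, 0 ≤ wg (lam / n) g (z1 + z) p := by
    intro p
    unfold wg
    split_ifs
    · exact mul_nonneg (by positivity) (Nat.cast_nonneg _)
    · exact le_rfl
  have h1 : ∑ d ∈ P, lam ^ d.natAbs.primeFactors.card * R d ^ k ≤
      ∑ d ∈ (Ioc N (N + M)).filter (fun d => d ≠ 0), Fw (wg (lam / n) g (z1 + z)) W0 (z1 + z) d *
        R d ^ k' := by
    refine (sum_le_sum fun d hd => ?_).trans (sum_le_sum_of_subset_of_nonneg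
      (f := fun d => Fw (wg (lam / n) g (z1 + z)) W0 (z1 + z) d * R d ^ k')
      ?_ ?_)
    · obtain ⟨h1, h2, h3⟩ := hP d hd
      have h4 : Spl g (z1 + z) d := fun p hp hz h5 h6 => h3 p hp (by omega) h5 h6
      refine mul_le_mul (Fw_spl h4 hn hlam (le_max_right _ _)) ?_
        (pow_nonneg (hE.1 _) _) (Fw_nonneg hwg (le_max_left _ _) _)
      exact pow_le_pow_right₀ (hE.2.1 _ h2) (by omega)
    · intro d hd
      exact mem_filter.2 ⟨(hP d hd).1, (hP d hd).2.1⟩
    · intro d _ _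
      exact mul_nonneg (Fw_nonneg hwg (le_max_left _ _) _) (pow_nonneg (hE.1 _) _)
  refine h1.trans ((to_Ioc (fun d => Fw (wg (lam / n) g (z1 + z)) W0 (z1 + z) d *
    R d ^ k') (fun d => mul_nonneg (Fw_nonneg hwg (le_max_left _ _) _)
      (pow_nonneg (hE.1 _) _)) (fun d => d ≠ 0) N M).trans ?_)
  refine le_trans ?_ ((hC1 N M (by omega) (natAbs_le_of hN)).trans ?_)
  · exact le_rfl
  · calc C1 * (M * Real.exp (Sp (fun p => lam / n * rho g p - 1) zz M))
        ≤ |C1| * (M * Real.exp (Sp (fun p => lam / n * rho g p - 1) zz M)) :=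
          mul_le_mul_of_nonneg_right (le_abs_self _) (by positivity)
      _ ≤ |C1| * (M * (C2 * (Real.log M) ^ (lam / n - 1))) :=
          mul_le_mul_of_nonneg_left (mul_le_mul_of_nonneg_left (hC2 M hM) hM0) (abs_nonneg _)
      _ = _ := by ring

end Pool.Agent.TH344.TJ
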