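import Mathlib
import Pool.Agent.TH344.TJ.Wts
import Pool.Agent.TH841.MD.Main
import Pool.Agent.TH841.MD.CNT
import Pool.Agent.TH841.MD.LOW
import Pool.Agent.TH841.MD.TLOW

/-!
# Project TJ: all multiquadratic fields, for a function with weighted moments
-/

set_option autoImplicit false

namespace Pool.Agent.TH344.TJ

open Finset Polynomial Pool.Agent.TH841.PT Pool.Agent.TH841.MD

variable {R : ℤ → ℝ}

/-- the weighted moments over all integers of absolute value at most `y` -/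
lemma mom_gen (hE : ELM R) (h : AWR R) (lam : ℝ) (hlam : 1 ≤ lam) (k : ℕ) : ∃ K : ℝ, 0 ≤ K ∧
    ∀ x y : ℕ, 2 ≤ x → 1 ≤ y → y ≤ x →
      ∑ e ∈ (Icc (-(y : ℤ)) (y : ℤ)).filter (fun e => e ≠ 0),
        lam ^ e.natAbs.primeFactors.card * R e ^ k ≤ K * (y * (Real.log x) ^ (lam - 1)) := by
  classical
  obtain ⟨K, hK0, hK⟩ := w_of hE h irr_X one_pos (c := 1) one_ne_zero lam (by linarith) k 1
  refine ⟨K * (3 * 3 ^ (lam - 1)), by positivity, fun x y hx hy hyx => ?_⟩
  have h1 := hK (-(y : ℤ) - 1) (2 * y + 1) (by omega) (by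
    rw [pow_one, abs_le]
    push_cast
    constructor <;> omega)
  have h2 : ∀ t : ℤ, (C (1 : ℤ) * ∏ i : Fin 1, X).eval t = t := by
    intro t
    rw [C_1, one_mul, Fin.prod_const, pow_one, eval_X]
  simp only [h2] at h1
  have h3 : Ioc (-(y : ℤ) - 1) (-(y : ℤ) - 1 + ((2 * y + 1 : ℕ) : ℤ)) = Icc (-(y : ℤ)) (y : ℤ) := by
    ext t
    rw [mem_Ioc, mem_Icc]
    push_cast
    constructor <;> intro h <;> constructor <;> omega
  rw [h3] at h1
  refine h1.trans ?_
  have hx' : (2 : ℝ) ≤ x := by exact_mod_cast hx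
  have hy' : (1 : ℝ) ≤ y := by exact_mod_cast hy
  have hyx' : (y : ℝ) ≤ x := by exact_mod_cast hyx
  have hlx : 0 < Real.log x := Real.log_pos (by linarith)
  have h4 : Real.log ((2 * y + 1 : ℕ) : ℝ) ≤ 3 * Real.log x := by
    have h5 : ((2 * y + 1 : ℕ) : ℝ) ≤ (x : ℝ) ^ 3 := by
      push_cast
      nlinarith [mul_le_mul hx' hx' (by norm_num) (by linarith)]
    have h6 := Real.log_le_log (by positivity) h5
    rw [Real.log_pow] at h6
    exact_mod_cast h6
  have h7 : (Real.log ((2 * y + 1 : ℕ) : ℝ)) ^ ((lam - 1) * ((1 : ℕ) : ℝ)) ≤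
      3 ^ (lam - 1) * (Real.log x) ^ (lam - 1) := by
    rw [Nat.cast_one, mul_one, ← Real.mul_rpow (by norm_num) hlx.le]
    exact Real.rpow_le_rpow (Real.log_natCast_nonneg _) h4 (by linarith)
  have h8 : ((2 * y + 1 : ℕ) : ℝ) ≤ 3 * y := by
    push_cast
    linarith
  calc K * (((2 * y + 1 : ℕ) : ℝ) * (Real.log ((2 * y + 1 : ℕ) : ℝ)) ^ ((lam - 1) * ((1 : ℕ) : ℝ)))
      ≤ K * ((3 * y) * (3 ^ (lam - 1) * (Real.log x) ^ (lam - 1))) := by
        refine mul_le_mul_of_nonneg_left (mul_le_mul h8 h7 ?_ (by positivity)) hK0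
        exact Real.rpow_nonneg (Real.log_natCast_nonneg _) _
    _ = _ := by ring

/-- the moments of one component -/
lemma sum_Tg (hE : ELM R) (h : AWR R) (hcnt : CNT) (s : ℕ) (T : Finset (Fin s))
    (hT : T.Nonempty) (k : ℕ) : ∃ C : ℝ, 0 ≤ C ∧ ∀ X : ℕ, 2 ≤ X →
      ∑ d ∈ Tup s X, R (eT d T) ^ k ≤ C * (X * (Real.log X) ^ (2 ^ s - 2)) := by
  classical
  have hs : 1 ≤ s := by
    obtain ⟨i, _⟩ := hT
    have := i.2
    omega
  set lam : ℝ := 2 ^ (s - 1) with hlam
  have hlam1 : 1 ≤ lam := one_le_pow₀ (by norm_num)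
  obtain ⟨K1, hK10, hK1⟩ := mom_gen hE h lam hlam1 k
  obtain ⟨K2, hK20, hK2⟩ := ups (lam - 1) (by linarith)
  refine ⟨2 ^ s * (K1 * K2), by positivity, fun X hX => ?_⟩
  have hX1 : (1 : ℝ) ≤ X := by exact_mod_cast (by omega : 1 ≤ X)
  have hlx : 0 < Real.log X := Real.log_pos (by exact_mod_cast (by omega : 1 < X))
  set F : ℤ → ℝ := fun e => R e ^ k with hF
  have hF0 : ∀ e, 0 ≤ F e := fun e => pow_nonneg (hE.1 _) _
  refine ((hcnt s T hT).2 F hF0 X).trans ?_
  have h1 : ∑ g ∈ (Icc 1 X).filter Squarefree, (lam - 1) ^ g.primeFactors.card *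
      ∑ e ∈ (Icc (-((X / g : ℕ) : ℤ)) ((X / g : ℕ) : ℤ)).filter (fun e => e ≠ 0),
        lam ^ e.natAbs.primeFactors.card * F e ≤
      K1 * K2 * (X * (Real.log X) ^ (2 ^ s - 2)) := by
    calc ∑ g ∈ (Icc 1 X).filter Squarefree, (lam - 1) ^ g.primeFactors.card *
        ∑ e ∈ (Icc (-((X / g : ℕ) : ℤ)) ((X / g : ℕ) : ℤ)).filter (fun e => e ≠ 0),
          lam ^ e.natAbs.primeFactors.card * F e
        ≤ ∑ g ∈ (Icc 1 X).filter Squarefree, (lam - 1) ^ g.primeFactors.card *
          (K1 * (X / g * (Real.log X) ^ (lam - 1))) := by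
          refine sum_le_sum fun g hg => mul_le_mul_of_nonneg_left ?_
            (pow_nonneg (by linarith) _)
          have hg' := mem_Icc.1 (mem_filter.1 hg).1
          refine (hK1 X (X / g) hX ((Nat.le_div_iff_mul_le hg'.1).2 (by omega))
            (Nat.div_le_self X g)).trans ?_
          refine mul_le_mul_of_nonneg_left (mul_le_mul_of_nonneg_right ?_ ?_) hK10
          · exact Nat.cast_div_le
          · exact Real.rpow_nonneg hlx.le _
      _ = K1 * (X * (Real.log X) ^ (lam - 1)) * ∑ g ∈ (Icc 1 X).filter Squarefree,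
          (lam - 1) ^ g.primeFactors.card / (g : ℝ) := by
          rw [mul_sum]
          refine sum_congr rfl fun g _ => ?_
          ring
      _ ≤ K1 * (X * (Real.log X) ^ (lam - 1)) * (K2 * (Real.log X) ^ (lam - 1)) := by
          refine mul_le_mul_of_nonneg_left (hK2 X hX) ?_
          have := Real.rpow_nonneg hlx.le (lam - 1)
          positivity
      _ = K1 * K2 * (X * ((Real.log X) ^ (lam - 1) * (Real.log X) ^ (lam - 1))) := by ring
      _ = _ := by
          congr 2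
          rw [← Real.rpow_add hlx, ← Real.rpow_natCast]
          congr 1
          have h2s : 2 ≤ 2 ^ s := by
            calc 2 = 2 ^ 1 := (pow_one 2).symm
              _ ≤ 2 ^ s := Nat.pow_le_pow_right (by norm_num) hs
          rw [Nat.cast_sub h2s, hlam]
          push_cast
          have h3 : (2 : ℝ) ^ s = 2 * 2 ^ (s - 1) := by
            rw [← pow_succ']
            congr 1
            omega
          rw [h3]
          ring
  calc 2 ^ s * ∑ g ∈ (Icc 1 X).filter Squarefree, ((2 : ℝ) ^ (s - 1) - 1) ^ g.primeFactors.card *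
      ∑ e ∈ (Icc (-((X / g : ℕ) : ℤ)) ((X / g : ℕ) : ℤ)).filter (fun e => e ≠ 0),
        ((2 : ℝ) ^ (s - 1)) ^ e.natAbs.primeFactors.card * F e
      ≤ 2 ^ s * (K1 * K2 * (X * (Real.log X) ^ (2 ^ s - 2))) :=
        mul_le_mul_of_nonneg_left h1 (by positivity)
    _ = _ := by ring

/-- **the mean value of the product of the `R (∏ i ∈ T, d i) ^ k` over all multiquadratic fields of
degree `2 ^ s`** -/
theorem mq_of (hE : ELM R) (h : AWR R) (s : ℕ) (hs : 1 ≤ s) (k : ℕ) :
    ∃ C : ℝ, ∀ X : ℕ, ∑ d ∈ Tup s X, (∏ T : Finset (Fin s), R (∏ i ∈ T, d i)) ^ k ≤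
      C * (Tup s X).card := by
  classical
  have hcnt := Pool.Agent.TH841.MD.CNTf.cnt
  obtain ⟨c, hc, hlowc⟩ := tup_low Pool.Agent.TH841.MD.LOWf.low Pool.Agent.TH841.MD.TLOWf.tlow s hs
  set k' : ℕ := Fintype.card (Finset (Fin s)) * k with hk'
  choose CT hCT0 hCT using fun T : {T : Finset (Fin s) // T.Nonempty} =>
    sum_Tg hE h hcnt s T.1 T.2 k'
  set C0 : ℝ := R 1 ^ k' with hC0
  set C1 : ℝ := C0 + ∑ T, CT T / c with hC1
  set Sd : (Fin s → ℤ) → Finset (Fin s) → ℝ := fun d T => R (∏ i ∈ T, d i) with hSd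
  have hSd0 : ∀ d T, 0 ≤ Sd d T := fun d T => hE.1 _
  set C2 : ℝ := ∑ d ∈ Tup s 1, (∏ T : Finset (Fin s), Sd d T) ^ k with hC2
  have hC00 : 0 ≤ C0 := pow_nonneg (hE.1 _) _
  have hC10 : 0 ≤ ∑ T, CT T / c := sum_nonneg fun T _ => div_nonneg (hCT0 T) hc.le
  have hC20 : 0 ≤ C2 := sum_nonneg fun d _ => pow_nonneg (prod_nonneg fun T _ => hSd0 d T) _
  have hne : ∀ X : ℕ, ∀ d ∈ Tup s X, ∀ i, d i ≠ 0 := by
    intro X d hd i
    unfold Tup at hd
    have := (mem_filter.1 hd).2.1 i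
    exact this.ne_zero
  refine ⟨C1 + C2, fun X => ?_⟩
  rcases (Tup s X).eq_empty_or_nonempty with h0 | h0
  · rw [h0]
    simp
  have hcard : (1 : ℝ) ≤ (Tup s X).card := by exact_mod_cast h0.card_pos
  rcases Nat.lt_or_ge X 2 with hX | hX
  · have hX1 : Tup s X ⊆ Tup s 1 := by
      intro d hd
      unfold Tup at hd ⊢
      rw [mem_filter, Fintype.mem_piFinset] at hd ⊢
      refine ⟨fun i => ?_, hd.2.1, by omega, hd.2.2.2⟩
      have := mem_Icc.1 (hd.1 i)
      rw [mem_Icc]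
      push_cast
      omega
    calc ∑ d ∈ Tup s X, (∏ T : Finset (Fin s), Sd d T) ^ k ≤ C2 :=
          sum_le_sum_of_subset_of_nonneg hX1 fun d _ _ =>
            pow_nonneg (prod_nonneg fun T _ => hSd0 d T) _
      _ = C2 * 1 := (mul_one _).symm
      _ ≤ (C1 + C2) * (Tup s X).card :=
        mul_le_mul (by linarith) hcard (by norm_num) (by linarith)
  · have h1 : ∑ d ∈ Tup s X, (∏ T : Finset (Fin s), Sd d T) ^ k ≤
        ∑ T : Finset (Fin s), ∑ d ∈ Tup s X, Sd d T ^ k' := by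
      rw [sum_comm]
      exact sum_le_sum fun d _ => Pool.Agent.TH841.NF.prod_pow_le (Sd d) (hSd0 d) k
    have h2 : ∀ T : Finset (Fin s), ∑ d ∈ Tup s X, Sd d T ^ k' ≤
        (if h : T.Nonempty then CT ⟨T, h⟩ / c else C0) * (Tup s X).card := by
      intro T
      by_cases hT : T.Nonempty
      · rw [dif_pos hT]
        have h3 := hCT ⟨T, hT⟩ X hX
        have h4 := hlowc X hX h0
        have h5 : ∑ d ∈ Tup s X, Sd d T ^ k' ≤ ∑ d ∈ Tup s X, R (eT d T) ^ k' := by
          refine sum_le_sum fun d hd => pow_le_pow_left₀ (hSd0 d T) ?_ _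
          obtain ⟨h7, w, hw⟩ := (hcnt s T hT).1 X d hd
          have hw0 : w ≠ 0 := by
            rintro rfl
            have : ∏ i ∈ T, d i ≠ 0 := prod_ne_zero_iff.2 fun i _ => hne X d hd i
            apply this
            rw [hw]
            ring
          rw [hSd]
          simp only
          rw [hw]
          exact hE.2.2.1 _ _ h7 hw0
        refine h5.trans (h3.trans ?_)
        calc CT ⟨T, hT⟩ * (X * (Real.log X) ^ (2 ^ s - 2))
            = CT ⟨T, hT⟩ / c * (c * (X * (Real.log X) ^ (2 ^ s - 2))) := by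
              field_simp
          _ ≤ _ := mul_le_mul_of_nonneg_left h4 (div_nonneg (hCT0 _) hc.le)
      · rw [dif_neg hT]
        have hT' : T = ∅ := not_nonempty_iff_eq_empty.1 hT
        subst hT'
        have h3 : ∀ d : Fin s → ℤ, Sd d ∅ ^ k' = C0 := by
          intro d
          rw [hSd, hC0]
          beta_reduce
          rw [prod_empty]
        rw [sum_congr rfl fun d _ => h3 d, sum_const, nsmul_eq_mul, mul_comm]
    have h3 : ∑ T : Finset (Fin s), (if h : T.Nonempty then CT ⟨T, h⟩ / c else C0) = C1 := by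
      rw [hC1]
      rw [← Finset.sum_filter_add_sum_filter_not univ (fun T : Finset (Fin s) => T.Nonempty)]
      rw [add_comm]
      congr 1
      · have h4 : (univ : Finset (Finset (Fin s))).filter (fun T => ¬ T.Nonempty) = {∅} := by
          ext T
          simp [not_nonempty_iff_eq_empty]
        rw [h4, sum_singleton, dif_neg (by simp)]
      · rw [sum_subtype (p := fun T : Finset (Fin s) => T.Nonempty) _ (by simp)
          (fun T => if h : T.Nonempty then CT ⟨T, h⟩ / c else C0)]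
        refine sum_congr rfl fun T _ => ?_
        rw [dif_pos T.2]
    calc ∑ d ∈ Tup s X, (∏ T : Finset (Fin s), Sd d T) ^ k
        ≤ ∑ T : Finset (Fin s), (if h : T.Nonempty then CT ⟨T, h⟩ / c else C0) *
          (Tup s X).card := h1.trans (sum_le_sum fun T _ => h2 T)
      _ = C1 * (Tup s X).card := by rw [← sum_mul, h3]
      _ ≤ _ := mul_le_mul_of_nonneg_right (by linarith) (Nat.cast_nonneg _)

end Pool.Agent.TH344.TJ
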