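import Mathlib
import Pool.Agent.TH344.TJ.Stm
import Pool.Agent.TH841.PT.Fin1

/-!
# Project TJ: weighted averages of a function with a local bound (helper883)

Adaptation of `Pool.Agent.TH841.PT.AvgW` to an arbitrary function `R` with local data `F`.
-/

set_option autoImplicit false

namespace Pool.Agent.TH344.TJ

open Finset Polynomial Pool.Agent.W262.RK Pool.Agent.W307.RT Pool.Agent.W307.RS
open Pool.Agent.TH841.PT

open Pool.Agent.H474R2.PG (rho)

/-- **weighted averages of a function with a local bound** -/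
theorem gavw_of (hcnt : CNTP) (hant : ANTX) (hrs : RSP) (hrv : RVP) (hru : RUP) (hgd : GDP) :
    S_GAVW := by
  intro R F hkit D B hD hd w W0 z1 c hv0 hvW hW1 hcW hma
  obtain ⟨hR0, hF0, A, hA1', zF, hzF⟩ := hkit
  have hW0 : 0 ≤ W0 := by linarith
  have hDc : D.natDegree ≤ c := by
    have h1 : (D.natDegree : ℝ) ≤ c := by
      refine le_trans ?_ hcW
      exact le_mul_of_one_le_left (Nat.cast_nonneg _) hW1
    exact_mod_cast h1
  obtain ⟨z0, hz0⟩ := hma
  obtain ⟨zg, hzg⟩ := hgd D hD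
  refine ⟨z0 + zg + (2 * c + 2) + 4 + z1 + zF, fun z hz => ?_⟩
  obtain ⟨⟨C0, hC00, hrkb⟩, hgrw⟩ := hzF z (by omega)
  have hGd := hzg z (by omega)
  have hG : GoodD D z c := fun p hp hzp => ⟨(hGd p hp hzp).1.trans hDc, (hGd p hp hzp).2⟩
  obtain ⟨C', hC'⟩ := hz0 z (by omega)
  obtain ⟨C, K, y0, hCn, hK1, hcn⟩ := hcnt c z (by omega)
  obtain ⟨Kd, hKd⟩ := eval_le D
  obtain ⟨At, hAt0, hAt⟩ := tail_le (z := z) (by omega)
  set B' : ℕ := (B + 2) * D.natDegree + 1 with hB'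
  set y1 : ℕ := y0 + Kd + 3 with hy1
  -- the signed weights
  set e : ℕ → ℝ := fun p => (w p - 1) * rho D p with he
  have hec : ∀ p : ℕ, p.Prime → z < p → |e p| ≤ c := by
    intro p hp hzp
    rw [he]
    simp only
    rw [abs_mul, Nat.abs_cast]
    have h1 : |w p - 1| ≤ W0 := by
      rw [abs_le]
      have := hv0 p
      have := hvW p
      constructor <;> linarith
    have h2 : (rho D p : ℝ) ≤ D.natDegree := by exact_mod_cast (hGd p hp hzp).1
    exact (mul_le_mul h1 h2 (Nat.cast_nonneg _) hW0).trans hcW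
  have hSe : ∀ y, Sp e z y = Sp (fun p => w p * rho D p) z y - Sp (fun p => (rho D p : ℝ)) z y := by
    intro y
    unfold Sp
    rw [← sum_sub_distrib]
    refine sum_congr rfl fun p _ => ?_
    rw [he]
    ring
  -- the summand
  let r : ℤ → ℝ := fun x => Fw w W0 z1 (D.eval x) * R (D.eval x)
  have hr0 : ∀ x, 0 ≤ r x := fun x =>
    mul_nonneg (Fw_nonneg hv0 hW1 _) (hR0 _)
  suffices key : ∃ C2 : ℝ, ∀ θ : {θ : ℤ × ℕ // 1 ≤ θ.2 ∧ θ.1.natAbs ≤ θ.2 ^ B},
      ∑ t ∈ (Icc 1 θ.1.2).filter (fun t : ℕ => D.eval (θ.1.1 + (t : ℤ)) ≠ 0),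
        r (θ.1.1 + (t : ℤ)) ≤ C2 * ((θ.1.2 : ℝ) * Real.exp (Sp e z θ.1.2)) by
    obtain ⟨C2, hC2⟩ := key
    exact ⟨C2, fun N X hX hN => hC2 ⟨(N, X), hX, hN⟩⟩
  set G : (Unit → ℕ) → ℝ := fun s => FA F (s ()) with hGdef
  have hG0 : ∀ s, 0 ≤ G s := by
    intro s
    rw [hGdef]
    unfold FA
    exact mul_nonneg (by positivity) (sum_nonneg fun _ _ => hF0 _ _)
  have hcz : c ≤ z := by omega
  have hrd : ∀ p, p.Prime → rz D z p ≤ D.natDegree := by
    intro p hp
    unfold rz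
    split_ifs with h
    · exact_mod_cast (hGd p hp h).1
    · exact Nat.cast_nonneg _
  have hDcR : (D.natDegree : ℝ) ≤ c := by exact_mod_cast hDc
  -- the weights for the primes only
  set wd : ℕ → ℝ := fun p => if p.Prime then rz D z p else 0 with hwd
  have hwd0 : ∀ p, 0 ≤ wd p := by
    intro p
    rw [hwd]
    simp only
    split_ifs
    · exact rz_nonneg _ _ _
    · exact le_rfl
  have hwdc : ∀ p, wd p ≤ c := by
    intro p
    rw [hwd]
    simp only
    split_ifs with h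
    · exact (hrd p h).trans hDcR
    · exact Nat.cast_nonneg _
  set vw : ℕ → ℝ := fun p => w p * wd p with hvw
  have hvw0 : ∀ p, 0 ≤ vw p := fun p => mul_nonneg (hv0 p) (hwd0 p)
  have hvwc : ∀ p, vw p ≤ c := by
    intro p
    have h2 : wd p ≤ D.natDegree := by
      rw [hwd]
      simp only
      split_ifs with h
      · exact hrd p h
      · exact Nat.cast_nonneg _
    exact (mul_le_mul (hvW p) h2 (hwd0 p) hW0).trans hcW
  have hgw : ∀ d, gp wd c d = gp (rz D z) c d := by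
    intro d
    unfold gp
    refine prod_congr rfl fun p hp => ?_
    rw [hwd]
    simp only
    rw [if_pos (Nat.prime_of_mem_primeFactors hp)]
  have hgv : ∀ d, gp vw c d = gp (fun p => w p * rz D z p) c d := by
    intro d
    unfold gp
    refine prod_congr rfl fun p hp => ?_
    rw [hvw, hwd]
    simp only
    rw [if_pos (Nat.prime_of_mem_primeFactors hp)]
  have hgvw : ∀ d, gp vw c d = (∏ p ∈ d.primeFactors, w p) * gp wd c d := by
    intro d
    unfold gp
    rw [← prod_mul_distrib]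
    refine prod_congr rfl fun p hp => ?_
    rw [hvw]
    ring
  have hgwn : ∀ {y d : ℕ}, d ∣ PP z y → 0 ≤ gp wd c d := fun hd => gp_nonneg hwd0 hcz hd
  have hgvn : ∀ {y d : ℕ}, d ∣ PP z y → 0 ≤ gp vw c d := fun hd => gp_nonneg hvw0 hcz hd
  have hc1 : 1 ≤ c := le_trans hd hDc
  have hA1 : (1 : ℝ) ≤ A * W0 := one_le_mul_of_one_le_of_one_le hA1' hW1
  have hA0 : (0 : ℝ) ≤ A := by linarith
  refine hant Unit ℕ {θ : ℤ × ℕ // 1 ≤ θ.2 ∧ θ.1.natAbs ≤ θ.2 ^ B}
    (fun θ => (Icc 1 θ.1.2).filter (fun t : ℕ => D.eval (θ.1.1 + (t : ℤ)) ≠ 0))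
    (fun θ => θ.1.2) (fun θ t _ => D.eval (θ.1.1 + (t : ℤ)))
    (fun θ => (θ.1.2 : ℝ) * Real.exp (Sp e z θ.1.2)) z
    (fun y => Real.exp (Sp (fun p => w p * rho D p) z y))
    (fun s => G s * ∏ j, gp vw c (s j))
    (fun v => ∏ j, ((A * W0) ^ (v j).primeFactors.card * (gp wd c (v j) / v j)))
    (fun u => ∏ j, ((c : ℝ) ^ (u j).primeFactors.card / (u j : ℝ)))
    (fun θ t => r (θ.1.1 + (t : ℤ)))
    (C * C0 * W0 ^ z * Real.exp (c * At))
    (A ^ B' * W0 ^ B' * Real.exp c) K y1 (by omega) (fun y _ => Real.exp_pos _)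
    (fun θ => θ.2.1) (fun θ => by positivity) (fun X0 => ?_) (fun θ t ht => ?_)
    (fun θ t => hr0 _) (by positivity)
    (one_le_mul_of_one_le_of_one_le (one_le_mul_of_one_le_of_one_le
      (one_le_pow₀ hA1') (one_le_pow₀ hW1))
      (Real.one_le_exp (Nat.cast_nonneg _))) hK1
    (fun y s hs => ⟨?_, ?_⟩) (fun y Y _ u hu => ?_) (fun lam hlam => ?_)
    (fun lam hlam => ?_) (fun lam hlam => ?_) ?_
  · -- small scales
    refine ⟨(∑ N ∈ Icc (-((X0 : ℤ) ^ B)) ((X0 : ℤ) ^ B), ∑ t ∈ Icc 1 X0, r (N + (t : ℤ))) *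
      Real.exp (Sp (fun _ => (c : ℝ)) z X0), ?_⟩
    rintro ⟨⟨N, X⟩, hX, hN⟩ hle
    simp only at hX hN hle ⊢
    have hX0 : X ^ B ≤ X0 ^ B := Nat.pow_le_pow_left hle B
    have hmem : N ∈ Icc (-((X0 : ℤ) ^ B)) ((X0 : ℤ) ^ B) := by
      rw [mem_Icc]
      have h1 : (N.natAbs : ℤ) ≤ (X0 : ℤ) ^ B := by exact_mod_cast hN.trans hX0
      omega
    have h1 : ∑ t ∈ (Icc 1 X).filter (fun t : ℕ => D.eval (N + (t : ℤ)) ≠ 0),
        r (N + (t : ℤ)) ≤ ∑ t ∈ Icc 1 X0, r (N + (t : ℤ)) := by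
      refine sum_le_sum_of_subset_of_nonneg ?_ fun t _ _ => hr0 _
      exact (filter_subset _ _).trans (Icc_subset_Icc_right hle)
    have h2 : ∑ t ∈ Icc 1 X0, r (N + (t : ℤ)) ≤
        ∑ N ∈ Icc (-((X0 : ℤ) ^ B)) ((X0 : ℤ) ^ B), ∑ t ∈ Icc 1 X0, r (N + (t : ℤ)) :=
      single_le_sum (f := fun N : ℤ => ∑ t ∈ Icc 1 X0, r (N + (t : ℤ)))
        (fun _ _ => sum_nonneg fun _ _ => hr0 _) hmem
    have h3 : 0 ≤ ∑ N ∈ Icc (-((X0 : ℤ) ^ B)) ((X0 : ℤ) ^ B), ∑ t ∈ Icc 1 X0, r (N + (t : ℤ)) :=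
      sum_nonneg fun _ _ => sum_nonneg fun _ _ => hr0 _
    have h4 : (1 : ℝ) ≤ (X : ℝ) := by exact_mod_cast hX
    have h5 : -Sp e z X ≤ Sp (fun _ => (c : ℝ)) z X0 := by
      unfold Sp
      rw [← sum_neg_distrib]
      refine le_trans (sum_le_sum (g := fun p : ℕ => (c : ℝ) / (p : ℝ)) fun p hp => ?_)
        (sum_le_sum_of_subset_of_nonneg ?_ fun p _ _ => by positivity)
      · have hp' := mem_PS'.1 hp
        rw [← neg_div]
        refine div_le_div_of_nonneg_right ?_ (Nat.cast_nonneg _)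
        have := (abs_le.1 (hec p hp'.2 hp'.1.1)).1
        linarith
      · intro p hp
        have := mem_PS'.1 hp
        exact mem_PS'.2 ⟨⟨this.1.1, this.1.2.trans hle⟩, this.2⟩
    have h6 : (1 : ℝ) ≤ Real.exp (Sp (fun _ => (c : ℝ)) z X0) * Real.exp (Sp e z X) := by
      rw [← Real.exp_add]
      exact Real.one_le_exp (by linarith)
    have h7 : (1 : ℝ) ≤ Real.exp (Sp (fun _ => (c : ℝ)) z X0) * (X * Real.exp (Sp e z X)) := by
      have := mul_le_mul h4 h6 zero_le_one (by linarith : (0 : ℝ) ≤ X)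
      calc (1 : ℝ) = 1 * 1 := by ring
        _ ≤ X * (Real.exp (Sp (fun _ => (c : ℝ)) z X0) * Real.exp (Sp e z X)) := this
        _ = _ := by ring
    rw [mul_assoc]
    exact (h1.trans h2).trans (le_mul_of_one_le_right h3 h7)
  · -- good values
    refine ⟨fun _ => (mem_filter.1 ht).2, fun p hp hzp j l hjl _ => absurd rfl hjl⟩
  · exact mul_nonneg (hG0 s) (prod_nonneg fun j _ => hgvn (Tup_unit hs))
  · exact prod_nonneg fun j _ => mul_nonneg (by positivity)
      (div_nonneg (hgwn (Tup_unit hs)) (Nat.cast_nonneg _))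
  · exact prod_nonneg fun j _ => by positivity
  · -- the first sum
    obtain ⟨A2, hA2⟩ := hrs Unit z c (fun _ => vw) G
      (fun y => C' * Real.exp (Sp (fun p => w p * rho D p) z y)) A lam (by omega)
      (fun _ p => ⟨hvw0 p, hvwc p⟩) hA1' hlam hG0
      (fun y hy s e hse => by
        have h1 := hgrw y hy (s ()) (e ()) (Tup_unit hse)
        simpa [hGdef] using h1)
      (fun y hy => by
        have h1 := hC' y hy
        simpa [hGdef, hgv] using h1)
    refine ⟨A2 * C', fun y hy => ?_⟩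
    have := hA2 y hy
    rw [mul_assoc]
    exact this
  · exact hrv Unit z c (fun _ => wd) (A * W0) lam (by omega)
      (fun _ p => ⟨hwd0 p, hwdc p⟩) hA1 hlam
  · exact hru Unit (c : ℝ) lam (by exact_mod_cast hc1) hlam
  -- the local majorant
  rintro ⟨⟨N, X⟩, hX1, hN⟩ y Y k hy0 hzy hyK hk s hs v hv u hu h8 T' hT' hval
  simp only at hX1 hN hyK hk h8 hT' hval ⊢
  have hy00 : y0 ≤ y := by omega
  have hyX : y ≤ X := le_trans (Nat.le_self_pow (by omega) y) hyK
  set g : Finset ℕ → ℝ := fun E => F (s ()) E with hg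
  have hg0 : ∀ E, 0 ≤ g E := fun E => hF0 _ _
  set Pw : ℝ := ∏ p ∈ (s ()).primeFactors, w p with hPw
  have hPw0 : 0 ≤ Pw := prod_nonneg fun p _ => hv0 p
  set V : ℝ := W0 ^ z * (W0 ^ B') ^ k * W0 ^ (v ()).primeFactors.card * Pw with hV
  have hV0 : 0 ≤ V := by positivity
  have h1 : ∀ t ∈ T', r (N + (t : ℤ)) ≤
      V * (C0 * (A ^ B') ^ k *
        A ^ (v ()).primeFactors.card * g (ngs (D.eval (N + (t : ℤ))) (s ()))) := by
    intro t ht
    have htT := hT' ht
    rw [mem_filter] at htT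
    obtain ⟨ht1, ht0⟩ := htT
    obtain ⟨hts, htv, _⟩ := hval t ht
    have hsize : (D.eval (N + (t : ℤ))).natAbs ≤ X ^ B' := by
      have e2 : t ≤ X := (mem_Icc.1 ht1).2
      have e5 : X ^ B ≤ X ^ (B + 1) := Nat.pow_le_pow_right hX1 (by omega)
      have e6 : X ≤ X ^ (B + 1) := Nat.le_self_pow (by omega) X
      have e7 : 1 ≤ X ^ (B + 1) := Nat.one_le_pow _ _ hX1
      have e8 : (N + (t : ℤ)).natAbs ≤ X ^ (B + 2) := by
        calc (N + (t : ℤ)).natAbs ≤ N.natAbs + t :=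
              (Int.natAbs_add_le _ _).trans (by rw [Int.natAbs_natCast])
          _ ≤ X ^ (B + 1) + X ^ (B + 1) := Nat.add_le_add (hN.trans e5) (e2.trans e6)
          _ = 2 * X ^ (B + 1) := by ring
          _ ≤ X * X ^ (B + 1) := Nat.mul_le_mul_right _ (by omega)
          _ = X ^ (B + 2) := by ring
      calc (D.eval (N + (t : ℤ))).natAbs ≤ Kd * (X ^ (B + 2)) ^ D.natDegree :=
            hKd _ _ (Nat.one_le_pow _ _ hX1) e8
        _ ≤ X * (X ^ (B + 2)) ^ D.natDegree := Nat.mul_le_mul_right _ (by omega)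
        _ = X ^ B' := by rw [hB', ← pow_mul]; ring
    have hr := hrkb y X k B' (D.eval (N + (t : ℤ))) ht0 hsize hX1 (by omega) hk
    have hF := Fw_le (z1 := z1) hv0 hvW hW1 ht0 hsize hk (by omega : z1 ≤ z)
    have es1 : S1 z y (fun _ : Unit => D.eval (N + (t : ℤ))) = s := hts
    have es2 : S2 z y (fun _ : Unit => D.eval (N + (t : ℤ))) = v := htv
    rw [es1, es2] at hr hF
    exact mul_le_mul hF hr (hR0 _) hV0
  have hneg : ∀ t ∈ T', ngs (D.eval (N + (t : ℤ))) (s ()) ∈ (s ()).primeFactors.powerset := by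
    intro t _
    rw [mem_powerset]
    exact filter_subset _ _
  have h2 : ∑ t ∈ T', g (ngs (D.eval (N + (t : ℤ))) (s ())) =
      ∑ E ∈ (s ()).primeFactors.powerset,
        ((T'.filter (fun t : ℕ => ngs (D.eval (N + (t : ℤ))) (s ()) = E)).card : ℝ) * g E := by
    rw [← sum_fiberwise_of_maps_to hneg]
    refine sum_congr rfl fun E _ => ?_
    rw [← nsmul_eq_mul, ← sum_const]
    refine sum_congr rfl fun t ht => ?_
    rw [(mem_filter.1 ht).2]
  set SX : ℝ := Real.exp (Sp e z X) with hSX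
  set SH : ℝ := Real.exp (Sp (fun p => w p * rho D p) z y) with hSH
  have hexp : Real.exp (-Sp (fun p => (rho D p : ℝ)) z y) ≤
      Real.exp (c * At) * (Real.exp c) ^ k * SX / SH := by
    rw [hSX, hSH, div_eq_mul_inv, ← Real.exp_neg, ← Real.exp_nat_mul, ← Real.exp_add,
      ← Real.exp_add, ← Real.exp_add]
    apply Real.exp_le_exp.2
    have h3 := Sp_signed hec hzy hyX (hAt y X k hzy hk)
    rw [hSe] at h3
    linarith
  set Q : ℝ := C * X * (1 / 2) ^ (s ()).primeFactors.card * gp (fun p => rho D p) c (s ()) *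
        (gp (fun p => rho D p) c (v ()) / v ()) * ((c : ℝ) ^ (u ()).primeFactors.card / u ()) *
        (Real.exp (c * At) * (Real.exp c) ^ k * SX / SH) with hQ
  have h8' : (s () * v () * u ()) ^ 8 ≤ X := by simpa using h8
  have hden : ∀ {d : ℕ}, d ∣ PP z y → 0 ≤ gp (fun p => rho D p) c d := fun hd =>
    gp_nonneg (fun _ => Nat.cast_nonneg _) hcz hd
  have h3 : ∀ E ∈ (s ()).primeFactors.powerset,
      ((T'.filter (fun t : ℕ => ngs (D.eval (N + (t : ℤ))) (s ()) = E)).card : ℝ) * g E ≤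
        Q * g E := by
    intro E _
    refine mul_le_mul_of_nonneg_right ?_ (hg0 E)
    refine le_trans ?_ ((hcn D hG N X y Y hy00 hzy hyK (s ()) (v ()) (u ()) (Tup_unit hs)
      (Tup_unit hv) (Tup_unit hu) h8' E).trans ?_)
    · have h4 : T'.filter (fun t : ℕ => ngs (D.eval (N + (t : ℤ))) (s ()) = E) ⊆
          (Icc 1 X).filter (fun t : ℕ =>
            S1 z y (fun _ : Unit => D.eval (N + (t : ℤ))) () = s () ∧
            S2 z y (fun _ : Unit => D.eval (N + (t : ℤ))) () = v () ∧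
            ((u () : ℕ) : ℤ) ∣ D.eval (N + (t : ℤ)) ∧ ngs (D.eval (N + (t : ℤ))) (s ()) = E) := by
        intro t ht
        rw [mem_filter] at ht
        rw [mem_filter]
        obtain ⟨ht', htE⟩ := ht
        obtain ⟨hts, htv, htu⟩ := hval t ht'
        exact ⟨(mem_filter.1 (hT' ht')).1, congrFun hts (), congrFun htv (), htu (), htE⟩
      exact_mod_cast card_le_card h4
    · rw [hQ]
      have n1 := hden (Tup_unit hs)
      have n2 := hden (Tup_unit hv)
      exact mul_le_mul_of_nonneg_left hexp (by positivity)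
  calc ∑ t ∈ T', r (N + (t : ℤ))
      ≤ ∑ t ∈ T', V * (C0 * (A ^ B') ^ k *
        A ^ (v ()).primeFactors.card * g (ngs (D.eval (N + (t : ℤ))) (s ()))) :=
        sum_le_sum h1
    _ = V * (C0 * (A ^ B') ^ k * A ^ (v ()).primeFactors.card) *
          ∑ E ∈ (s ()).primeFactors.powerset,
            ((T'.filter (fun t : ℕ => ngs (D.eval (N + (t : ℤ))) (s ()) = E)).card : ℝ) * g E := by
        rw [← h2, mul_sum]
        refine sum_congr rfl fun t _ => ?_
        ring
    _ ≤ V * (C0 * (A ^ B') ^ k * A ^ (v ()).primeFactors.card) *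
          ∑ E ∈ (s ()).primeFactors.powerset, Q * g E :=
        mul_le_mul_of_nonneg_left (sum_le_sum h3) (by positivity)
    _ = _ := by
        have e1 : G s = (1 / 2) ^ (s ()).primeFactors.card *
            ∑ E ∈ (s ()).primeFactors.powerset, g E := by
          rw [hGdef]
          rfl
        have e3 : gp vw c (s ()) = Pw * gp (fun p => rho D p) c (s ()) := by
          rw [hgvw, hgw, gp_rz D (Tup_unit hs)]
        have e4 : gp wd c (v ()) = gp (fun p => rho D p) c (v ()) := by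
          rw [hgw, gp_rz D (Tup_unit hv)]
        have e5 : ∀ F : Unit → ℝ, ∏ j, F j = F () := fun F => by simp
        rw [← mul_sum, e5, e5, e5, e1, e3, e4, hQ, hV]
        simp only [mul_pow]
        ring

/-- TJ-GAW -/
theorem gavw : S_GAVW :=
  gavw_of (CNTPf.cntp_of SVPf.svp) antx RSPf.rsp RVU.rvp RVU.rup GDPf.gdp

end Pool.Agent.TH344.TJ
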