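import Mathlib
import Pool.Agent.TH344.TJ.Stm
import Pool.Agent.TH344.JG.MW

/-! Project TJ: elementary properties of the orders of the Selmer groups, and the assembly. -/

set_option autoImplicit false

namespace Pool.Agent.TH344.TJ

open Finset Polynomial Pool.Agent.W262.RK Pool.Agent.W307.RT Pool.Agent.W307.RS
open Pool.Agent.TH841.PT Pool.Agent.TH344.JG

open Pool.Agent.H474R2.PG (rho)

/-! ### Scaling -/

lemma Elm.locj_scale {K : Type} [Field K] {n : ℕ} (a b d : Fin n → ℤ) (c : K) (hc : c ≠ 0)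
    (hb : ∀ i, ((b i : ℤ) : K) = c ^ 2 * ((a i : ℤ) : K)) (h : LocJ K a d) : LocJ K b d := by
  obtain ⟨u, v, h1, h2, h3⟩ := h
  have hc2 : (c ^ 2)⁻¹ ≠ 0 := inv_ne_zero (pow_ne_zero 2 hc)
  set L : Polynomial K := C (c ^ 2)⁻¹ * X with hL
  have hdL : L.natDegree = 1 := natDegree_C_mul_X _ hc2
  have hlL : L.leadingCoeff = (c ^ 2)⁻¹ := by
    rw [hL, leadingCoeff_mul, leadingCoeff_C, leadingCoeff_X, mul_one]
  have hcn : ∀ k : ℕ, c ^ k ≠ 0 := fun k => pow_ne_zero k hc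
  have hdeg : (C ((c ^ 2) ^ u.natDegree) * u.comp L).natDegree = u.natDegree := by
    rw [natDegree_C_mul (pow_ne_zero _ (hcn 2)), natDegree_comp, hdL, mul_one]
  refine ⟨C ((c ^ 2) ^ u.natDegree) * u.comp L, C (c ^ n) * v.comp L, ?_, ?_, fun i => ?_⟩
  · unfold Monic
    rw [leadingCoeff_mul, leadingCoeff_C, leadingCoeff_comp (by rw [hdL]; exact one_ne_zero), hlL,
      h1.leadingCoeff, one_mul, ← mul_pow, mul_inv_cancel₀ (hcn 2), one_pow]
  · have h4 : (∏ i, (X - C ((b i : ℤ) : K))) - (C (c ^ n) * v.comp L) ^ 2 =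
        C ((c ^ 2) ^ n) * ((∏ i, (X - C ((a i : ℤ) : K))) - v ^ 2).comp L := by
      rw [sub_comp, Polynomial.prod_comp, pow_comp]
      have h5 : ∀ i, (X - C ((b i : ℤ) : K)) = C (c ^ 2) * (X - C ((a i : ℤ) : K)).comp L := by
        intro i
        rw [sub_comp, X_comp, C_comp, hb, hL, mul_sub, ← mul_assoc, ← C_mul, ← C_mul,
          mul_inv_cancel₀ (hcn 2), C_1, one_mul]
      simp only [h5]
      rw [Finset.prod_mul_distrib, Finset.prod_const, Finset.card_univ, Fintype.card_fin]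
      simp only [C_pow]
      ring
    rw [h4]
    obtain ⟨q, hq⟩ := h2
    rw [hq, mul_comp]
    refine ⟨C ((c ^ 2) ^ n) * C (((c ^ 2) ^ u.natDegree)⁻¹) * q.comp L, ?_⟩
    have h6 : C ((c ^ 2) ^ u.natDegree) * C (((c ^ 2) ^ u.natDegree)⁻¹) = (1 : Polynomial K) := by
      rw [← C_mul, mul_inv_cancel₀ (pow_ne_zero _ (hcn 2)), C_1]
    linear_combination (-(C ((c ^ 2) ^ n) * u.comp L * q.comp L)) * h6
  · have h7 : (C ((c ^ 2) ^ u.natDegree) * u.comp L).eval ((b i : ℤ) : K) =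
        (c ^ 2) ^ u.natDegree * u.eval ((a i : ℤ) : K) := by
      rw [eval_mul, eval_C, eval_comp, hL, eval_mul, eval_C, eval_X, hb, ← mul_assoc,
        inv_mul_cancel₀ (hcn 2), one_mul]
    rw [h7, hdeg]
    obtain ⟨h8, r, h9⟩ := h3 i
    refine ⟨mul_ne_zero (pow_ne_zero _ (hcn 2)) h8, c ^ u.natDegree * r, ?_⟩
    linear_combination (c ^ u.natDegree) ^ 2 * h9

theorem locj_sq {K : Type} [Field K] [CharZero K] {n : ℕ} (a d : Fin n → ℤ) (w : ℤ) (hw : w ≠ 0) :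
    LocJ K (fun i => w ^ 2 * a i) d ↔ LocJ K a d := by
  have hw' : ((w : ℤ) : K) ≠ 0 := Int.cast_ne_zero.2 hw
  constructor
  · refine Elm.locj_scale _ _ d (((w : ℤ) : K))⁻¹ (inv_ne_zero hw') fun i => ?_
    push_cast
    field_simp
  · refine Elm.locj_scale _ _ d ((w : ℤ) : K) hw' fun i => ?_
    push_cast
    ring

lemma Elm.sel_sq {n : ℕ} (a : Fin n → ℤ) (w : ℤ) (hw : w ≠ 0) :
    SelJ (fun i => w ^ 2 * a i) = SelJ a := by
  ext d
  unfold SelJ
  simp only [Set.mem_ofPred_eq, locj_sq a d w hw]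

/-! ### Elementary properties -/

lemma Elm.NT_one {m : ℕ} (a : Fin (m + 1) → ℤ) (E : Finset ℕ) : NT a 1 E ≤ 1 := by
  unfold NT
  refine (card_filter_le _ _).trans ?_
  rw [Fintype.card_piFinset]
  simp

lemma Elm.sel_fin (h : S_SELT) {m : ℕ} (hm : 2 ≤ m) (he : Even m) (a : Fin (m + 1) → ℤ)
    (ha : Function.Injective a) (d : ℤ) (hd : d ≠ 0) :
    (SelJ (fun i => d * a i)).Finite ∧ (SelJ (fun i => d * a i)).ncard ≤
      (2 ^ (m + 1)) ^ (1 + (2 * d.natAbs * ∏ c : PR (m + 1), (df a c).natAbs).primeFactors.card) := by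
  have h1 := h m a d 1 hm he ha hd squarefree_one (fun p hp hp1 =>
    absurd (Nat.dvd_one.1 hp1) hp.one_lt.ne')
  refine ⟨h1.1, h1.2.trans ?_⟩
  refine (Nat.mul_le_mul_left _ (Elm.NT_one a _)).trans ?_
  rw [mul_one]
  refine Nat.pow_le_pow_right (by positivity) ?_
  have := card_filter_le (2 * d.natAbs * ∏ c : PR (m + 1), (df a c).natAbs).primeFactors
    (fun q => ¬ q ∣ 1)
  omega

theorem elm_of (h : S_SELT) {m : ℕ} (hm : 2 ≤ m) (he : Even m) (a : Fin (m + 1) → ℤ)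
    (ha : Function.Injective a) : ELM (RJ a) := by
  refine ⟨fun d => Nat.cast_nonneg _, fun d hd => ?_, fun d w hd hw => ?_, ?_⟩
  · have h1 := (Elm.sel_fin h hm he a ha d hd).1
    have h2 : (fun _ : Fin (m + 1) => (1 : ℤ)) ∈ SelJ (fun i => d * a i) :=
      ⟨fun _ => squarefree_one, LocJ_one _ _, fun p _ => LocJ_one _ _⟩
    have h3 : 0 < (SelJ (fun i => d * a i)).ncard := (Set.ncard_pos h1).2 ⟨_, h2⟩
    unfold RJ
    exact_mod_cast h3
  · have h1 : (fun i => d * w ^ 2 * a i) = fun i => w ^ 2 * (d * a i) := by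
      funext i
      ring
    unfold RJ
    rw [h1, Elm.sel_sq (fun i => d * a i) w hw]
  · refine ⟨2 ^ (m + 1), 1 + (2 * ∏ c : PR (m + 1), (df a c).natAbs).primeFactors.card,
      one_le_pow₀ one_le_two, fun d hd => ?_⟩
    have h1 := (Elm.sel_fin h hm he a ha d hd).2
    have h2 : (2 * d.natAbs * ∏ c : PR (m + 1), (df a c).natAbs).primeFactors.card ≤
        d.natAbs.primeFactors.card +
          (2 * ∏ c : PR (m + 1), (df a c).natAbs).primeFactors.card := by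
      refine (card_le_card ?_).trans (card_union_le _ _)
      intro p hp
      obtain ⟨hp1, hp2, hp3⟩ := Nat.mem_primeFactors.1 hp
      rw [mem_union]
      have hp4 : p ∣ d.natAbs * (2 * ∏ c : PR (m + 1), (df a c).natAbs) := by
        convert hp2 using 1
        ring
      rcases (hp1.dvd_mul).1 hp4 with h5 | h5
      · exact Or.inl (Nat.mem_primeFactors.2 ⟨hp1, h5, by positivity⟩)
      · refine Or.inr (Nat.mem_primeFactors.2 ⟨hp1, h5, ?_⟩)
        intro h6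
        apply hp3
        have : 2 * d.natAbs * ∏ c : PR (m + 1), (df a c).natAbs =
          d.natAbs * (2 * ∏ c : PR (m + 1), (df a c).natAbs) := by ring
        rw [this, h6, mul_zero]
    have h3 : (SelJ (fun i => d * a i)).ncard ≤ (2 ^ (m + 1)) ^ (d.natAbs.primeFactors.card +
        (1 + (2 * ∏ c : PR (m + 1), (df a c).natAbs).primeFactors.card)) :=
      h1.trans (Nat.pow_le_pow_right (by positivity) (by omega))
    unfold RJ
    exact_mod_cast h3

/-! ### Assembly -/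

lemma Elm.kit_of (h1 : S_RNKT) (h2 : S_SUBT) {m : ℕ} (hm : 2 ≤ m)
    (he : Even m) (a : Fin (m + 1) → ℤ) (ha : Function.Injective a) (k : ℕ) :
    KIT (fun d => RJ a d ^ k) (NTk k a) := by
  refine ⟨fun d => pow_nonneg (Nat.cast_nonneg _) _, fun s E => pow_nonneg (Nat.cast_nonneg _) _,
    (2 ^ (m + 1)) ^ k, one_le_pow₀ (one_le_pow₀ one_le_two), ?_⟩
  obtain ⟨z1, hz1⟩ := h1 m k a hm he ha
  obtain ⟨z2, hz2⟩ := h2 m k a ha
  exact ⟨z1 + z2, fun z hz => ⟨hz1 z (by omega), hz2 z (by omega)⟩⟩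

lemma Elm.four_pow {m k : ℕ} (hm : 2 ≤ m) : 4 ^ k ≤ 2 ^ (m * k) := by
  have : (4 : ℕ) ^ k = 2 ^ (2 * k) := by
    rw [pow_mul]
    norm_num
  rw [this]
  exact Nat.pow_le_pow_right (by norm_num) (Nat.mul_le_mul_right _ hm)

theorem avr_of (h1 : S_RNKT) (h2 : S_SUBT) (h3 : S_MAKT) (h4 : S_GAVH) {m : ℕ} (hm : 2 ≤ m)
    (he : Even m) (a : Fin (m + 1) → ℤ) (ha : Function.Injective a) : AVR (RJ a) := by
  intro D G H k0 B hsq hD hk zH hH
  have hsqD : Squarefree (D.map (Int.castRingHom ℚ)) := by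
    refine hsq.squarefree_of_dvd ?_
    rw [Polynomial.map_mul]
    exact dvd_mul_right _ _
  have hDG : D * G ≠ 0 := by
    intro h0
    rw [h0, Polynomial.map_zero] at hsq
    exact not_squarefree_zero hsq
  have hG : G ≠ 0 := right_ne_zero_of_mul hDG
  have hD0 : D ≠ 0 := left_ne_zero_of_mul hDG
  have hle : D.natDegree ≤ (D * G).natDegree := by
    rw [natDegree_mul hD0 hG]
    omega
  refine h4 (fun d => RJ a d ^ k0) (NTk k0 a) (Elm.kit_of h1 h2 hm he a ha k0) D G H B hsq hD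
    (h3 m k0 a hm ha D hsqD hD (D * G).natDegree 1 one_pos ?_ (hk.trans (Elm.four_pow hm))) zH hH
  rw [one_mul]
  exact_mod_cast hle

lemma Elm.mav_g {F : ℕ → Finset ℕ → ℝ} {D g : ℤ[X]} {w : ℕ → ℝ} {lam : ℝ} {z2 c : ℕ}
    (hw : ∀ p : ℕ, p.Prime → z2 < p → w p * rho D p = lam * rho g p)
    (h : MAV F g (fun _ => lam) c) : MAV F D w c := by
  obtain ⟨zm, hzm⟩ := h
  refine ⟨zm + z2, fun z hz => ?_⟩
  obtain ⟨C', hC'⟩ := hzm z (by omega)
  refine ⟨C', fun y hy => ?_⟩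
  have h2 := hC' y hy
  have e1 : Sp (fun p => w p * rho D p) z y = Sp (fun p => lam * rho g p) z y := by
    unfold Sp
    refine sum_congr rfl fun p hp => ?_
    have hp' := mem_PS'.1 hp
    beta_reduce
    rw [hw p hp'.2 (by omega)]
  rw [e1]
  refine le_trans (le_of_eq ?_) h2
  refine sum_congr rfl fun s hs => ?_
  congr 1
  unfold gp
  refine prod_congr rfl fun p hp => ?_
  have hpp := Nat.prime_of_mem_primeFactors hp
  have hpz : z < p := prime_gt (Tup_unit hs) hp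
  unfold rz
  beta_reduce
  rw [if_pos hpz, if_pos hpz, hw p hpp (by omega)]

theorem awr_of (h1 : S_RNKT) (h2 : S_SUBT) (h3 : S_MAKT) (h4 : S_GAVW) {m : ℕ} (hm : 2 ≤ m)
    (he : Even m) (a : Fin (m + 1) → ℤ) (ha : Function.Injective a) : AWR (RJ a) := by
  intro D g k0 B hsqD hD hsqg hg w lam W0 z1 z2 c hw0 hwW hW0 hWc hlam hlc hk hw
  exact h4 (fun d => RJ a d ^ k0) (NTk k0 a) (Elm.kit_of h1 h2 hm he a ha k0) D B hsqD hD w W0 z1 c
    hw0 hwW hW0 hWc (Elm.mav_g hw (h3 m k0 a hm ha g hsqg hg c lam hlam hlc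
      (hk.trans (Elm.four_pow hm))))

end Pool.Agent.TH344.TJ
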