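import Pool.Agent.TH344.TJ.Stm
import Pool.Agent.TH344.JG.Exp
import Pool.Agent.TH841.PT.ExpG

/-!
# Project TJ: expansion of the moments of the local count into symbols (`S_EXPT`)
-/

set_option autoImplicit false

namespace Pool.Agent.TH344.TJ

open Finset Pool.Agent.W262.RK Pool.Agent.W108.RK Pool.Agent.W762.RK2
open Pool.Agent.TH841.PT

namespace ET

open Pool.Agent.TH344.JG.EX (Ts_mono Ts_inj Jr_sq loc1)

variable {z y k m : ℕ}

/-- a bit -/
def bt (b : Fin k) (j : Fin m) (x : Option (Fin k → Fin m → Bool)) : Bool :=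
  x.elim false fun r => r b j

/-- the sets of the primes with the bits -/
def Wt (ξ : Pr z y → Option (Fin k → Fin m → Bool)) (b : Fin k) (j : Fin m) : Finset ℕ :=
  Ts fun p => bt b j (ξ p)

/-- the tuple -/
def ST (ξ : Pr z y → Option (Fin k → Fin m → Bool)) : Unit → ℕ :=
  Dl fun p => (ξ p).map fun _ => ()

lemma ST_eq (ξ : Pr z y → Option (Fin k → Fin m → Bool)) :
    ST ξ () = nb fun p => (ξ p).isSome := by
  unfold ST Dl
  congr 1
  funext p
  show decide ((ξ p).map (fun _ => ()) = some ()) = (ξ p).isSome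
  cases ξ p <;> rfl

lemma Wt_sub (ξ : Pr z y → Option (Fin k → Fin m → Bool)) (b : Fin k) (j : Fin m) :
    Wt ξ b j ⊆ (ST ξ ()).primeFactors := by
  rw [ST_eq, nb_pf]
  apply Ts_mono
  intro p hp
  cases h : ξ p with
  | none => rw [h] at hp; exact absurd hp (by simp [bt])
  | some r => rfl

lemma sum_bigT (F : (Unit → ℕ) → (Fin k → Fin m → Finset ℕ) → ℝ) :
    ∑ s ∈ Tup Unit z y, ∑ W ∈ Fintype.piFinset (fun _ : Fin k => Fintype.piFinset
      (fun _ : Fin m => (s ()).primeFactors.powerset)), F s W =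
      ∑ ξ : Pr z y → Option (Fin k → Fin m → Bool), F (ST ξ) (Wt ξ) := by
  rw [Finset.sum_sigma']
  symm
  refine Finset.sum_bij (fun ξ _ => ⟨ST ξ, Wt ξ⟩) ?_ ?_ ?_ (fun _ _ => rfl)
  · intro ξ _
    rw [Finset.mem_sigma, Fintype.mem_piFinset]
    exact ⟨Dl_mem _, fun b => Fintype.mem_piFinset.2 fun j =>
      Finset.mem_powerset.2 (Wt_sub ξ b j)⟩
  · intro ξ _ ξ' _ h
    have h1 : ST ξ = ST ξ' := congrArg Sigma.fst h
    have h2 : Wt ξ = Wt ξ' := congrArg Sigma.snd h
    funext p
    have e1 : (ξ p).map (fun _ => ()) = (ξ' p).map (fun _ => ()) := congrFun (Dl_inj h1) p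
    have e2 : ∀ b j, bt b j (ξ p) = bt b j (ξ' p) := fun b j =>
      congrFun (Ts_inj (congrFun (congrFun h2 b) j)) p
    cases hx : ξ p with
    | none =>
      cases hx' : ξ' p with
      | none => rfl
      | some a' => rw [hx, hx'] at e1; exact absurd e1 (by simp)
    | some a =>
      cases hx' : ξ' p with
      | none => rw [hx, hx'] at e1; exact absurd e1 (by simp)
      | some a' =>
        have e5 : a = a' := by
          funext b j
          have e6 := e2 b j
          rw [hx, hx'] at e6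
          exact e6
        rw [e5]
  · rintro ⟨s, W⟩ hs
    rw [Finset.mem_sigma, Fintype.mem_piFinset] at hs
    obtain ⟨hs, hw⟩ := hs
    have hw' : ∀ b j, W b j ⊆ (s ()).primeFactors := fun b j =>
      Finset.mem_powerset.1 (Fintype.mem_piFinset.1 (hw b) j)
    simp only at hs
    have hprod : s () = nb fun p : Pr z y => decide (lab s p = some ()) := by
      conv_lhs => rw [← Dl_lab hs]
      rfl
    refine ⟨fun p => (lab s p).map fun _ => fun b j => decide ((p : ℕ) ∈ W b j),
      Finset.mem_univ _, ?_⟩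
    have e1 : ST (fun p : Pr z y => (lab s p).map fun _ => fun (b : Fin k) (j : Fin m) =>
        decide ((p : ℕ) ∈ W b j)) = s := by
      unfold ST
      conv_rhs => rw [← Dl_lab hs]
      congr 1
      funext p
      show ((lab s p).map fun _ => fun (b : Fin k) (j : Fin m) =>
        decide ((p : ℕ) ∈ W b j)).map (fun _ => ()) = _
      cases lab s p <;> rfl
    have e2 : Wt (fun p : Pr z y => (lab s p).map fun _ => fun (b : Fin k) (j : Fin m) =>
        decide ((p : ℕ) ∈ W b j)) = W := by
      funext b j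
      ext q
      constructor
      · intro hq
        unfold Wt Ts at hq
        rw [Finset.mem_map] at hq
        obtain ⟨p, hp, hpq⟩ := hq
        have hp2 := (Finset.mem_filter.1 hp).2
        have hpq' : (p : ℕ) = q := hpq
        rw [← hpq']
        cases hl : lab s p with
        | none => simp [hl, bt] at hp2
        | some j =>
          simp only [hl, bt, Option.map_some, Option.elim, decide_eq_true_eq] at hp2
          exact hp2
      · intro hq
        have hq2 := hw' b j hq
        rw [hprod, nb_pf] at hq2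
        unfold Ts at hq2
        rw [Finset.mem_map] at hq2
        obtain ⟨p, hp, hpq⟩ := hq2
        have hp2 : lab s p = some () := of_decide_eq_true (Finset.mem_filter.1 hp).2
        have hpq' : (p : ℕ) = q := hpq
        rw [← hpq'] at hq ⊢
        unfold Wt
        rw [mem_Ts]
        show bt b j ((lab s p).map fun _ => fun (b : Fin k) (j : Fin m) =>
          decide ((p : ℕ) ∈ W b j)) = true
        rw [hp2]
        simp [bt, hq]
    rw [e1, e2]

/-- the local condition -/
def Cd (a : Fin (m + 1) → ℤ) (w : Fin m → Finset ℕ) (e : Bool) (p : ℕ) : Prop :=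
  ∀ j : Fin m, (∏ q ∈ (w j).erase p, jacobiSym ((q : ℕ) : ℤ) p) *
    jacobiSym (cT a (fun l => decide (p ∈ w l)) j) p = if p ∈ w j ∧ e = true then -1 else 1

lemma FA_eq (a : Fin (m + 1) → ℤ) (s : ℕ) :
    FA (NTk k a) s = ∑ W ∈ Fintype.piFinset (fun _ : Fin k => Fintype.piFinset
      (fun _ : Fin m => s.primeFactors.powerset)),
      ∏ p ∈ s.primeFactors, ((∏ b, ind (Cd a (W b) true p)) +
        ∏ b, ind (Cd a (W b) false p)) / 2 := by
  classical
  have h0 : ∀ E : Finset ℕ, (NT a s E : ℝ) =
      ∑ w ∈ Fintype.piFinset (fun _ : Fin m => s.primeFactors.powerset),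
        ∏ p ∈ s.primeFactors, ind (Cd a w (decide (p ∈ E)) p) := by
    intro E
    unfold NT
    rw [Finset.card_filter]
    push_cast
    refine Finset.sum_congr rfl fun w _ => ?_
    rw [prod_ind]
    unfold ind
    congr 1
    apply propext
    unfold Cd
    simp only [decide_eq_true_eq]
  have h1 : ∀ E : Finset ℕ, NTk k a s E =
      ∑ W ∈ Fintype.piFinset (fun _ : Fin k => Fintype.piFinset
        (fun _ : Fin m => s.primeFactors.powerset)),
        ∏ p ∈ s.primeFactors, ∏ b, ind (Cd a (W b) (decide (p ∈ E)) p) := by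
    intro E
    have h2 : NTk k a s E = ∏ _b : Fin k, (NT a s E : ℝ) := by
      rw [Finset.prod_const, Finset.card_univ, Fintype.card_fin]
      rfl
    rw [h2, Finset.prod_congr rfl fun b _ => h0 E, Finset.prod_univ_sum]
    refine Finset.sum_congr rfl fun d _ => ?_
    rw [Finset.prod_comm]
  unfold FA
  rw [Finset.sum_congr rfl fun E _ => h1 E, Finset.sum_comm, Finset.mul_sum]
  refine Finset.sum_congr rfl fun W _ => ?_
  refine avg s.primeFactors s.primeFactors (Finset.Subset.refl _)
    (fun e p => ∏ b, ind (Cd a (W b) e p)) ?_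
  intro p hp hpA
  exact absurd hp hpA

/-- the product of the symbols -/
noncomputable def SS (ξ : Pr z y → Option (Fin k → Fin m → Bool)) (b : Fin k) (j : Fin m)
    (p : Pr z y) : ℝ :=
  ∏ q : Pr z y, if bt b j (ξ q) = true ∧ q ≠ p then Jr (q : ℕ) p else 1

lemma cast_prod (ξ : Pr z y → Option (Fin k → Fin m → Bool)) (b : Fin k) (j : Fin m)
    (p : Pr z y) :
    ((∏ q ∈ (Wt ξ b j).erase (p : ℕ), jacobiSym ((q : ℕ) : ℤ) (p : ℕ) : ℤ) : ℝ) =
      SS ξ b j p := by
  rw [← Finset.filter_ne', Finset.prod_filter]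
  unfold Wt Ts SS
  rw [Finset.prod_map, Finset.prod_filter]
  push_cast
  refine Finset.prod_congr rfl fun q _ => ?_
  have h1 : ((Function.Embedding.subtype _) q : ℕ) ≠ (p : ℕ) ↔ q ≠ p := by
    show (q : ℕ) ≠ (p : ℕ) ↔ q ≠ p
    exact not_congr Subtype.ext_iff.symm
  by_cases hb : bt b j (ξ q) = true
  · by_cases hc : q ≠ p
    · rw [if_pos hb, if_pos (h1.2 hc), if_pos ⟨hb, hc⟩]
      rfl
    · rw [if_pos hb, if_neg (fun h => hc (h1.1 h)), if_neg (fun h => hc h.2)]
  · rw [if_neg hb, if_neg (fun h => hb h.1)]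

lemma ind_all {T : Type} [Fintype T] (P : T → Prop) : (∏ t, ind (P t)) = ind (∀ t, P t) := by
  classical
  by_cases h : ∀ t, P t
  · unfold ind
    rw [if_pos h]
    exact Finset.prod_eq_one fun t _ => if_pos (h t)
  · obtain ⟨t, ht⟩ := not_forall.1 h
    unfold ind
    rw [if_neg h]
    exact Finset.prod_eq_zero (Finset.mem_univ t) (if_neg ht)

lemma Cd_eval (a : Fin (m + 1) → ℤ) (ξ : Pr z y → Option (Fin k → Fin m → Bool)) (b : Fin k)
    (e : Bool) (p : Pr z y) (v : Fin k → Fin m → Bool) (hx : ξ p = some v) :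
    ind (Cd a (Wt ξ b) e p) = ∏ j : Fin m,
      ind (SS ξ b j p * Jr (cT a (v b) j) p = if (v b j && e) = true then (-1 : ℝ) else 1) := by
  rw [ind_all]
  congr 1
  apply propext
  unfold Cd
  have h2 : ∀ j, (p : ℕ) ∈ Wt ξ b j ↔ v b j = true := by
    intro j
    unfold Wt
    rw [mem_Ts, hx]
    rfl
  have h3 : (fun l => decide ((p : ℕ) ∈ Wt ξ b l)) = v b := by
    funext l
    rw [Bool.eq_iff_iff, decide_eq_true_iff]
    exact h2 l
  rw [h3]
  simp only [h2]
  refine forall_congr' fun j => ?_
  rw [← cast_prod, ← Int.cast_inj (α := ℝ)]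
  have h4 : (((if v b j = true ∧ e = true then -1 else 1 : ℤ)) : ℝ) =
      if (v b j && e) = true then (-1 : ℝ) else 1 := by
    cases v b j <;> cases e <;> simp
  rw [h4]
  push_cast
  unfold Jr
  exact Iff.rfl

/-! ### the local identity -/

lemma prod_parT {T : Type} [Fintype T] (r : ℝ) (hr : r * r = 1) (u x : T → Bool) :
    (∏ t, if (u t && x t) = true then r else 1) =
      if (univ.filter (fun t => (u t && x t) = true)).card % 2 = 1 then r else 1 := by
  rw [← Finset.prod_filter, Finset.prod_const]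
  generalize (univ.filter (fun t => (u t && x t) = true)).card = n
  conv_lhs => rw [← Nat.div_add_mod n 2]
  rw [pow_add, pow_mul, pow_two, hr, one_pow, one_mul]
  rcases Nat.mod_two_eq_zero_or_one n with h | h <;> simp [h]

lemma locT {T : Type} [Fintype T] [DecidableEq T] (S : T → ℝ) (hS : ∀ t, S t = 1 ∨ S t = -1)
    (u : T → Bool) :
    ((∏ t, ind (S t = if (u t && true) = true then (-1 : ℝ) else 1)) +
      ∏ t, ind (S t = if (u t && false) = true then (-1 : ℝ) else 1)) / 2 =
      ∑ x : T → Bool, if (univ.filter (fun t => (u t && x t) = true)).card % 2 = 0 then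
        1 / 2 ^ Fintype.card T * ∏ t, (if x t = true then S t else 1) else 0 := by
  have h1 : ∀ e, ∏ t, ind (S t = if (u t && e) = true then (-1 : ℝ) else 1) =
      ∑ x : T → Bool, (if (univ.filter (fun t => (u t && x t) = true)).card % 2 = 1 then
          sg e else 1) *
        (1 / 2 ^ Fintype.card T * ∏ t, (if x t = true then S t else 1)) := by
    intro e
    rw [Finset.prod_congr rfl fun t _ => loc1 (S t) (hS t) (u t) e,
      Finset.prod_univ_sum, Fintype.piFinset_univ]
    refine Finset.sum_congr rfl fun x _ => ?_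
    rw [Finset.prod_mul_distrib, Finset.prod_mul_distrib,
      prod_parT _ (by cases e <;> simp [sg]), Finset.prod_const,
      Finset.card_univ, one_div, one_div, inv_pow]
  rw [h1, h1, ← Finset.sum_add_distrib, Finset.sum_div]
  refine Finset.sum_congr rfl fun x _ => ?_
  generalize (univ.filter (fun t => (u t && x t) = true)).card = n
  rcases Nat.mod_two_eq_zero_or_one n with h | h
  · simp [h]
  · simp [h, sg]

lemma locK (S : Fin k → Fin m → ℝ) (hS : ∀ b j, S b j = 1 ∨ S b j = -1)
    (v : Fin k → Fin m → Bool) :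
    ((∏ b, ∏ j, ind (S b j = if (v b j && true) = true then (-1 : ℝ) else 1)) +
      ∏ b, ∏ j, ind (S b j = if (v b j && false) = true then (-1 : ℝ) else 1)) / 2 =
      ∑ x : Fin k → Fin m → Bool, if dT v x % 2 = 0 then
        1 / 2 ^ (m * k) * ∏ b, ∏ j, (if x b j = true then S b j else 1) else 0 := by
  have h := locT (T := Fin k × Fin m) (fun t => S t.1 t.2) (fun t => hS t.1 t.2)
    (fun t => v t.1 t.2)
  rw [Fintype.prod_prod_type, Fintype.prod_prod_type] at h
  refine h.trans ?_
  have hc : Fintype.card (Fin k × Fin m) = m * k := by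
    rw [Fintype.card_prod, Fintype.card_fin, Fintype.card_fin, Nat.mul_comm]
  rw [hc]
  refine Fintype.sum_equiv (Equiv.curry (Fin k) (Fin m) Bool) _ _ fun x => ?_
  rw [Fintype.prod_prod_type]
  rfl

/-! ### the left hand side -/

/-- the local term -/
noncomputable def Tm (a : Fin (m + 1) → ℤ) (g : ℕ → ℝ) (c : ℕ)
    (ξ : Pr z y → Option (Fin k → Fin m → Bool)) (p : Pr z y) : ℝ :=
  (ξ p).elim 1 fun v => g p / ((p : ℝ) - c) *
    (((∏ b, ∏ j, ind (SS ξ b j p * Jr (cT a (v b) j) p =
        if (v b j && true) = true then (-1 : ℝ) else 1)) +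
      ∏ b, ∏ j, ind (SS ξ b j p * Jr (cT a (v b) j) p =
        if (v b j && false) = true then (-1 : ℝ) else 1)) / 2)

lemma lhsT (a : Fin (m + 1) → ℤ) (g : ℕ → ℝ) (c : ℕ) :
    ∑ s ∈ Tup Unit z y, FA (NTk k a) (s ()) * gp g c (s ()) =
      ∑ ξ : Pr z y → Option (Fin k → Fin m → Bool), ∏ p, Tm a g c ξ p := by
  have h1 : ∀ s ∈ Tup Unit z y, FA (NTk k a) (s ()) * gp g c (s ()) =
      ∑ W ∈ Fintype.piFinset (fun _ : Fin k => Fintype.piFinset
        (fun _ : Fin m => (s ()).primeFactors.powerset)),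
        (∏ p ∈ (s ()).primeFactors, ((∏ b, ind (Cd a (W b) true p)) +
        ∏ b, ind (Cd a (W b) false p)) / 2) * gp g c (s ()) := by
    intro s _
    rw [FA_eq, Finset.sum_mul]
  rw [Finset.sum_congr rfl h1, sum_bigT fun s W =>
    (∏ p ∈ (s ()).primeFactors, ((∏ b, ind (Cd a (W b) true p)) +
        ∏ b, ind (Cd a (W b) false p)) / 2) * gp g c (s ())]
  refine Finset.sum_congr rfl fun ξ _ => ?_
  have h2 : gp g c (ST ξ ()) = ∏ p : Pr z y, (if (ξ p).isSome = true then
      g p / ((p : ℝ) - c) else 1) := by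
    rw [ST_eq]
    unfold gp
    exact prod_pf _ fun p : ℕ => g p / ((p : ℝ) - c)
  rw [h2, ST_eq, prod_pf _ fun p => ((∏ b, ind (Cd a (Wt ξ b) true p)) +
    ∏ b, ind (Cd a (Wt ξ b) false p)) / 2, ← Finset.prod_mul_distrib]
  refine Finset.prod_congr rfl fun p _ => ?_
  unfold Tm
  cases hx : ξ p with
  | none => simp
  | some v =>
    have h4 : ∀ (e : Bool) (b : Fin k), ind (Cd a (Wt ξ b) e p) = ∏ j : Fin m,
      ind (SS ξ b j p * Jr (cT a (v b) j) p = if (v b j && e) = true then (-1 : ℝ) else 1) :=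
      fun e b => Cd_eval a ξ b e p v hx
    simp only [h4]
    simp only [Option.isSome_some, if_true, Option.elim]
    ring

/-! ### the right hand side -/

/-- forget the character -/
def fg (x : Option (IT m k)) : Option (Fin k → Fin m → Bool) := x.map fun i => i.1.1

/-- the local factor -/
noncomputable def Gf (a : Fin (m + 1) → ℤ) (g : ℕ → ℝ) (c : ℕ)
    (ξ : Pr z y → Option (Fin k → Fin m → Bool)) (p : Pr z y) (x : Option (IT m k)) : ℝ :=
  x.elim 1 fun i => g p / ((p : ℝ) - c) * (1 / 2 ^ (m * k) *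
    ∏ b, ∏ j, (if i.1.2 b j = true then SS ξ b j p * Jr (cT a (i.1.1 b) j) p else 1))

lemma sum_IT (F : (Fin k → Fin m → Bool) × (Fin k → Fin m → Bool) → ℝ) :
    ∑ i : IT m k, F i.1 = ∑ r, if dT r.1 r.2 % 2 = 0 then F r else 0 := by
  rw [← Finset.sum_filter]
  exact (Finset.sum_subtype (univ.filter fun r : (Fin k → Fin m → Bool) ×
    (Fin k → Fin m → Bool) => dT r.1 r.2 % 2 = 0) (fun x => by simp) F).symm

lemma SS_sq (ξ : Pr z y → Option (Fin k → Fin m → Bool)) (b : Fin k) (j : Fin m)
    (p : Pr z y) : SS ξ b j p = 1 ∨ SS ξ b j p = -1 := by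
  unfold SS
  refine Finset.prod_induction _ (fun t : ℝ => t = 1 ∨ t = -1) ?_ (Or.inl rfl) ?_
  · rintro s t (rfl | rfl) (rfl | rfl) <;> norm_num
  · intro q _
    split_ifs with h
    · exact Jr_sq h.2
    · exact Or.inl rfl

lemma Jr_pm {p : ℕ} (hp : p.Prime) {x : ℤ} (hx : ¬ (p : ℤ) ∣ x) : Jr x p = 1 ∨ Jr x p = -1 := by
  rw [← sg_sg0 hp hx]
  unfold sg
  split_ifs
  · exact Or.inr rfl
  · exact Or.inl rfl

lemma sum_Gf (a : Fin (m + 1) → ℤ) (g : ℕ → ℝ) (c : ℕ)
    (ξ : Pr z y → Option (Fin k → Fin m → Bool)) (p : Pr z y)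
    (hk : ∀ v j, ¬ ((p : ℕ) : ℤ) ∣ cT a v j) :
    ∑ x ∈ univ.filter (fun x : Option (IT m k) => fg x = ξ p), Gf a g c ξ p x =
      Tm a g c ξ p := by
  rw [Finset.sum_filter, Fintype.sum_option]
  unfold Tm
  cases hx : ξ p with
  | none => simp [fg, Gf]
  | some v =>
    have h0 : (if fg (none : Option (IT m k)) = some v then Gf a g c ξ p none else 0) = 0 := by
      rw [if_neg]
      simp [fg]
    rw [h0, zero_add]
    set F : (Fin k → Fin m → Bool) × (Fin k → Fin m → Bool) → ℝ :=
      fun r : (Fin k → Fin m → Bool) × (Fin k → Fin m → Bool) =>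
          if r.1 = v then g p / ((p : ℝ) - c) * (1 / 2 ^ (m * k) *
            ∏ b, ∏ j, (if r.2 b j = true then SS ξ b j p * Jr (cT a (r.1 b) j) p else 1))
            else 0 with hF
    have h1 : ∀ i : IT m k, (if fg (some i) = some v then Gf a g c ξ p (some i) else 0) =
        F i.1 := by
      intro i
      refine if_congr ?_ rfl rfl
      simp only [fg, Option.map_some, Option.some.injEq]
    refine (Finset.sum_congr rfl fun i _ => h1 i).trans ((sum_IT F).trans ?_)
    rw [Fintype.sum_prod_type, Finset.sum_eq_single v]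
    · show _ = g p / ((p : ℝ) - c) * _
      have hS : ∀ b j, SS ξ b j p * Jr (cT a (v b) j) p = 1 ∨
          SS ξ b j p * Jr (cT a (v b) j) p = -1 := by
        intro b j
        rcases SS_sq ξ b j p with h | h <;> rcases Jr_pm (Pr_prime p) (hk (v b) j) with h' | h' <;>
          rw [h, h'] <;> norm_num
      rw [locK (fun b j => SS ξ b j p * Jr (cT a (v b) j) p) hS v, Finset.mul_sum]
      refine Finset.sum_congr rfl fun x _ => ?_
      simp only [hF, if_true, mul_ite, mul_zero]
    · intro v' _ hv'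
      refine Finset.sum_eq_zero fun x _ => ?_
      simp [hF, hv']
    · intro h
      exact absurd (Finset.mem_univ _) h

lemma Jr_κT (a : Fin (m + 1) → ℤ) (i : IT m k) (n : ℕ) :
    Jr (κT a i) n = ∏ b, ∏ j, (if i.1.2 b j = true then Jr (cT a (i.1.1 b) j) n else 1) := by
  unfold κT
  rw [Pool.Agent.W108.RK.Jr_prod_left]
  refine Finset.prod_congr rfl fun b _ => ?_
  rw [Pool.Agent.W108.RK.Jr_prod_left, Finset.prod_filter]

lemma rhsT (a : Fin (m + 1) → ℤ) (g : ℕ → ℝ) (c : ℕ)
    (ξ : Pr z y → Option (Fin k → Fin m → Bool)) (l : Pr z y → Option (IT m k))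
    (h : ∀ p, fg (l p) = ξ p) :
    (∏ i, gp (fun p => g p / 2 ^ (m * k)) c (Dl l i)) *
      Pool.Agent.W262.RK.Sym LT (κT a) (Dl l) = ∏ p, Gf a g c ξ p (l p) := by
  rw [ExpG.prod_gp (fun _ : IT m k => fun p => g p / 2 ^ (m * k)), Sym_Dl,
    ← Finset.prod_mul_distrib, ← Finset.prod_mul_distrib]
  refine Finset.prod_congr rfl fun p _ => ?_
  cases hl : l p with
  | none =>
    have h0 : ∀ q, Pool.Agent.W762.RK2.lk LT (l q) (none : Option (IT m k)) = false := by
      intro q
      cases l q <;> rfl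
    simp [h0, Gf]
  | some i =>
    have h2 : ∏ q : Pr z y, (if Pool.Agent.W762.RK2.lk LT (l q) (some i) = true
        then Jr (q : ℕ) p else 1) =
        ∏ b, ∏ j, (if i.1.2 b j = true then SS ξ b j p else 1) := by
      have h3 : ∀ b j, (if i.1.2 b j = true then SS ξ b j p else 1) =
          ∏ q : Pr z y, if i.1.2 b j = true then
            (if bt b j (ξ q) = true ∧ q ≠ p then Jr (q : ℕ) p else 1) else 1 := by
        intro b j
        by_cases ha : i.1.2 b j = true
        · simp only [if_pos ha]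
          rfl
        · simp only [if_neg ha, Finset.prod_const_one]
      simp only [h3]
      rw [Finset.prod_congr rfl fun b _ => Finset.prod_comm, Finset.prod_comm]
      refine Finset.prod_congr rfl fun q _ => ?_
      by_cases hqp : q = p
      · subst hqp
        rw [hl]
        have h4 : Pool.Agent.W762.RK2.lk LT (some i) (some i) = false := by
          show decide (dT i.1.1 i.1.2 % 2 = 1) = false
          rw [i.2]
          rfl
        simp [h4]
      · cases hq : l q with
        | none =>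
          have h5 : ξ q = none := by rw [← h q, hq]; rfl
          simp [Pool.Agent.W762.RK2.lk, h5, bt]
        | some i' =>
          have h5 : ξ q = some i'.1.1 := by rw [← h q, hq]; rfl
          have h6 := prod_parT (T := Fin k × Fin m) (Jr (q : ℕ) p)
            (Pool.Agent.W125.RS.Jr_self_mul hqp) (fun t => i'.1.1 t.1 t.2)
            (fun t => i.1.2 t.1 t.2)
          rw [Fintype.prod_prod_type] at h6
          have h7 : (if Pool.Agent.W762.RK2.lk LT (some i') (some i) = true then
              Jr (q : ℕ) p else 1) =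
              if dT i'.1.1 i.1.2 % 2 = 1 then Jr (q : ℕ) p else 1 := by
            refine if_congr ?_ rfl rfl
            show decide (dT i'.1.1 i.1.2 % 2 = 1) = true ↔ _
            exact decide_eq_true_iff
          rw [h7]
          refine Eq.trans h6.symm ?_
          refine Finset.prod_congr rfl fun b _ => Finset.prod_congr rfl fun j _ => ?_
          have e1 : bt b j (ξ q) = i'.1.1 b j := by rw [h5]; rfl
          rw [e1]
          cases i'.1.1 b j <;> cases i.1.2 b j <;> simp [hqp]
    rw [h2]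
    simp only [Gf, Option.elim]
    rw [Jr_κT]
    have h8 : ∏ b, ∏ j, (if i.1.2 b j = true then SS ξ b j p * Jr (cT a (i.1.1 b) j) p else 1) =
        (∏ b, ∏ j, (if i.1.2 b j = true then SS ξ b j p else 1)) *
          ∏ b, ∏ j, (if i.1.2 b j = true then Jr (cT a (i.1.1 b) j) p else 1) := by
      rw [← Finset.prod_mul_distrib]
      refine Finset.prod_congr rfl fun b _ => ?_
      rw [← Finset.prod_mul_distrib]
      refine Finset.prod_congr rfl fun j _ => ?_
      split_ifs
      · rfl
      · rw [mul_one]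
    rw [h8]
    ring

/-- a prime larger than the differences does not divide the constants -/
lemma cT_ndvd (a : Fin (m + 1) → ℤ) (ha : Function.Injective a)
    (haz : ∀ i j, (a i - a j).natAbs ≤ z) (p : Pr z y) (v : Fin m → Bool) (j : Fin m) :
    ¬ ((p : ℕ) : ℤ) ∣ cT a v j := by
  have hz : z < p := by
    have := p.2
    unfold PS at this
    exact (Finset.mem_Ioc.1 (Finset.mem_filter.1 this).1).1
  have hp : Prime ((p : ℕ) : ℤ) := Nat.prime_iff_prime_int.1 (Pr_prime p)
  have h1 : ∀ i i', i ≠ i' → ¬ ((p : ℕ) : ℤ) ∣ a i - a i' := by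
    intro i i' hne hd
    have h2 : a i - a i' ≠ 0 := sub_ne_zero.2 fun h => hne (ha h)
    have h3 := Nat.le_of_dvd (Int.natAbs_pos.mpr h2) (Int.natCast_dvd.1 hd)
    have h4 := haz i i'
    omega
  have hext : ext v j.castSucc = v j := by
    unfold ext
    exact Fin.snoc_castSucc (α := fun _ => Bool) _ _ _
  unfold cT
  split_ifs with hv
  · rw [dvd_neg, hp.dvd_finsetProd_iff]
    rintro ⟨i, hi, hd⟩
    refine h1 _ _ ?_ hd
    rintro rfl
    have h5 := (Finset.mem_filter.1 hi).2
    rw [hext, hv] at h5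
    exact absurd h5 (by simp)
  · rw [hp.dvd_finsetProd_iff]
    rintro ⟨i, hi, hd⟩
    refine h1 _ _ ?_ hd
    rintro rfl
    have h5 := (Finset.mem_filter.1 hi).2
    rw [hext] at h5
    exact hv h5

end ET

/-- TJ-EXP: expansion of the moments of the local count into symbols -/
theorem expt : S_EXPT := by
  intro m k a g c z y hz ha haz
  classical
  rw [ET.lhsT, sum_Tup, ← Finset.sum_fiberwise univ
    (fun (l : Pr z y → Option (IT m k)) => fun p => ET.fg (l p))]
  refine Finset.sum_congr rfl fun ξ _ => ?_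
  have h1 : (univ.filter fun l : Pr z y → Option (IT m k) => (fun p => ET.fg (l p)) = ξ) =
      Fintype.piFinset (fun p => univ.filter (fun x : Option (IT m k) => ET.fg x = ξ p)) := by
    ext l
    simp only [Finset.mem_filter, Finset.mem_univ, true_and, Fintype.mem_piFinset, funext_iff]
  rw [h1, Finset.prod_congr rfl fun p _ => (ET.sum_Gf a g c ξ p
    (fun v j => ET.cT_ndvd a ha haz p v j)).symm, Finset.prod_univ_sum]
  refine Finset.sum_congr rfl fun l hl => ?_
  rw [Fintype.mem_piFinset] at hl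
  exact (ET.rhsT a g c ξ l fun p => (Finset.mem_filter.1 (hl p)).2).symm

end Pool.Agent.TH344.TJ
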