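import Mathlib
import Pool.Agent.TH344.TJ.Stm
import Pool.Agent.TH841.PT.Fin1
import Pool.Agent.TH841.PT.CNTH
import Pool.Agent.TH841.PT.SVP
import Pool.Agent.TH841.PT.RSP
import Pool.Agent.TH841.PT.RVU
import Pool.Agent.TH841.PT.GDP

/-!
# Project TJ: averages of a function with a local bound over sifted arguments
-/

set_option autoImplicit false

namespace Pool.Agent.TH344.TJ

open Finset Polynomial Pool.Agent.W262.RK Pool.Agent.W307.RT Pool.Agent.W307.RS
open Pool.Agent.TH841.PT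

open Pool.Agent.H474R2.PG (rho)

/-- the averages over sifted arguments, from the abstract theorems -/
theorem gavh_of (hcnt : CNTH) (hant : ANTX) (hrs : RSP) (hrv : RVP) (hru : RUP) (hgd : GDP) :
    S_GAVH := by
  rintro R F ⟨hR, hF, A, hA1, zF, hzF⟩ D G H B hDG hd hma zH hH
  have hA0 : (0 : ℝ) < A := by linarith
  set c := (D * G).natDegree with hc
  have hD : Squarefree (D.map (Int.castRingHom ℚ)) := by
    rw [Polynomial.map_mul] at hDG
    exact hDG.squarefree_of_dvd (Dvd.intro _ rfl)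
  have hDG0 : D * G ≠ 0 := by
    intro h0
    rw [h0, Polynomial.map_zero] at hDG
    exact not_squarefree_zero hDG
  have hDc : D.natDegree ≤ c := by
    rw [hc, natDegree_mul (left_ne_zero_of_mul hDG0) (right_ne_zero_of_mul hDG0)]
    omega
  obtain ⟨z0, hz0⟩ := hma
  obtain ⟨zg, hzg⟩ := hgd (D * G) hDG
  refine ⟨z0 + zg + (2 * c + 2) + 4 + zH + zF, fun z hz => ?_⟩
  obtain ⟨⟨C0, hC00, hrank⟩, hsub⟩ := hzF z (by omega)
  obtain ⟨hG, hG2⟩ := good2_of (hzg z (by omega))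
  obtain ⟨C', hC'⟩ := hz0 z (by omega)
  obtain ⟨C, K, y0, hC0, hK1, hcn⟩ := hcnt c z (by omega)
  obtain ⟨Kd, hKd⟩ := eval_le (H * D)
  obtain ⟨At, hAt0, hAt⟩ := tail_le (z := z) (by omega)
  set B' : ℕ := (B + 2) * (H * D).natDegree + 1 with hB'
  set y1 : ℕ := y0 + Kd + 3 with hy1
  -- the summand
  let r : ℤ → ℝ := fun w => R ((H * D).eval w)
  have hr0 : ∀ w, 0 ≤ r w := fun w => hR _
  suffices key : ∃ C2 : ℝ, ∀ θ : {θ : (ℤ × ℕ) × Finset ℕ // (1 ≤ θ.1.2 ∧ θ.1.1.natAbs ≤ θ.1.2 ^ B) ∧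
      θ.2 ⊆ Icc 1 θ.1.2 ∧ ∀ t ∈ θ.2, (H * D).eval (θ.1.1 + (t : ℤ)) ≠ 0 ∧
        Sft G z θ.1.2 (θ.1.1 + (t : ℤ))},
      ∑ t ∈ θ.1.2, r (θ.1.1.1 + (t : ℤ)) ≤
        C2 * ((θ.1.1.2 : ℝ) * Real.exp (-Sp (fun p => (rho G p : ℝ)) z θ.1.1.2)) by
    obtain ⟨C2, hC2⟩ := key
    exact ⟨C2, fun N X hX hN T hT hT' => hC2 ⟨((N, X), T), ⟨hX, hN⟩, hT, hT'⟩⟩
  set GG : (Unit → ℕ) → ℝ := fun s => FA F (s ()) with hGdef
  have hG0 : ∀ s, 0 ≤ GG s := by
    intro s
    rw [hGdef]
    simp only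
    unfold FA
    exact mul_nonneg (by positivity) (sum_nonneg fun _ _ => hF _ _)
  have hcz : c ≤ z := by omega
  have hrc : ∀ p, p.Prime → rz D z p ≤ c := by
    intro p hp
    unfold rz
    split_ifs with h
    · exact_mod_cast (hG p hp h).1
    · exact Nat.cast_nonneg _
  -- the weights for the primes only
  set w : ℕ → ℝ := fun p => if p.Prime then rz D z p else 0 with hw
  have hw0 : ∀ p, 0 ≤ w p := by
    intro p
    rw [hw]
    simp only
    split_ifs
    · exact rz_nonneg _ _ _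
    · exact le_rfl
  have hwc : ∀ p, w p ≤ c := by
    intro p
    rw [hw]
    simp only
    split_ifs with h
    · exact hrc p h
    · exact Nat.cast_nonneg _
  have hgw : ∀ d, gp w c d = gp (rz D z) c d := by
    intro d
    unfold gp
    refine prod_congr rfl fun p hp => ?_
    rw [hw]
    simp only
    rw [if_pos (Nat.prime_of_mem_primeFactors hp)]
  have hgwn : ∀ {y d : ℕ}, d ∣ PP z y → 0 ≤ gp w c d := fun hd => gp_nonneg hw0 hcz hd
  have hc1 : 1 ≤ c := by omega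
  refine hant Unit ℕ {θ : (ℤ × ℕ) × Finset ℕ // (1 ≤ θ.1.2 ∧ θ.1.1.natAbs ≤ θ.1.2 ^ B) ∧
      θ.2 ⊆ Icc 1 θ.1.2 ∧ ∀ t ∈ θ.2, (H * D).eval (θ.1.1 + (t : ℤ)) ≠ 0 ∧
        Sft G z θ.1.2 (θ.1.1 + (t : ℤ))}
    (fun θ => θ.1.2)
    (fun θ => θ.1.1.2) (fun θ t _ => D.eval (θ.1.1.1 + (t : ℤ)))
    (fun θ => (θ.1.1.2 : ℝ) * Real.exp (-Sp (fun p => (rho G p : ℝ)) z θ.1.1.2)) z
    (fun y => Real.exp (Sp (fun p => rho D p) z y))
    (fun s => GG s * ∏ j, gp w c (s j))
    (fun v => ∏ j, (A ^ (v j).primeFactors.card * (gp w c (v j) / v j)))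
    (fun u => ∏ j, ((c : ℝ) ^ (u j).primeFactors.card / (u j : ℝ)))
    (fun θ t => r (θ.1.1.1 + (t : ℤ)))
    (C * C0 * Real.exp (c * At)) (A ^ B' * Real.exp c) (K + 2) y1
    (by omega) (fun y _ => Real.exp_pos _)
    (fun θ => θ.2.1.1) (fun θ => by positivity) (fun X0 => ?_) (fun θ t ht => ?_)
    (fun θ t => hr0 _) (by positivity)
    (one_le_mul_of_one_le_of_one_le (one_le_pow₀ hA1)
      (Real.one_le_exp (Nat.cast_nonneg _))) (by omega)
    (fun y s hs => ⟨?_, ?_⟩) (fun y Y _ u hu => ?_) (fun lam hlam => ?_)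
    (fun lam hlam => ?_) (fun lam hlam => ?_) ?_
  · -- small scales
    refine ⟨(∑ N ∈ Icc (-((X0 : ℤ) ^ B)) ((X0 : ℤ) ^ B), ∑ t ∈ Icc 1 X0, r (N + (t : ℤ))) *
      Real.exp (Sp (fun p => (rho G p : ℝ)) z X0), ?_⟩
    rintro ⟨⟨⟨N, X⟩, T⟩, ⟨hX, hN⟩, hT, hT'⟩ hle
    simp only at hX hN hT hT' hle ⊢
    have hX0 : X ^ B ≤ X0 ^ B := Nat.pow_le_pow_left hle B
    have hmem : N ∈ Icc (-((X0 : ℤ) ^ B)) ((X0 : ℤ) ^ B) := by
      rw [mem_Icc]
      have h1 : (N.natAbs : ℤ) ≤ (X0 : ℤ) ^ B := by exact_mod_cast hN.trans hX0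
      omega
    have h1 : ∑ t ∈ T, r (N + (t : ℤ)) ≤ ∑ t ∈ Icc 1 X0, r (N + (t : ℤ)) := by
      refine sum_le_sum_of_subset_of_nonneg ?_ fun t _ _ => hr0 _
      exact hT.trans (Icc_subset_Icc_right hle)
    have h2 : ∑ t ∈ Icc 1 X0, r (N + (t : ℤ)) ≤
        ∑ N ∈ Icc (-((X0 : ℤ) ^ B)) ((X0 : ℤ) ^ B), ∑ t ∈ Icc 1 X0, r (N + (t : ℤ)) :=
      single_le_sum (f := fun N : ℤ => ∑ t ∈ Icc 1 X0, r (N + (t : ℤ)))
        (fun _ _ => sum_nonneg fun _ _ => hr0 _) hmem
    have h3 : 0 ≤ ∑ N ∈ Icc (-((X0 : ℤ) ^ B)) ((X0 : ℤ) ^ B), ∑ t ∈ Icc 1 X0, r (N + (t : ℤ)) :=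
      sum_nonneg fun _ _ => sum_nonneg fun _ _ => hr0 _
    have h4 : (1 : ℝ) ≤ (X : ℝ) := by exact_mod_cast hX
    have h5 : Sp (fun p => (rho G p : ℝ)) z X ≤ Sp (fun p => (rho G p : ℝ)) z X0 := by
      unfold Sp
      refine sum_le_sum_of_subset_of_nonneg ?_ fun p _ _ =>
        div_nonneg (Nat.cast_nonneg _) (Nat.cast_nonneg _)
      intro p hp
      have := mem_PS'.1 hp
      exact mem_PS'.2 ⟨⟨this.1.1, this.1.2.trans hle⟩, this.2⟩
    have h6 : (1 : ℝ) ≤ Real.exp (Sp (fun p => (rho G p : ℝ)) z X0) *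
        Real.exp (-Sp (fun p => (rho G p : ℝ)) z X) := by
      rw [← Real.exp_add]
      exact Real.one_le_exp (by linarith)
    have h7 : (1 : ℝ) ≤ Real.exp (Sp (fun p => (rho G p : ℝ)) z X0) *
        (X * Real.exp (-Sp (fun p => (rho G p : ℝ)) z X)) := by
      have := mul_le_mul h4 h6 zero_le_one (by linarith : (0 : ℝ) ≤ X)
      calc (1 : ℝ) = 1 * 1 := by ring
        _ ≤ X * (Real.exp (Sp (fun p => (rho G p : ℝ)) z X0) *
            Real.exp (-Sp (fun p => (rho G p : ℝ)) z X)) := this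
        _ = _ := by ring
    rw [mul_assoc]
    exact (h1.trans h2).trans (le_mul_of_one_le_right h3 h7)
  · -- good values
    refine ⟨fun _ h0 => (θ.2.2.2 t ht).1 ?_, fun p hp hzp j l hjl _ => absurd rfl hjl⟩
    rw [eval_mul]
    exact mul_eq_zero_of_right _ h0
  · exact mul_nonneg (hG0 s) (prod_nonneg fun j _ => hgwn (Tup_unit hs))
  · exact prod_nonneg fun j _ => mul_nonneg (pow_nonneg hA0.le _)
      (div_nonneg (hgwn (Tup_unit hs)) (Nat.cast_nonneg _))
  · exact prod_nonneg fun j _ => by positivity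
  · -- the first sum
    obtain ⟨A2, hA2⟩ := hrs Unit z c (fun _ => w) GG
      (fun y => C' * Real.exp (Sp (fun p => rho D p) z y)) A lam (by omega)
      (fun _ p => ⟨hw0 p, hwc p⟩) hA1 hlam hG0
      (fun y hy s e hse => by
        have h := hsub y hy (s ()) (e ()) (Tup_unit hse)
        simpa using h)
      (fun y hy => by
        have h := hC' y hy
        simp only [one_mul] at h
        have e5 : ∀ F : Unit → ℝ, ∏ j, F j = F () := fun F => by simp
        simp only [hgw, e5]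
        exact h)
    refine ⟨A2 * C', fun y hy => ?_⟩
    have := hA2 y hy
    rw [mul_assoc]
    exact this
  · exact hrv Unit z c (fun _ => w) A lam (by omega)
      (fun _ p => ⟨hw0 p, hwc p⟩) hA1 hlam
  · exact hru Unit (c : ℝ) lam (by exact_mod_cast hc1) hlam
  -- the local majorant
  rintro ⟨⟨⟨N, X⟩, T⟩, ⟨hX1, hN⟩, hT, hTT⟩ y Y k hy0 hzy hyK hk s hs v hv u hu h8 T' hT' hval
  simp only at hX1 hN hT hTT hyK hk h8 hT' hval ⊢
  have hy00 : y0 ≤ y := by omega
  have hyX : y ≤ X := le_trans (Nat.le_self_pow (by omega) y) hyK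
  have hyK' : y ^ K ≤ X := (Nat.pow_le_pow_right (by omega) (by omega)).trans hyK
  have hy2 : y ^ 2 ≤ X := (Nat.pow_le_pow_right (by omega) (by omega)).trans hyK
  set g : Finset ℕ → ℝ := fun E => F (s ()) E with hg
  have hg0 : ∀ E, 0 ≤ g E := fun E => hF _ _
  have hHn : ∀ t ∈ T', ∀ p ∈ PS z y, ¬ (p : ℤ) ∣ H.eval (N + (t : ℤ)) := by
    intro t ht p hp hdv
    have hp' := mem_PS'.1 hp
    exact (hTT t (hT' ht)).2 p hp'.2 hp'.1.1 ((Nat.pow_le_pow_left hp'.1.2 2).trans hy2)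
      (hH p hp'.2 (by omega) _ hdv)
  have hS1H : ∀ t ∈ T', S1 z y (fun _ : Unit => (H * D).eval (N + (t : ℤ))) =
      S1 z y (fun _ : Unit => D.eval (N + (t : ℤ))) := by
    intro t ht
    funext j
    unfold S1
    refine prod_congr (filter_congr fun p hp => ?_) fun _ _ => rfl
    have hn := hHn t ht p hp
    have hpi := Nat.prime_iff_prime_int.1 (mem_PS'.1 hp).2
    have hcop : IsCoprime ((p : ℤ)) (H.eval (N + (t : ℤ))) := hpi.coprime_iff_not_dvd.2 hn
    rw [eval_mul]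
    rw [show ((p : ℤ) ∣ H.eval (N + (t : ℤ)) * D.eval (N + (t : ℤ)) ↔
      (p : ℤ) ∣ D.eval (N + (t : ℤ))) from ⟨hcop.dvd_of_dvd_mul_left, fun h => h.mul_left _⟩,
      show ((p : ℤ) ^ 2 ∣ H.eval (N + (t : ℤ)) * D.eval (N + (t : ℤ)) ↔
      (p : ℤ) ^ 2 ∣ D.eval (N + (t : ℤ))) from
        ⟨hcop.pow_left.dvd_of_dvd_mul_left, fun h => h.mul_left _⟩]
  have hS2H : ∀ t ∈ T', S2 z y (fun _ : Unit => (H * D).eval (N + (t : ℤ))) =
      S2 z y (fun _ : Unit => D.eval (N + (t : ℤ))) := by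
    intro t ht
    funext j
    unfold S2
    refine prod_congr (filter_congr fun p hp => ?_) fun _ _ => rfl
    have hn := hHn t ht p hp
    have hpi := Nat.prime_iff_prime_int.1 (mem_PS'.1 hp).2
    have hcop : IsCoprime ((p : ℤ)) (H.eval (N + (t : ℤ))) := hpi.coprime_iff_not_dvd.2 hn
    rw [eval_mul]
    exact ⟨hcop.pow_left.dvd_of_dvd_mul_left, fun h => h.mul_left _⟩
  have h1 : ∀ t ∈ T', r (N + (t : ℤ)) ≤
      C0 * (A ^ B') ^ k *
        A ^ (v ()).primeFactors.card * g (ngs ((H * D).eval (N + (t : ℤ))) (s ())) := by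
    intro t ht
    have htT := hT' ht
    have ht1 := hT htT
    have ht0 := (hTT t htT).1
    obtain ⟨hts, htv, _⟩ := hval t ht
    have hsize : ((H * D).eval (N + (t : ℤ))).natAbs ≤ X ^ B' := by
      have e2 : t ≤ X := (mem_Icc.1 ht1).2
      have e5 : X ^ B ≤ X ^ (B + 1) := Nat.pow_le_pow_right hX1 (by omega)
      have e6 : X ≤ X ^ (B + 1) := Nat.le_self_pow (by omega) X
      have e7 : 1 ≤ X ^ (B + 1) := Nat.one_le_pow _ _ hX1
      have e8 : (N + (t : ℤ)).natAbs ≤ X ^ (B + 2) := by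
        calc (N + (t : ℤ)).natAbs ≤ N.natAbs + t :=
              (Int.natAbs_add_le _ _).trans (by rw [Int.natAbs_natCast])
          _ ≤ X ^ (B + 1) + X ^ (B + 1) := Nat.add_le_add (hN.trans e5) (e2.trans e6)
          _ = 2 * X ^ (B + 1) := by ring
          _ ≤ X * X ^ (B + 1) := Nat.mul_le_mul_right _ (by omega)
          _ = X ^ (B + 2) := by ring
      calc ((H * D).eval (N + (t : ℤ))).natAbs ≤ Kd * (X ^ (B + 2)) ^ (H * D).natDegree :=
            hKd _ _ (Nat.one_le_pow _ _ hX1) e8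
        _ ≤ X * (X ^ (B + 2)) ^ (H * D).natDegree := Nat.mul_le_mul_right _ (by omega)
        _ = X ^ B' := by rw [hB', ← pow_mul]; ring
    have hr := hrank y X k B' _ ht0 hsize hX1 (by omega) hk
    have es1 : S1 z y (fun _ : Unit => (H * D).eval (N + (t : ℤ))) = s := (hS1H t ht).trans hts
    have es2 : S2 z y (fun _ : Unit => (H * D).eval (N + (t : ℤ))) = v := (hS2H t ht).trans htv
    rw [es1, es2] at hr
    exact hr
  have hneg : ∀ t ∈ T', ngs ((H * D).eval (N + (t : ℤ))) (s ()) ∈ (s ()).primeFactors.powerset := by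
    intro t _
    rw [mem_powerset]
    exact filter_subset _ _
  have h2 : ∑ t ∈ T', g (ngs ((H * D).eval (N + (t : ℤ))) (s ())) =
      ∑ E ∈ (s ()).primeFactors.powerset,
        ((T'.filter (fun t : ℕ => ngs ((H * D).eval (N + (t : ℤ))) (s ()) = E)).card : ℝ) * g E := by
    rw [← sum_fiberwise_of_maps_to hneg]
    refine sum_congr rfl fun E _ => ?_
    rw [← nsmul_eq_mul, ← sum_const]
    refine sum_congr rfl fun t ht => ?_
    rw [(mem_filter.1 ht).2]
  set SG : ℝ := Real.exp (-Sp (fun p => (rho G p : ℝ)) z X) with hSG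
  set Q : ℝ := C * X * (1 / 2) ^ (s ()).primeFactors.card * gp (fun p => rho D p) c (s ()) *
        (gp (fun p => rho D p) c (v ()) / v ()) * ((c : ℝ) ^ (u ()).primeFactors.card / u ()) *
        Real.exp (-Sp (fun p => rho D p) z y) * (Real.exp (c * At) * (Real.exp c) ^ k * SG) with hQ
  have h8' : (s () * v () * u ()) ^ 8 ≤ X := by simpa using h8
  have hGc : ∀ p : ℕ, p.Prime → z < p → rho G p ≤ c := fun p hp hzp =>
    (Nat.le_add_left _ _).trans (hG2 p hp hzp).1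
  have hexpG := exp_G hGc hzy (hAt y X k hzy hk)
  have h3 : ∀ E ∈ (s ()).primeFactors.powerset,
      ((T'.filter (fun t : ℕ => ngs ((H * D).eval (N + (t : ℤ))) (s ()) = E)).card : ℝ) * g E ≤
        Q * g E := by
    intro E _
    refine mul_le_mul_of_nonneg_right ?_ (hg0 E)
    have hm := hcn D G hG hG2 Unit (fun _ _ => ()) (sgH H) (fun _ _ _ _ => rfl)
      (fun p hp _ t => ⟨sgH_period H p t, sgH_pm H hp t⟩) N X y Y hy00 hzy hyK' (s ()) (v ()) (u ()) (Tup_unit hs)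
      (Tup_unit hv) (Tup_unit hu) h8' (fun _ => ()) (s ()).primeFactors E (Subset.refl _)
    have h4 : T'.filter (fun t : ℕ => ngs ((H * D).eval (N + (t : ℤ))) (s ()) = E) ⊆
        SetH D G (fun _ _ => ()) (sgH H) z y N X (s ()) (v ()) (u ()) (fun _ => ())
          (s ()).primeFactors E := by
      intro t ht
      rw [mem_filter] at ht
      obtain ⟨ht', htE⟩ := ht
      obtain ⟨hts, htv, htu⟩ := hval t ht'
      unfold SetH
      simp only [mem_filter]
      refine ⟨hT (hT' ht'), congrFun hts (), congrFun htv (), htu (), fun _ _ _ => trivial,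
        fun p hp => ?_, fun p hp => ?_⟩
      · rw [← htE]
        unfold ngs
        rw [mem_filter]
        have hpp := Nat.prime_of_mem_primeFactors hp
        have hpd := Nat.dvd_of_mem_primeFactors hp
        have hpS : p ∈ PS z y := Pool.Agent.W405.RK2.prime_dvd_PP hpp (hpd.trans (Tup_unit hs))
        have hn := hHn t ht' p hpS
        have hDd : (p : ℤ) ∣ D.eval (N + (t : ℤ)) := by
          rw [← hts] at hpd
          unfold S1 at hpd
          obtain ⟨q, hq, hpq⟩ := (hpp.prime.dvd_finsetProd_iff _).1 hpd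
          have hq' := mem_filter.1 hq
          have h7 := (Nat.prime_dvd_prime_iff_eq hpp (mem_PS'.1 hq'.1).2).1 hpq
          rw [h7]
          exact hq'.2.1
        have hev : (H * D).eval (N + (t : ℤ)) / p =
            H.eval (N + (t : ℤ)) * (D.eval (N + (t : ℤ)) / p) := by
          rw [eval_mul, Int.mul_ediv_assoc _ hDd]
        rw [hev, jacobiSym.mul_left]
        unfold sgH
        rw [if_neg hn]
        have h8 : p ∈ (s ()).primeFactors := hp
        rcases jac_pm hpp hn with h9 | h9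
        · rw [h9, one_mul]
          exact ⟨fun h5 => ⟨h8, h5⟩, fun h5 => h5.2⟩
        · rw [h9, neg_neg, neg_one_mul, neg_inj]
          exact ⟨fun h5 => ⟨h8, h5⟩, fun h5 => h5.2⟩
      · have hp' := mem_PS'.1 hp
        exact (hTT t (hT' ht')).2 p hp'.2 hp'.1.1
          ((Nat.pow_le_pow_left hp'.1.2 2).trans hy2)
    have h5 : ((T'.filter (fun t : ℕ => ngs ((H * D).eval (N + (t : ℤ))) (s ()) = E)).card : ℝ) ≤ _ :=
      le_trans (by exact_mod_cast card_le_card h4) hm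
    refine h5.trans ?_
    simp only [rhoT_unit]
    have e1 : ∏ p ∈ (s ()).primeFactors, (rho D p : ℝ) / ((p : ℝ) - c) =
        gp (fun p => rho D p) c (s ()) := rfl
    have e2 : ∏ p ∈ (v ()).primeFactors, (rho D p : ℝ) / ((p : ℝ) - c) =
        gp (fun p => rho D p) c (v ()) := rfl
    have hden : ∀ {d : ℕ}, d ∣ PP z y → 0 ≤ gp (fun p => rho D p) c d := fun hd =>
      gp_nonneg (fun _ => Nat.cast_nonneg _) hcz hd
    have e3 : ∏ p ∈ (u ()).primeFactors, (rho D p : ℝ) ≤ (c : ℝ) ^ (u ()).primeFactors.card := by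
      rw [← prod_const]
      refine prod_le_prod (fun p _ => Nat.cast_nonneg _) fun p hp => ?_
      have hpp := Nat.prime_of_mem_primeFactors hp
      have := prime_gt (Tup_unit hu) hp
      exact_mod_cast (hG p hpp (by omega)).1
    rw [e1, e2, hQ]
    have n1 := hden (Tup_unit hs)
    have n2 := hden (Tup_unit hv)
    refine mul_le_mul ?_ hexpG (Real.exp_pos _).le (by positivity)
    refine mul_le_mul_of_nonneg_right ?_ (Real.exp_pos _).le
    refine mul_le_mul_of_nonneg_left (div_le_div_of_nonneg_right e3 (Nat.cast_nonneg _)) ?_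
    positivity
  calc ∑ t ∈ T', r (N + (t : ℤ))
      ≤ ∑ t ∈ T', C0 * (A ^ B') ^ k *
        A ^ (v ()).primeFactors.card * g (ngs ((H * D).eval (N + (t : ℤ))) (s ())) :=
        sum_le_sum h1
    _ = C0 * (A ^ B') ^ k * A ^ (v ()).primeFactors.card *
          ∑ E ∈ (s ()).primeFactors.powerset,
            ((T'.filter (fun t : ℕ => ngs ((H * D).eval (N + (t : ℤ))) (s ()) = E)).card : ℝ) * g E := by
        rw [← mul_sum, h2]
    _ ≤ C0 * (A ^ B') ^ k * A ^ (v ()).primeFactors.card *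
          ∑ E ∈ (s ()).primeFactors.powerset, Q * g E :=
        mul_le_mul_of_nonneg_left (sum_le_sum h3) (by positivity)
    _ = _ := by
        have e1 : GG s = (1 / 2) ^ (s ()).primeFactors.card *
            ∑ E ∈ (s ()).primeFactors.powerset, g E := rfl
        have e3 : gp w c (s ()) = gp (fun p => rho D p) c (s ()) := by
          rw [hgw, gp_rz D (Tup_unit hs)]
        have e4 : gp w c (v ()) = gp (fun p => rho D p) c (v ()) := by
          rw [hgw, gp_rz D (Tup_unit hv)]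
        have e5 : ∀ F : Unit → ℝ, ∏ j, F j = F () := fun F => by simp
        rw [← mul_sum, e5, e5, e5, e1, e3, e4, hQ, Real.exp_neg (Sp (fun p => (rho D p : ℝ)) z y),
          mul_pow]
        ring

theorem gavh : S_GAVH :=
  gavh_of (CNTHf.cnth_of SVPf.svp) antx RSPf.rsp RVU.rvp RVU.rup GDPf.gdp

end Pool.Agent.TH344.TJ
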