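import Pool.Agent.TH344.TJ.Stm
import Pool.Agent.TH344.JG.Loc

/-!
# TJ-LOC: the local condition of a twisted hyperelliptic Jacobian at the primes that divide `D` once
(job 3442)

The divisor classes are split into irreducible factors, as in `Pool.Agent.TH344.JG.Loc`. New is
`unit_N`: if the finite extension `L` of `ℚ_p` contains an element of norm `p ^ (-1/2)`, the norms to
`ℚ_p` of the units of `L` are squares (determinant of the multiplication on `O / p O`, `O` the integral
closure of `ℤ_p`).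
-/

set_option autoImplicit false



namespace Pool.Agent.TH344.TJ.Loc

section linalg

variable {k V : Type} [Field k] [AddCommGroup V] [Module k V] [FiniteDimensional k V]

omit [FiniteDimensional k V] in
theorem det_restrict_congr (f : V →ₗ[k] V) (W W' : Submodule k V) (h : W = W')
    (hW : ∀ v ∈ W, f v ∈ W) (hW' : ∀ v ∈ W', f v ∈ W') :
    LinearMap.det (f.restrict hW) = LinearMap.det (f.restrict hW') := by
  subst h
  rfl

/-- If `f` commutes with `g` and the kernel of `g` is the range of `g`, then `det f` is a square. -/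
theorem det_sq (f g : V →ₗ[k] V) (hfg : ∀ v, f (g v) = g (f v))
    (hker : LinearMap.ker g = LinearMap.range g) : IsSquare (LinearMap.det f) := by
  have hK : ∀ v ∈ LinearMap.ker g, f v ∈ LinearMap.ker g := by
    intro v hv
    rw [LinearMap.mem_ker] at hv ⊢
    rw [← hfg, hv, map_zero]
  have hR : ∀ v ∈ LinearMap.range g, f v ∈ LinearMap.range g := by
    rintro v ⟨u, rfl⟩
    exact ⟨f u, (hfg u).symm⟩
  have h1 := LinearMap.det_eq_det_mul_det (LinearMap.ker g) f hK
  have h2 : LinearMap.det ((LinearMap.ker g).mapQ (LinearMap.ker g) f hK) =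
      LinearMap.det (f.restrict hR) := by
    rw [← LinearMap.det_conj ((LinearMap.ker g).mapQ (LinearMap.ker g) f hK) g.quotKerEquivRange]
    congr 1
    apply LinearMap.ext
    intro w
    obtain ⟨v, rfl⟩ := g.quotKerEquivRange.surjective w
    obtain ⟨u, rfl⟩ := Submodule.mkQ_surjective _ v
    apply Subtype.ext
    simp [hfg]
  refine ⟨LinearMap.det (f.restrict hR), ?_⟩
  rw [h1, h2, det_restrict_congr f _ _ hker hK hR]

end linalg

section alg

variable {R k O : Type} [CommRing R] [Field k] [CommRing O] [IsDomain O] [Algebra R O]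
  [Module.Free R O] [Module.Finite R O]

/-- norms of elements of an algebra with an element `y` such that `y² = π w`, `w` a unit -/
theorem norm_sq_mod (φ : R →+* k) (hφ : Function.Surjective φ) (π : R)
    (hπ : ∀ r, φ r = 0 ↔ π ∣ r) (x y w w' : O) (hw : w * w' = 1) (hy0 : y ≠ 0)
    (hy : y ^ 2 = algebraMap R O π * w) : IsSquare (φ (Algebra.norm R x)) := by
  classical
  let ι := Module.Free.ChooseBasisIndex R O
  let b : Module.Basis ι R O := Module.Free.chooseBasis R O
  have hco : ∀ (z : O) (v : ι → R), b.equivFun (z * b.equivFun.symm v) =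
      (Algebra.leftMulMatrix b z).mulVec v := by
    intro z v
    have h := Algebra.leftMulMatrix_mulVec_repr b z (b.equivFun.symm v)
    have h2 : (b.repr (b.equivFun.symm v) : ι → R) = v := by
      rw [← b.equivFun_apply, LinearEquiv.apply_symm_apply]
    rw [h2] at h
    rw [h]
    rfl
  rw [Algebra.norm_eq_matrix_det b, RingHom.map_det]
  set X := (Algebra.leftMulMatrix b x) with hX
  set Y := (Algebra.leftMulMatrix b y) with hY
  have hdet : ((RingHom.mapMatrix φ) X).det = LinearMap.det (Matrix.toLin' ((RingHom.mapMatrix φ) X)) := by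
    rw [LinearMap.det_toLin']
  rw [hdet]
  refine det_sq _ (Matrix.toLin' ((RingHom.mapMatrix φ) Y)) ?_ ?_
  · intro v
    rw [← LinearMap.comp_apply, ← LinearMap.comp_apply, ← Matrix.toLin'_mul, ← Matrix.toLin'_mul,
      ← map_mul, ← map_mul, hX, hY, ← map_mul, ← map_mul, mul_comm x y]
  · ext v'
    rw [LinearMap.mem_ker, LinearMap.mem_range]
    constructor
    · intro hv
      choose ψ hψ using hφ
      have hvv : (fun i => φ (ψ (v' i))) = v' := funext fun i => hψ (v' i)
      set v : ι → R := fun i => ψ (v' i) with hv'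
      set z : O := b.equivFun.symm v with hz
      have h1 : ∀ i, π ∣ (b.equivFun (y * z)) i := by
        intro i
        rw [hz, hco, ← hY, ← hπ]
        have h2 : φ (Y.mulVec v i) = (Matrix.toLin' ((RingHom.mapMatrix φ) Y)) v' i := by
          rw [Matrix.toLin'_apply, ← hvv, RingHom.map_mulVec]
          rfl
        rw [h2, hv]
        rfl
      choose u hu using h1
      set uO : O := b.equivFun.symm u with huO
      have h2 : y * z = algebraMap R O π * uO := by
        apply b.equivFun.injective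
        ext i
        rw [hu, ← Algebra.smul_def, map_smul, huO, LinearEquiv.apply_symm_apply]
        rfl
      have h3 : z = y * (w' * uO) := by
        apply mul_left_cancel₀ hy0
        have : algebraMap R O π = y ^ 2 * w' := by
          rw [hy, mul_assoc, hw, mul_one]
        rw [h2, this]
        ring
      refine ⟨fun i => φ (b.equivFun (w' * uO) i), ?_⟩
      have h4 : v = Y.mulVec (b.equivFun (w' * uO)) := by
        have h5 := hco y (b.equivFun (w' * uO))
        rw [LinearEquiv.symm_apply_apply, ← h3, hz, LinearEquiv.apply_symm_apply] at h5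
        exact h5
      rw [Matrix.toLin'_apply]
      ext i
      have h6 := RingHom.map_mulVec φ Y (b.equivFun (w' * uO)) i
      have h7 : φ (v i) = v' i := congrFun hvv i
      rw [← h7, h4, h6]
      rfl
    · rintro ⟨u, rfl⟩
      rw [← LinearMap.comp_apply, ← Matrix.toLin'_mul, ← map_mul, hY, ← map_mul, ← pow_two, hy,
        map_mul, map_mul]
      have h1 : (RingHom.mapMatrix φ) (Algebra.leftMulMatrix b (algebraMap R O π)) = 0 := by
        rw [AlgHom.commutes]
        ext i j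
        rw [RingHom.mapMatrix_apply, Matrix.map_apply, Matrix.algebraMap_matrix_apply]
        split_ifs
        · rw [Matrix.zero_apply, Algebra.algebraMap_self, RingHom.id_apply]
          exact (hπ π).2 dvd_rfl
        · rw [map_zero]; rfl
      rw [h1, zero_mul, map_zero]
      rfl

end alg

end Pool.Agent.TH344.TJ.Loc

namespace Pool.Agent.TH344.TJ.Loc

open Polynomial Pool.Agent.TH344.JG.Loc

variable {p : ℕ} [hp : Fact p.Prime]

theorem sq_of_toZMod (hp2 : p ≠ 2) (N : ℤ_[p]) (hN : ‖N‖ = 1) (h : IsSquare (PadicInt.toZMod N)) :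
    IsSquare (N : ℚ_[p]) := by
  obtain ⟨r, hr⟩ := h
  obtain ⟨s, rfl⟩ := ZMod.ringHom_surjective (PadicInt.toZMod (p := p)) r
  have h1 : ‖N - s * s‖ < 1 := by
    rw [← PadicInt.mem_nonunits]
    have : N - s * s ∈ RingHom.ker (PadicInt.toZMod (p := p)) := by
      rw [RingHom.mem_ker, map_sub, map_mul, hr, sub_self]
    rw [PadicInt.ker_toZMod] at this
    exact this
  have h2 : ‖(N : ℚ_[p]) - (s : ℚ_[p]) * s‖ < ‖(N : ℚ_[p])‖ := by
    rw [← PadicInt.norm_def, hN]
    rw [PadicInt.norm_def] at h1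
    push_cast at h1
    exact h1
  obtain ⟨h3, h4⟩ := Pool.Agent.W407.SE.near hp2 _ _ h2
  have h5 : IsSquare ((N : ℚ_[p]) * ((s : ℚ_[p]) * s) / ((s : ℚ_[p]) * s)) :=
    h3.div ⟨_, rfl⟩
  rwa [mul_div_cancel_right₀ _ h4] at h5

section unit

variable {L : Type} [Field L] [Algebra ℚ_[p] L] (ι : L →ₐ[ℚ_[p]] PadicAlgCl p)

theorem coeff_le {x : L} (hx : ‖ι x‖ ≤ 1) (n : ℕ) : ‖(minpoly ℚ_[p] x).coeff n‖ ≤ 1 := by
  have h1 : minpoly ℚ_[p] (ι x) = minpoly ℚ_[p] x := minpoly.algHom_eq ι ι.injective x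
  rw [← PadicAlgCl.spectralNorm_eq] at hx
  unfold spectralNorm at hx
  rw [h1] at hx
  have hint : IsIntegral ℚ_[p] x := by
    have : IsIntegral ℚ_[p] (ι x) := (Algebra.IsAlgebraic.isAlgebraic (ι x)).isIntegral
    exact (isIntegral_algHom_iff ι ι.injective).1 this
  exact (spectralValue_le_one_iff (minpoly.monic hint)).1 hx n

variable [FiniteDimensional ℚ_[p] L]

/-- norms of units from a field of even ramification index are squares -/
theorem unit_N (hp2 : p ≠ 2) {x y : L} (hx : ‖ι x‖ = 1) (hy : ‖ι y‖ ^ 2 = (p : ℝ)⁻¹) :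
    IsSquare (Algebra.norm ℚ_[p] x) := by
  let _ : Algebra ℤ_[p] L := ((algebraMap ℚ_[p] L).comp (algebraMap ℤ_[p] ℚ_[p])).toAlgebra
  have : IsScalarTower ℤ_[p] ℚ_[p] L := IsScalarTower.of_algebraMap_eq' rfl
  have : Module.IsTorsionFree ℤ_[p] L := Module.IsTorsionFree.trans_faithfulSMul ℤ_[p] ℚ_[p] L
  have : Module.Free ℤ_[p] (integralClosure ℤ_[p] L) :=
    IsIntegralClosure.module_free ℤ_[p] ℚ_[p] L (integralClosure ℤ_[p] L)
  have : Module.Finite ℤ_[p] (integralClosure ℤ_[p] L) :=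
    IsIntegralClosure.finite ℤ_[p] ℚ_[p] L (integralClosure ℤ_[p] L)
  have hint : ∀ z : L, ‖ι z‖ ≤ 1 → IsIntegral ℤ_[p] z := by
    intro z hz
    have h1 := coeff_le ι hz
    have h2 : IsIntegral ℚ_[p] z := Algebra.IsIntegral.isIntegral z
    have h3 : (minpoly ℚ_[p] z) ∈ Polynomial.lifts (algebraMap ℤ_[p] ℚ_[p]) := by
      rw [Polynomial.lifts_iff_coeff_lifts]
      intro n
      exact ⟨⟨_, h1 n⟩, rfl⟩
    obtain ⟨q, hq1, hq2, hq3⟩ := Polynomial.lifts_and_degree_eq_and_monic h3 (minpoly.monic h2)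
    refine ⟨q, hq3, ?_⟩
    rw [IsScalarTower.algebraMap_eq ℤ_[p] ℚ_[p] L, ← Polynomial.eval₂_map, hq1]
    exact minpoly.aeval ℚ_[p] z
  have hp0 : (p : ℚ_[p]) ≠ 0 := by exact_mod_cast hp.out.ne_zero
  have hpL : algebraMap ℚ_[p] L p ≠ 0 := by
    rw [Ne, map_eq_zero]
    exact hp0
  have hpn : ‖ι (algebraMap ℚ_[p] L p)‖ = (p : ℝ)⁻¹ := by rw [nm_alg, Padic.norm_p]
  have hpr : (0 : ℝ) < (p : ℝ)⁻¹ := inv_pos.2 (by exact_mod_cast hp.out.pos)
  have hy0 : y ≠ 0 := by
    rintro rfl
    rw [map_zero, norm_zero, zero_pow two_ne_zero] at hy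
    exact hpr.ne hy
  obtain ⟨w, hw⟩ : ∃ w : L, w = y ^ 2 / algebraMap ℚ_[p] L p := ⟨_, rfl⟩
  obtain ⟨w', hw'⟩ : ∃ w' : L, w' = algebraMap ℚ_[p] L p / y ^ 2 := ⟨_, rfl⟩
  have hwn : ‖ι w‖ = 1 := by
    rw [hw, map_div₀, norm_div, hpn, map_pow, norm_pow, hy, div_self hpr.ne']
  have hwn' : ‖ι w'‖ = 1 := by
    rw [hw', map_div₀, norm_div, hpn, map_pow, norm_pow, hy, div_self hpr.ne']
  have hyn : ‖ι y‖ ≤ 1 := by
    have h1 : (p : ℝ)⁻¹ ≤ 1 := inv_le_one_of_one_le₀ (by exact_mod_cast hp.out.one_lt.le)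
    rw [← hy] at h1
    exact (pow_le_one_iff_of_nonneg (norm_nonneg _) two_ne_zero).1 h1
  have key := norm_sq_mod (R := ℤ_[p]) (k := ZMod p) (O := integralClosure ℤ_[p] L)
    (PadicInt.toZMod (p := p)) (ZMod.ringHom_surjective _) (p : ℤ_[p]) (by
      intro r
      rw [← RingHom.mem_ker, PadicInt.ker_toZMod, PadicInt.maximalIdeal_eq_span_p,
        Ideal.mem_span_singleton])
    ⟨x, hint x hx.le⟩ ⟨y, hint y hyn⟩ ⟨w, hint w hwn.le⟩ ⟨w', hint w' hwn'.le⟩
    (by
      apply Subtype.ext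
      show w * w' = 1
      rw [hw, hw']
      field_simp)
    (by
      intro h
      exact hy0 (congrArg Subtype.val h))
    (by
      apply Subtype.ext
      show y ^ 2 = algebraMap ℤ_[p] L (p : ℤ_[p]) * w
      rw [hw, map_natCast, map_natCast]
      rw [map_natCast] at hpL
      field_simp)
  have hloc : IsLocalization (Algebra.algebraMapSubmonoid (integralClosure ℤ_[p] L)
      (nonZeroDivisors ℤ_[p])) L :=
    IsIntegralClosure.isLocalization ℤ_[p] ℚ_[p] L (integralClosure ℤ_[p] L)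
  have hN := Algebra.norm_localization (Rₘ := ℚ_[p]) (Sₘ := L) ℤ_[p] (nonZeroDivisors ℤ_[p])
    (⟨x, hint x hx.le⟩ : integralClosure ℤ_[p] L)
  have hN2 : Algebra.norm ℚ_[p] x = ((Algebra.norm ℤ_[p]
    (⟨x, hint x hx.le⟩ : integralClosure ℤ_[p] L) : ℤ_[p]) : ℚ_[p]) := hN
  rw [hN2]
  apply sq_of_toZMod hp2 _ _ key
  rw [PadicInt.norm_def, ← hN2, norm_N ι, hx, one_pow]


theorem odd_pow_sq {n : ℕ} (hn : Odd n) {z : ℚ_[p]} (h : IsSquare (z ^ n)) : IsSquare z := by
  obtain ⟨k, rfl⟩ := hn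
  by_cases hz : z = 0
  · rw [hz]
    exact IsSquare.zero
  · rw [pow_succ, pow_mul'] at h
    exact sq_cancel h ⟨z ^ k, pow_two _⟩ (pow_ne_zero _ (pow_ne_zero _ hz))

theorem prod_sq {α : Type} (s : Finset α) (f : α → ℚ_[p]) (h : ∀ i ∈ s, IsSquare (f i)) :
    IsSquare (∏ i ∈ s, f i) := by
  classical
  induction s using Finset.induction_on with
  | empty => rw [Finset.prod_empty]; exact IsSquare.one
  | insert a s ha ih =>
    rw [Finset.prod_insert ha]
    exact (h a (Finset.mem_insert_self _ _)).mul (ih fun i hi => h i (Finset.mem_insert_of_mem hi))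

/-- the coordinates of the 2-torsion point `(D a_i, 0)` -/
def tor {n : ℕ} (a : Fin n → ℤ) (D : ℤ) (i j : Fin n) : ℤ :=
  if i = j then ∏ l ∈ Finset.univ.erase i, (D * a i - D * a l) else D * a i - D * a j

include ι in
theorem irr (hp2 : p ≠ 2) {n : ℕ} (hn : Odd n) (a : Fin n → ℤ) (D : ℤ)
    (hD : ‖(D : ℚ_[p])‖ = (p : ℝ)⁻¹) (ha : ∀ i j, i ≠ j → ‖((a i - a j : ℤ) : ℚ_[p])‖ = 1)
    (θ y : L) (hy : y ^ 2 = ∏ l, (θ - ((D * a l : ℤ) : L)))
    (hne : ∀ l, θ - ((D * a l : ℤ) : L) ≠ 0) : ∃ T : Finset (Fin n), ∀ j,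
    IsSquare (Algebra.norm ℚ_[p] (θ - ((D * a j : ℤ) : L)) *
      ∏ i ∈ T, ((tor a D i j : ℤ) : ℚ_[p])) := by
  classical
  have hpr : (0 : ℝ) < (p : ℝ)⁻¹ := inv_pos.2 (by exact_mod_cast hp.out.pos)
  have hy0 : y ≠ 0 := by
    intro h
    rw [h, zero_pow two_ne_zero] at hy
    exact (Finset.prod_ne_zero_iff.2 fun l _ => hne l) hy.symm
  have hNy : (Algebra.norm ℚ_[p] y) ^ 2 = ∏ l, Algebra.norm ℚ_[p] (θ - ((D * a l : ℤ) : L)) := by
    rw [← map_pow, hy, map_prod]
  have hNy0 : Algebra.norm ℚ_[p] y ≠ 0 := N_ne_zero hy0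
  have hint : ∀ q : ℤ, ‖ι (q : L)‖ ≤ 1 := fun q => by
    rw [nm_int]
    exact Padic.norm_int_le_one q
  have hDL : ‖ι (D : L)‖ = (p : ℝ)⁻¹ := by rw [nm_int, hD]
  have hD0 : (D : L) ≠ 0 := by
    intro h
    rw [h, map_zero, norm_zero] at hDL
    exact hpr.ne hDL
  have hNint : ∀ q : ℤ, Algebra.norm ℚ_[p] (q : L) = (q : ℚ_[p]) ^ Module.finrank ℚ_[p] L := by
    intro q
    rw [← map_intCast (algebraMap ℚ_[p] L) q, Algebra.norm_algebraMap]
  rcases lt_or_ge (p : ℝ)⁻¹ ‖ι θ‖ with hθ | hθ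
  · -- the pole
    have hθ0 : θ ≠ 0 := by
      rintro rfl
      rw [map_zero, norm_zero] at hθ
      exact absurd hθ (not_lt.2 hpr.le)
    have h1 : ∀ l, IsSquare (Algebra.norm ℚ_[p] (θ - ((D * a l : ℤ) : L)) *
        Algebra.norm ℚ_[p] θ) := by
      intro l
      apply sq_of_near ι hp2
      have e : θ - ((D * a l : ℤ) : L) - θ = -((D : L) * (a l : L)) := by push_cast; ring
      rw [e, map_neg, norm_neg, map_mul, norm_mul, hDL]
      calc (p : ℝ)⁻¹ * ‖ι (a l : L)‖ ≤ (p : ℝ)⁻¹ * 1 := by gcongr; exact hint _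
        _ < ‖ι θ‖ := by rw [mul_one]; exact hθ
    have h2 := prod_sq Finset.univ _ fun l _ => h1 l
    rw [Finset.prod_mul_distrib, ← hNy, Finset.prod_const, Finset.card_univ, Fintype.card_fin] at h2
    have h3 := odd_pow_sq hn (sq_cancel h2 ⟨_, pow_two _⟩ (pow_ne_zero 2 hNy0))
    refine ⟨∅, fun j => ?_⟩
    rw [Finset.prod_empty, mul_one]
    refine sq_cancel ?_ h3 (N_ne_zero hθ0)
    rw [mul_comm]
    exact h1 j
  · obtain ⟨t, ht⟩ : ∃ t : L, t = θ / D := ⟨_, rfl⟩
    have hθt : θ = D * t := by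
      rw [ht]
      field_simp
    have hfac : ∀ l, θ - ((D * a l : ℤ) : L) = (D : L) * (t - (a l : L)) := by
      intro l
      rw [hθt]
      push_cast
      ring
    have htn : ‖ι t‖ ≤ 1 := by
      rw [ht, map_div₀, norm_div, hDL]
      exact (div_le_one hpr).2 hθ
    have hle : ∀ l, ‖ι (t - (a l : L))‖ ≤ 1 := by
      intro l
      rw [map_sub, sub_eq_add_neg]
      refine (IsUltrametricDist.norm_add_le_max _ _).trans ?_
      rw [norm_neg]
      exact max_le htn (hint _)
    by_cases hall : ∀ l, ‖ι (t - (a l : L))‖ = 1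
    · -- all the differences are units
      obtain ⟨k, hk⟩ := hn
      have h1 : ‖ι (y / (D : L) ^ k)‖ ^ 2 = (p : ℝ)⁻¹ := by
        have h2 : ‖ι y‖ ^ 2 = ((p : ℝ)⁻¹) ^ n := by
          rw [← norm_pow, ← map_pow, hy, map_prod, norm_prod]
          rw [Finset.prod_congr rfl (fun l _ => by
            rw [hfac, map_mul, norm_mul, hDL, hall, mul_one] :
            ∀ l ∈ Finset.univ, ‖ι (θ - ((D * a l : ℤ) : L))‖ = (p : ℝ)⁻¹)]
          rw [Finset.prod_const, Finset.card_univ, Fintype.card_fin]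
        rw [map_div₀, norm_div, div_pow, h2, map_pow, norm_pow, hDL, ← pow_mul, hk, mul_comm k 2,
          pow_succ, mul_comm, mul_div_assoc, div_self (pow_ne_zero _ hpr.ne'), mul_one]
      have h2 : ∀ l, IsSquare (Algebra.norm ℚ_[p] (t - (a l : L))) := fun l =>
        unit_N ι hp2 (hall l) h1
      have h3 : ∀ l, Algebra.norm ℚ_[p] (θ - ((D * a l : ℤ) : L)) =
          Algebra.norm ℚ_[p] (t - (a l : L)) * Algebra.norm ℚ_[p] (D : L) := by
        intro l
        rw [hfac, map_mul, mul_comm]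
      have h4 : IsSquare (Algebra.norm ℚ_[p] (D : L)) := by
        have h5 : IsSquare ((∏ l, Algebra.norm ℚ_[p] (t - (a l : L))) *
            (Algebra.norm ℚ_[p] (D : L)) ^ n) := by
          rw [Finset.prod_congr rfl (fun l _ => h3 l), Finset.prod_mul_distrib, Finset.prod_const,
            Finset.card_univ, Fintype.card_fin] at hNy
          rw [← hNy]
          exact ⟨_, pow_two _⟩
        have h6 : ∏ l, Algebra.norm ℚ_[p] (t - (a l : L)) ≠ 0 := by
          rw [Finset.prod_ne_zero_iff]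
          intro l _
          apply N_ne_zero
          intro h7
          apply hne l
          rw [hfac, h7, mul_zero]
        exact odd_pow_sq ⟨k, hk⟩ (sq_cancel h5 (prod_sq _ _ fun l _ => h2 l) h6)
      refine ⟨∅, fun j => ?_⟩
      rw [Finset.prod_empty, mul_one, h3]
      exact (h2 j).mul h4
    · -- one of the differences is not a unit
      push Not at hall
      obtain ⟨i, hi⟩ := hall
      have hi1 : ‖ι (t - (a i : L))‖ < 1 := lt_of_le_of_ne (hle i) hi
      have htor : ∀ j, j ≠ i → tor a D i j = D * a i - D * a j := by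
        intro j hj
        unfold tor
        rw [if_neg hj.symm]
      have h1 : ∀ j, j ≠ i → IsSquare (Algebra.norm ℚ_[p] (θ - ((D * a j : ℤ) : L)) *
          ((tor a D i j : ℤ) : ℚ_[p]) ^ Module.finrank ℚ_[p] L) := by
        intro j hj
        rw [htor j hj, ← hNint]
        apply sq_of_near ι hp2
        have e1 : θ - ((D * a j : ℤ) : L) - ((D * a i - D * a j : ℤ) : L) =
            (D : L) * (t - (a i : L)) := by
          rw [← hfac]
          push_cast
          ring
        have e2 : ((D * a i - D * a j : ℤ) : L) = (D : L) * ((a i - a j : ℤ) : L) := by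
          push_cast
          ring
        rw [e1, e2, map_mul, map_mul, norm_mul, norm_mul, hDL, nm_int, ha i j hj.symm]
        exact mul_lt_mul_of_pos_left hi1 hpr
      have htor0 : ∀ j, ((tor a D i j : ℤ) : ℚ_[p]) ≠ 0 := by
        have h2 : ∀ j, j ≠ i → ((D * a i - D * a j : ℤ) : ℚ_[p]) ≠ 0 := by
          intro j hj h3
          have e2 : ((D * a i - D * a j : ℤ) : ℚ_[p]) = (D : ℚ_[p]) * ((a i - a j : ℤ) : ℚ_[p]) := by
            push_cast
            ring
          have h4 := congrArg norm h3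
          rw [e2, norm_mul, hD, ha i j hj.symm, norm_zero, mul_one] at h4
          exact hpr.ne' h4
        intro j
        by_cases hj : j = i
        · subst hj
          unfold tor
          rw [if_pos rfl]
          push_cast
          rw [Finset.prod_ne_zero_iff]
          intro l hl
          have := h2 l (Finset.ne_of_mem_erase hl)
          push_cast at this
          exact this
        · rw [htor j hj]
          exact h2 j hj
      have h2 : ∀ j, IsSquare (Algebra.norm ℚ_[p] (θ - ((D * a j : ℤ) : L)) *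
          ((tor a D i j : ℤ) : ℚ_[p]) ^ Module.finrank ℚ_[p] L) := by
        intro j
        by_cases hj : j = i
        · subst hj
          have e1 : ((tor a D j j : ℤ) : ℚ_[p]) =
              ∏ l ∈ Finset.univ.erase j, ((tor a D j l : ℤ) : ℚ_[p]) := by
            have : tor a D j j = ∏ l ∈ Finset.univ.erase j, tor a D j l := by
              conv_lhs => unfold tor
              rw [if_pos rfl]
              refine Finset.prod_congr rfl fun l hl => ?_
              rw [htor l (Finset.ne_of_mem_erase hl)]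
            rw [this]
            push_cast
            rfl
          have e2 : (Algebra.norm ℚ_[p] y) ^ 2 = Algebra.norm ℚ_[p] (θ - ((D * a j : ℤ) : L)) *
              ∏ l ∈ Finset.univ.erase j, Algebra.norm ℚ_[p] (θ - ((D * a l : ℤ) : L)) := by
            rw [hNy]
            exact (Finset.mul_prod_erase Finset.univ
              (fun l => Algebra.norm ℚ_[p] (θ - ((D * a l : ℤ) : L))) (Finset.mem_univ j)).symm
          have h3 := prod_sq (Finset.univ.erase j) _ fun l hl => h1 l (Finset.ne_of_mem_erase hl)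
          rw [Finset.prod_mul_distrib, Finset.prod_pow, ← e1] at h3
          set Z := ∏ l ∈ Finset.univ.erase j, Algebra.norm ℚ_[p] (θ - ((D * a l : ℤ) : L)) with hZ
          have hZ0 : Z ≠ 0 := by
            rw [hZ, Finset.prod_ne_zero_iff]
            exact fun l _ => N_ne_zero (hne l)
          refine sq_cancel (x := Z * Z) ?_ ⟨Z, rfl⟩ (mul_ne_zero hZ0 hZ0)
          have e3 : Z * Z * (Algebra.norm ℚ_[p] (θ - ((D * a j : ℤ) : L)) *
              ((tor a D j j : ℤ) : ℚ_[p]) ^ Module.finrank ℚ_[p] L) =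
              (Algebra.norm ℚ_[p] y) ^ 2 * (Z * ((tor a D j j : ℤ) : ℚ_[p]) ^
                Module.finrank ℚ_[p] L) := by
            rw [e2]
            ring
          rw [e3]
          exact IsSquare.mul ⟨_, pow_two _⟩ h3
        · exact h1 j hj
      rcases Nat.even_or_odd (Module.finrank ℚ_[p] L) with ⟨k, hk⟩ | ⟨k, hk⟩
      · refine ⟨∅, fun j => ?_⟩
        rw [Finset.prod_empty, mul_one]
        have h3 := h2 j
        rw [mul_comm] at h3
        refine sq_cancel h3 ⟨((tor a D i j : ℤ) : ℚ_[p]) ^ k, ?_⟩ (pow_ne_zero _ (htor0 j))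
        rw [hk, pow_add]
      · refine ⟨{i}, fun j => ?_⟩
        rw [Finset.prod_singleton]
        have h3 := h2 j
        rw [hk, pow_succ, mul_left_comm] at h3
        refine sq_cancel h3 ⟨((tor a D i j : ℤ) : ℚ_[p]) ^ k, ?_⟩ (pow_ne_zero _ (htor0 j))
        rw [pow_mul', pow_two]

end unit


/-! ### The group of the classes -/

theorem prod_symmDiff' {n : ℕ} (T T' : Finset (Fin n)) (f : Fin n → ℚ_[p]) :
    (∏ i ∈ T, f i) * (∏ i ∈ T', f i) =
      (∏ i ∈ symmDiff T T', f i) * ((∏ i ∈ T ∩ T', f i) * (∏ i ∈ T ∩ T', f i)) := by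
  classical
  rw [← Finset.prod_union_inter, ← mul_assoc]
  congr 1
  rw [← Finset.prod_union]
  · congr 1
    ext x
    simp only [Finset.mem_union, Finset.mem_symmDiff, Finset.mem_inter]
    tauto
  · rw [Finset.disjoint_left]
    intro x hx hx'
    rw [Finset.mem_symmDiff] at hx
    rw [Finset.mem_inter] at hx'
    tauto

section classes

variable {n : ℕ} (a : Fin n → ℤ) (D : ℤ)

theorem tor_ne_zero (hD : ‖(D : ℚ_[p])‖ = (p : ℝ)⁻¹)
    (ha : ∀ i j, i ≠ j → ‖((a i - a j : ℤ) : ℚ_[p])‖ = 1) (i j : Fin n) :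
    ((tor a D i j : ℤ) : ℚ_[p]) ≠ 0 := by
  have hpr : (0 : ℝ) < (p : ℝ)⁻¹ := inv_pos.2 (by exact_mod_cast hp.out.pos)
  have h2 : ∀ i j, i ≠ j → ((D * a i - D * a j : ℤ) : ℚ_[p]) ≠ 0 := by
    intro i j hj h3
    have e2 : ((D * a i - D * a j : ℤ) : ℚ_[p]) = (D : ℚ_[p]) * ((a i - a j : ℤ) : ℚ_[p]) := by
      push_cast
      ring
    have h4 := congrArg norm h3
    rw [e2, norm_mul, hD, ha i j hj, norm_zero, mul_one] at h4
    exact hpr.ne' h4
  unfold tor
  split_ifs with h
  · push_cast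
    rw [Finset.prod_ne_zero_iff]
    intro l hl
    have := h2 i l (Finset.ne_of_mem_erase hl).symm
    push_cast at this
    exact this
  · exact h2 i j h

/-- the product of all the 2-torsion classes is trivial -/
theorem tor_univ (hn : Odd n) (j : Fin n) : IsSquare (∏ i, ((tor a D i j : ℤ) : ℚ_[p])) := by
  classical
  have e1 : ∏ i, tor a D i j = (∏ l ∈ Finset.univ.erase j, (D * a j - D * a l)) *
      ∏ l ∈ Finset.univ.erase j, (D * a l - D * a j) := by
    rw [← Finset.mul_prod_erase Finset.univ (fun i => tor a D i j) (Finset.mem_univ j)]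
    congr 1
    · unfold tor
      rw [if_pos rfl]
    · refine Finset.prod_congr rfl fun l hl => ?_
      unfold tor
      rw [if_neg (Finset.ne_of_mem_erase hl)]
  have e2 : ∏ l ∈ Finset.univ.erase j, (D * a l - D * a j) =
      ∏ l ∈ Finset.univ.erase j, (D * a j - D * a l) := by
    have h1 : ∀ l ∈ Finset.univ.erase j, D * a l - D * a j = (-1) * (D * a j - D * a l) :=
      fun l _ => by ring
    rw [Finset.prod_congr rfl h1, Finset.prod_mul_distrib, Finset.prod_const,
      Finset.card_erase_of_mem (Finset.mem_univ j), Finset.card_univ, Fintype.card_fin]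
    obtain ⟨k, rfl⟩ := hn
    rw [Nat.add_sub_cancel, pow_mul, neg_one_sq, one_pow, one_mul]
  have e3 : ∏ i, ((tor a D i j : ℤ) : ℚ_[p]) = ((∏ i, tor a D i j : ℤ) : ℚ_[p]) := by
    push_cast
    rfl
  rw [e3, e1, e2, Int.cast_mul]
  exact ⟨_, rfl⟩

/-- the class of the set `T` of even cardinality, at `j` -/
def cl (T : Finset (Fin n)) (j : Fin n) : ℤ :=
  if j ∈ T then -D * ∏ i ∈ Finset.univ.filter (fun i => i ∉ T), (a j - a i)
  else ∏ i ∈ T, (a j - a i)

theorem tor_cl (hn : Odd n) (T : Finset (Fin n)) (hT : Even T.card) (j : Fin n) :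
    ∃ w : ℤ, ∏ i ∈ T, tor a D i j = cl a D T j * (w * w) := by
  classical
  unfold cl
  split_ifs with hj
  · obtain ⟨k, hk⟩ := hn
    obtain ⟨l, hl⟩ := hT
    have hpos : 0 < T.card := Finset.card_pos.2 ⟨j, hj⟩
    have e1 : ∏ i ∈ T, tor a D i j = (∏ l ∈ Finset.univ.erase j, (D * a j - D * a l)) *
        ∏ l ∈ T.erase j, (D * a l - D * a j) := by
      rw [← Finset.mul_prod_erase T (fun i => tor a D i j) hj]
      congr 1
      · unfold tor
        rw [if_pos rfl]
      · refine Finset.prod_congr rfl fun l hl => ?_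
        unfold tor
        rw [if_neg (Finset.ne_of_mem_erase hl)]
    have e2 : ∏ l ∈ T.erase j, (D * a l - D * a j) =
        (-D) ^ (T.card - 1) * ∏ l ∈ T.erase j, (a j - a l) := by
      rw [← Finset.card_erase_of_mem hj, ← Finset.prod_const, ← Finset.prod_mul_distrib]
      exact Finset.prod_congr rfl fun l _ => by ring
    have e3 : ∏ l ∈ Finset.univ.erase j, (D * a j - D * a l) =
        D ^ (2 * k) * ((∏ l ∈ T.erase j, (a j - a l)) *
          ∏ i ∈ Finset.univ.filter (fun i => i ∉ T), (a j - a i)) := by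
      have h1 : Finset.univ.erase j = T.erase j ∪ Finset.univ.filter (fun i => i ∉ T) := by
        ext x
        simp only [Finset.mem_erase, Finset.mem_univ, and_true, Finset.mem_union,
          Finset.mem_filter, true_and]
        constructor
        · intro h
          by_cases hx : x ∈ T
          · exact Or.inl ⟨h, hx⟩
          · exact Or.inr hx
        · rintro (h | h)
          · exact h.1
          · rintro rfl
            exact h hj
      have h2 : Disjoint (T.erase j) (Finset.univ.filter (fun i => i ∉ T)) := by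
        rw [Finset.disjoint_left]
        intro x hx hx'
        exact (Finset.mem_filter.1 hx').2 (Finset.mem_of_mem_erase hx)
      have h3 : D ^ (2 * k) = D ^ (Finset.univ.erase j).card := by
        rw [Finset.card_erase_of_mem (Finset.mem_univ j), Finset.card_univ, Fintype.card_fin, hk,
          Nat.add_sub_cancel]
      rw [← Finset.prod_union h2, ← h1, h3, ← Finset.prod_const, ← Finset.prod_mul_distrib]
      exact Finset.prod_congr rfl fun l _ => by ring
    refine ⟨D ^ k * D ^ (l - 1) * ∏ l ∈ T.erase j, (a j - a l), ?_⟩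
    rw [e1, e2, e3]
    have h4 : T.card - 1 = 2 * (l - 1) + 1 := by omega
    rw [h4, pow_succ, pow_mul D, pow_mul (-D), neg_sq]
    ring
  · obtain ⟨l, hl⟩ := hT
    refine ⟨D ^ l, ?_⟩
    have e1 : ∏ i ∈ T, tor a D i j = (-D) ^ T.card * ∏ i ∈ T, (a j - a i) := by
      rw [← Finset.prod_const, ← Finset.prod_mul_distrib]
      refine Finset.prod_congr rfl fun i hi => ?_
      unfold tor
      rw [if_neg (by rintro rfl; exact hj hi)]
      ring
    rw [e1, hl, ← two_mul, pow_mul, neg_sq]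
    ring

end classes

end Pool.Agent.TH344.TJ.Loc

namespace Pool.Agent.TH344.TJ

open Finset Polynomial Pool.Agent.TH344.JG Pool.Agent.TH344.JG.Loc Pool.Agent.TH344.TJ.Loc

theorem loct : S_LOCT := by
  classical
  intro m p _ a D d hm hp2 ha hpD hpD2 hsq hloc
  obtain ⟨u, v, hu, hdvd, hi⟩ := hloc
  have hn : Odd (m + 1) := hm.add_one
  have hpp := Nat.prime_iff_prime_int.1 (Fact.out : p.Prime)
  have hp0 : (p : ℤ) ≠ 0 := hpp.ne_zero
  have hpQ : (p : ℚ_[p]) ≠ 0 := by exact_mod_cast hp0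
  obtain ⟨D', hD'⟩ := hpD
  have hpD' : ¬ (p : ℤ) ∣ D' := by
    rintro ⟨q, rfl⟩
    exact hpD2 ⟨q, by rw [hD']; ring⟩
  have hD : ‖(D : ℚ_[p])‖ = (p : ℝ)⁻¹ := by
    rw [hD', Int.cast_mul, norm_mul, norm_eq_one_of_not_dvd hpD', mul_one, Int.cast_natCast,
      Padic.norm_p]
  have ha' : ∀ i j, i ≠ j → ‖((a i - a j : ℤ) : ℚ_[p])‖ = 1 := fun i j h =>
    norm_eq_one_of_not_dvd (ha i j h)
  have htor0 := tor_ne_zero (p := p) a D hD ha'
  have hW := ind (p := p) (fun i => D * a i)
    (fun δ => ∃ T : Finset (Fin (m + 1)), ∀ j,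
      IsSquare (δ j * ∏ i ∈ T, ((tor a D i j : ℤ) : ℚ_[p])))
    ⟨∅, fun j => by rw [Finset.prod_empty, mul_one]; exact IsSquare.one⟩
    (fun δ δ' _ _ hδ hδ' => by
      obtain ⟨T, hT⟩ := hδ
      obtain ⟨T', hT'⟩ := hδ'
      refine ⟨symmDiff T T', fun j => ?_⟩
      have h1 := (hT j).mul (hT' j)
      set Z := ∏ i ∈ T ∩ T', ((tor a D i j : ℤ) : ℚ_[p]) with hZ
      have hZ0 : Z ≠ 0 := by
        rw [hZ, Finset.prod_ne_zero_iff]
        exact fun i _ => htor0 i j
      refine sq_cancel (x := Z * Z) ?_ ⟨Z, rfl⟩ (mul_ne_zero hZ0 hZ0)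
      have h2 := prod_symmDiff' T T' (fun i => ((tor a D i j : ℤ) : ℚ_[p]))
      have h3 : Z * Z * (δ j * δ' j * ∏ i ∈ symmDiff T T', ((tor a D i j : ℤ) : ℚ_[p])) =
          δ j * (∏ i ∈ T, ((tor a D i j : ℤ) : ℚ_[p])) *
            (δ' j * ∏ i ∈ T', ((tor a D i j : ℤ) : ℚ_[p])) := by
        calc _ = δ j * δ' j * ((∏ i ∈ symmDiff T T', ((tor a D i j : ℤ) : ℚ_[p])) * (Z * Z)) := by
              ring
          _ = δ j * δ' j * ((∏ i ∈ T, ((tor a D i j : ℤ) : ℚ_[p])) *
              ∏ i ∈ T', ((tor a D i j : ℤ) : ℚ_[p])) := by rw [h2]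
          _ = _ := by ring
      rw [h3]
      exact h1)
    (fun L _ _ _ ι θ y hy hne => irr ι hp2 hn a D hD ha' θ y hy hne)
    _ u v rfl hu hdvd (fun i => (hi i).1)
  obtain ⟨T0, hT0⟩ := hW
  set δ : Fin (m + 1) → ℚ_[p] := fun l => (-1) ^ u.natDegree * u.eval ((D * a l : ℤ) : ℚ_[p]) with hδ
  have hδ0 : ∀ l, δ l ≠ 0 := fun l =>
    mul_ne_zero (pow_ne_zero _ (neg_ne_zero.2 one_ne_zero)) (hi l).1
  have hT0' : ∀ j, IsSquare (δ j * ∏ i ∈ T0, ((tor a D i j : ℤ) : ℚ_[p])) := hT0
  obtain ⟨T, hTe, hT⟩ : ∃ T : Finset (Fin (m + 1)), Even T.card ∧ ∀ j,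
      IsSquare (δ j * ∏ i ∈ T, ((tor a D i j : ℤ) : ℚ_[p])) := by
    rcases Nat.even_or_odd T0.card with h | h
    · exact ⟨T0, h, hT0'⟩
    · refine ⟨T0ᶜ, ?_, fun j => ?_⟩
      · rw [Finset.card_compl, Fintype.card_fin]
        exact Nat.Odd.sub_odd hn h
      · set Z := ∏ i ∈ T0, ((tor a D i j : ℤ) : ℚ_[p]) with hZ
        have hZ0 : Z ≠ 0 := by
          rw [hZ, Finset.prod_ne_zero_iff]
          exact fun i _ => htor0 i j
        refine sq_cancel (x := Z * Z) ?_ ⟨Z, rfl⟩ (mul_ne_zero hZ0 hZ0)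
        have h1 := (hT0' j).mul (tor_univ (p := p) a D hn j)
        rw [← Finset.prod_mul_prod_compl T0 (fun i => ((tor a D i j : ℤ) : ℚ_[p])), ← hZ] at h1
        have h2 : Z * Z * (δ j * ∏ i ∈ T0ᶜ, ((tor a D i j : ℤ) : ℚ_[p])) =
            δ j * Z * (Z * ∏ i ∈ T0ᶜ, ((tor a D i j : ℤ) : ℚ_[p])) := by ring
        rw [h2]
        exact h1
  have hd0 : ∀ l, ((d l : ℤ) : ℚ_[p]) ≠ 0 := fun l => by
    exact_mod_cast (hsq l).ne_zero
  have hcl0 : ∀ j, ((cl a D T j : ℤ) : ℚ_[p]) ≠ 0 := by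
    intro j h
    obtain ⟨w, hw⟩ := tor_cl a D hn T hTe j
    have h1 : ∏ i ∈ T, ((tor a D i j : ℤ) : ℚ_[p]) = 0 := by
      have h2 : ((∏ i ∈ T, tor a D i j : ℤ) : ℚ_[p]) = ((cl a D T j * (w * w) : ℤ) : ℚ_[p]) := by
        rw [hw]
      rw [Int.cast_mul, h, zero_mul, Int.cast_prod] at h2
      exact h2
    rw [Finset.prod_eq_zero_iff] at h1
    obtain ⟨i, _, h3⟩ := h1
    exact htor0 i j h3
  have hcd : ∀ j, IsSquare (((d j : ℤ) : ℚ_[p]) * ((cl a D T j : ℤ) : ℚ_[p])) := by
    intro j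
    obtain ⟨w, hw⟩ := tor_cl a D hn T hTe j
    have h1 : ∏ i ∈ T, ((tor a D i j : ℤ) : ℚ_[p]) = ((cl a D T j : ℤ) : ℚ_[p]) * (w * w) := by
      have h2 : ((∏ i ∈ T, tor a D i j : ℤ) : ℚ_[p]) = ((cl a D T j * (w * w) : ℤ) : ℚ_[p]) := by
        rw [hw]
      rw [Int.cast_mul, Int.cast_mul, Int.cast_prod] at h2
      exact h2
    have hw0 : (w : ℚ_[p]) ≠ 0 := by
      intro h
      rw [h, zero_mul, mul_zero, Finset.prod_eq_zero_iff] at h1
      obtain ⟨i, _, h3⟩ := h1
      exact htor0 i j h3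
    have h2 : IsSquare (δ j * ((d j : ℤ) : ℚ_[p])) := (hi j).2
    have h3 := (hT j).mul h2
    rw [h1] at h3
    refine sq_cancel (x := (δ j * (w : ℚ_[p])) * (δ j * (w : ℚ_[p]))) ?_ ⟨_, rfl⟩
      (mul_ne_zero (mul_ne_zero (hδ0 j) hw0) (mul_ne_zero (hδ0 j) hw0))
    have h4 : δ j * w * (δ j * w) * (((d j : ℤ) : ℚ_[p]) * ((cl a D T j : ℤ) : ℚ_[p])) =
        δ j * (((cl a D T j : ℤ) : ℚ_[p]) * (w * w)) * (δ j * ((d j : ℤ) : ℚ_[p])) := by ring
    rw [h4]
    exact h3
  have hprod : ∀ (s : Finset (Fin (m + 1))) (j : Fin (m + 1)), j ∉ s →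
      ¬ (p : ℤ) ∣ ∏ i ∈ s, (a j - a i) := by
    intro s j hj h
    obtain ⟨i, hi1, hi2⟩ := hpp.exists_mem_finset_dvd h
    exact ha j i (by rintro rfl; exact hj hi1) hi2
  have hmem : ∀ j, j ∈ T ↔ (p : ℤ) ∣ d j := by
    intro j
    have hev := even_add_of_isSquare (hcd j) (hd0 j) (hcl0 j)
    constructor
    · intro hj
      by_contra h
      have h1 : cl a D T j = p * (-D' * ∏ i ∈ univ.filter (fun i => i ∉ T), (a j - a i)) := by
        unfold cl
        rw [if_pos hj, hD']
        ring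
      have h2 : ¬ (p : ℤ) ∣ -D' * ∏ i ∈ univ.filter (fun i => i ∉ T), (a j - a i) := by
        intro h3
        rcases hpp.dvd_or_dvd h3 with h4 | h4
        · exact hpD' ((dvd_neg).1 h4)
        · exact hprod (univ.filter (fun i => i ∉ T)) j (fun h5 => (mem_filter.1 h5).2 hj) h4
      have h3 : ((-D' * ∏ i ∈ univ.filter (fun i => i ∉ T), (a j - a i) : ℤ) : ℚ_[p]) ≠ 0 := by
        rw [← norm_pos_iff, norm_eq_one_of_not_dvd h2]
        exact one_pos
      rw [val_of_not_dvd h, h1, Int.cast_mul, Int.cast_natCast, Padic.valuation_mul hpQ h3,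
        Padic.valuation_p, val_of_not_dvd h2] at hev
      exact absurd hev (by decide)
    · intro hdj
      by_contra hj
      have h1 : ¬ (p : ℤ) ∣ cl a D T j := by
        unfold cl
        rw [if_neg hj]
        exact hprod T j hj
      rw [val_of_not_dvd h1, add_zero] at hev
      exact not_dvd_of_even (hsq j) hev hdj
  have hE : ∀ i, decide ((p : ℤ) ∣ d i) = ext (fun j => decide ((p : ℤ) ∣ d j.castSucc)) i := by
    intro i
    refine Fin.lastCases ?_ (fun j => ?_) i
    · unfold ext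
      rw [Fin.snoc_last]
      beta_reduce
      have h1 : T = univ.filter (fun i => (p : ℤ) ∣ d i) := by
        ext i
        rw [mem_filter, hmem]
        exact ⟨fun h => ⟨mem_univ _, h⟩, fun h => h.2⟩
      have h2 : T.card = (univ.filter (fun j : Fin m => decide ((p : ℤ) ∣ d j.castSucc) = true)).card +
          if (p : ℤ) ∣ d (Fin.last m) then 1 else 0 := by
        rw [h1, card_filter, Fin.sum_univ_castSucc, card_filter]
        simp only [decide_eq_true_eq]
      by_cases h3 : (p : ℤ) ∣ d (Fin.last m)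
      · rw [if_pos h3] at h2
        rw [decide_eq_true h3]
        symm
        rw [decide_eq_true_eq]
        obtain ⟨k, hk⟩ := hTe
        omega
      · rw [if_neg h3] at h2
        rw [decide_eq_false h3]
        symm
        rw [decide_eq_false_iff_not]
        obtain ⟨k, hk⟩ := hTe
        omega
    · unfold ext
      rw [Fin.snoc_castSucc]
  refine ⟨hE, fun j => ?_⟩
  have hT1 : univ.filter (fun i => ext (fun j => decide ((p : ℤ) ∣ d j.castSucc)) i = true) = T := by
    ext i
    rw [mem_filter, ← hE, decide_eq_true_eq, hmem]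
    exact ⟨fun h => h.2, fun h => ⟨mem_univ _, h⟩⟩
  have hT2 : univ.filter (fun i => ext (fun j => decide ((p : ℤ) ∣ d j.castSucc)) i = false) =
      univ.filter (fun i => i ∉ T) := by
    ext i
    rw [mem_filter, mem_filter, ← hE, decide_eq_false_iff_not, hmem]
  have hcj := hcd j.castSucc
  constructor
  · intro h
    have hj : j.castSucc ∉ T := fun h1 => h ((hmem _).1 h1)
    have h1 : cT a (fun l => decide ((p : ℤ) ∣ d l.castSucc)) j = cl a D T j.castSucc := by
      unfold cT cl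
      rw [hT1, if_neg hj, if_neg]
      rw [decide_eq_true_eq]
      exact h
    rw [h1]
    apply Pool.Agent.W407.SE.jac
    · intro h2
      rcases hpp.dvd_or_dvd h2 with h3 | h3
      · exact h h3
      · unfold cl at h3
        rw [if_neg hj] at h3
        exact hprod T _ hj h3
    · rw [Int.cast_mul]
      exact hcj
  · intro h
    have hj : j.castSucc ∈ T := (hmem _).2 h
    obtain ⟨k, hk, hkp⟩ := sqfree_split (hsq j.castSucc) h
    have h1 : cT a (fun l => decide ((p : ℤ) ∣ d l.castSucc)) j =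
        -∏ i ∈ univ.filter (fun i => i ∉ T), (a j.castSucc - a i) := by
      unfold cT
      rw [hT2, if_pos]
      rw [decide_eq_true_eq]
      exact h
    have h2 : cl a D T j.castSucc = p * (D' * cT a (fun l => decide ((p : ℤ) ∣ d l.castSucc)) j) := by
      rw [h1]
      unfold cl
      rw [if_pos hj, hD']
      ring
    have h3 : ¬ (p : ℤ) ∣ cT a (fun l => decide ((p : ℤ) ∣ d l.castSucc)) j := by
      rw [h1, dvd_neg]
      exact hprod (univ.filter (fun i => i ∉ T)) _ (fun h5 => (mem_filter.1 h5).2 hj)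
    rw [hk, hD', Int.mul_ediv_cancel_left _ hp0, Int.mul_ediv_cancel_left _ hp0]
    apply Pool.Agent.W407.SE.jac
    · intro h4
      rcases hpp.dvd_or_dvd h4 with h4 | h4
      · rcases hpp.dvd_or_dvd h4 with h4 | h4
        · exact hkp h4
        · exact hpD' h4
      · exact h3 h4
    · refine sq_cancel (x := (p : ℚ_[p]) * (p : ℚ_[p])) ?_ ⟨_, rfl⟩ (mul_ne_zero hpQ hpQ)
      have h7 : (p : ℚ_[p]) * (p : ℚ_[p]) *
          ((k * D' * cT a (fun l => decide ((p : ℤ) ∣ d l.castSucc)) j : ℤ) : ℚ_[p]) =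
          ((d j.castSucc : ℤ) : ℚ_[p]) * ((cl a D T j.castSucc : ℤ) : ℚ_[p]) := by
        rw [h2, hk]
        push_cast
        ring
      rw [h7]
      exact hcj

end Pool.Agent.TH344.TJ
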