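import Mathlib
import Pool.Agent.TH344.TJ.Stm
import Pool.Agent.TH841.PT.Mak
import Pool.Agent.TH841.PT.Fin1

/-!
# Project TJ: the main average for the moments of the local count (TJ-MAK)
-/

set_option autoImplicit false

namespace Pool.Agent.TH344.TJ

open Finset Polynomial Pool.Agent.W262.RK Pool.Agent.W307.RT Pool.Agent.W307.RS
open Pool.Agent.TH841.PT Pool.Agent.TH344.JG

open Pool.Agent.H474R2.PG (rho)

lemma mak_ext_castSucc {m : ℕ} (v : Fin m → Bool) (j : Fin m) : ext v j.castSucc = v j := by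
  unfold ext
  exact Fin.snoc_castSucc (α := fun _ => Bool) _ _ _

lemma mak_cT_ne {m : ℕ} {a : Fin (m + 1) → ℤ} (ha : Function.Injective a) (v : Fin m → Bool)
    (j : Fin m) : cT a v j ≠ 0 := by
  unfold cT
  split_ifs with h
  · refine neg_ne_zero.2 (prod_ne_zero_iff.2 fun i hi => ?_)
    rw [mem_filter] at hi
    intro h0
    have h1 : j.castSucc = i := ha (by linarith)
    rw [← h1, mak_ext_castSucc, h] at hi
    exact absurd hi.2 (by decide)
  · refine prod_ne_zero_iff.2 fun i hi => ?_
    rw [mem_filter] at hi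
    intro h0
    have h1 : j.castSucc = i := ha (by linarith)
    rw [← h1, mak_ext_castSucc] at hi
    exact h hi.2

lemma mak_κT_ne {m k : ℕ} {a : Fin (m + 1) → ℤ} (ha : Function.Injective a) (i : IT m k) :
    κT a i ≠ 0 := by
  unfold κT
  exact prod_ne_zero_iff.2 fun b _ => prod_ne_zero_iff.2 fun j _ => mak_cT_ne ha _ _

lemma mak_LT_self {m k : ℕ} (i : IT m k) : LT i i = false := by
  unfold LT
  have h := i.2
  rw [h]
  decide

/-- TJ-MAK: the main average for the moments of the local count. -/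
theorem makt_of (h1 : S_EXPT) (h2 : S_CMBT) : S_MAKT := by
  intro m k a hm ha D hD hd c lam hlam hc hk
  have hat : ATG := Pool.Agent.TH841.PT.atg
  have hl : LWP := LWPf.lwp_of fact
  have ht : TWP := twp
  have hgd : GDP := GDPf.gdp
  obtain ⟨zg, hzg⟩ := hgd D hD
  choose E0 zt hE0 hzt using fun i : IT m k => ht D hD hd (κT a i) (mak_κT_ne ha i)
  refine ⟨zg + (2 * c + 2) + univ.sup zt + ∑ i, ∑ j, (a i - a j).natAbs, fun z hz => ?_⟩
  have hzt' : ∀ i, zt i ≤ z := fun i => (le_sup (f := zt) (mem_univ i)).trans (by omega)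
  choose Ct hCt using fun i : IT m k => hzt i z (hzt' i)
  obtain ⟨Cl, hCl⟩ := hl D hD hd z
  have hG := hzg z (by omega)
  have h4 : (0 : ℝ) < 2 ^ (m * k) := by positivity
  have h41 : (1 : ℝ) ≤ 2 ^ (m * k) := one_le_pow₀ (by norm_num)
  have hrc : ∀ p, p.Prime → lam * rz D z p ≤ c := by
    intro p hp
    unfold rz
    split_ifs with h
    · refine le_trans (mul_le_mul_of_nonneg_left ?_ hlam.le) hc
      exact_mod_cast (hG p hp h).1
    · rw [mul_zero]
      exact Nat.cast_nonneg _
  set b : IT m k → ℕ → ℝ := fun _ p => if p.Prime then lam * rz D z p / 2 ^ (m * k) else 0 with hb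
  have hSl : ∀ y, Sp (fun p => lam * rho D p) z y = lam * Sp (fun p => rho D p) z y := by
    intro y
    unfold Sp
    rw [mul_sum]
    refine sum_congr rfl fun p _ => ?_
    ring
  have hSb : ∀ i y, Sp (b i) z y = lam * Sp (fun p => rho D p) z y / 2 ^ (m * k) := by
    intro i y
    rw [← Sp_rz]
    unfold Sp
    rw [mul_sum, sum_div]
    refine sum_congr rfl fun p hp => ?_
    rw [hb]
    simp only
    rw [if_pos (mem_filter.1 hp).2]
    ring
  have hS0 : ∀ y, 0 ≤ Sp (fun p => rho D p) z y := fun y => Sp_nonneg (fun p => Nat.cast_nonneg _) z y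
  have hEs : ∀ i, E0 i ≤ ∑ i, E0 i := fun i =>
    single_le_sum (f := E0) (fun j _ => hE0 j) (mem_univ i)
  have hCs : ∀ i, Ct i ≤ ∑ i, |Ct i| := fun i =>
    (le_abs_self _).trans (single_le_sum (f := fun i => |Ct i|) (fun j _ => abs_nonneg _) (mem_univ i))
  have hE0s : 0 ≤ ∑ i, E0 i := sum_nonneg fun i _ => hE0 i
  have hC0s : 0 ≤ ∑ i, |Ct i| := sum_nonneg fun i _ => abs_nonneg _
  obtain ⟨C, hC⟩ := hat (IT m k) b LT (κT a) c z (lam / 2 ^ (m * k))
    (lam * ∑ i, |Ct i| + lam * |Cl|) (lam * ∑ i, E0 i) (fun y => lam * Sp (fun p => rho D p) z y)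
    (by
      intro i p
      rw [hb]
      simp only
      split_ifs with hp
      · refine ⟨div_nonneg (mul_nonneg hlam.le (rz_nonneg _ _ _)) h4.le, ?_⟩
        rw [div_le_div_iff₀ h4 (by norm_num)]
        have h1 := hrc p hp
        have h2 : (2 * c : ℝ) ≤ 2 ^ (m * k) := by exact_mod_cast hk
        linarith
      · exact ⟨le_rfl, by norm_num⟩)
    mak_LT_self (by omega) (by positivity) (mul_nonneg hlam.le hE0s)
    (by
      intro i y hy
      rw [hSb i]
      have h1 := hCl y hy
      have h2 : lam / 2 ^ (m * k) * Real.log (Real.log y) ≤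
          lam * (Sp (fun p => rho D p) z y + Cl) / 2 ^ (m * k) := by
        rw [div_mul_eq_mul_div]
        exact div_le_div_of_nonneg_right (mul_le_mul_of_nonneg_left h1 hlam.le) h4.le
      have h3 : lam * Cl / 2 ^ (m * k) ≤ lam * |Cl| := by
        rw [div_le_iff₀ h4, mul_assoc]
        refine mul_le_mul_of_nonneg_left ?_ hlam.le
        have := le_abs_self Cl
        have := abs_nonneg Cl
        nlinarith
      have h5 : lam * (Sp (fun p => rho D p) z y + Cl) / 2 ^ (m * k) =
          lam * Sp (fun p => rho D p) z y / 2 ^ (m * k) + lam * Cl / 2 ^ (m * k) := by ring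
      have h6 : 0 ≤ lam * ∑ i, |Ct i| := mul_nonneg hlam.le hC0s
      linarith)
    (by
      intro y hy U hU
      simp only [hSb]
      rw [sum_const, nsmul_eq_mul]
      have h1 := h2 m k U hU
      have h2 : (U.card : ℝ) ≤ 2 ^ (m * k) := by exact_mod_cast h1
      rw [← mul_div_assoc, div_le_iff₀ h4, mul_comm]
      exact mul_le_mul_of_nonneg_left h2 (mul_nonneg hlam.le (hS0 y)))
    (by
      intro i y r e hy hr hsq hpr
      have h1 := hCt i y r e hy hr hsq hpr
      have hll := loglog_nonneg (by omega : 2 ≤ z) hr hpr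
      have h2 : ∑ p ∈ PS z y, b i p * (Jr p r * Jr (κT a i) p * x4 e p) / (p : ℝ) =
          lam * (∑ p ∈ PS z y, (rho D p : ℝ) * (Jr p r * Jr (κT a i) p * x4 e p) / (p : ℝ)) /
            2 ^ (m * k) := by
        rw [mul_sum, sum_div]
        refine sum_congr rfl fun p hp => ?_
        have hp' := mem_filter.1 hp
        rw [hb]
        simp only
        rw [if_pos hp'.2]
        unfold rz
        rw [if_pos (mem_Ioc.1 hp'.1).1]
        ring
      rw [h2, hSb i]
      have h3 : (∑ p ∈ PS z y, (rho D p : ℝ) * (Jr p r * Jr (κT a i) p * x4 e p) / (p : ℝ)) ≤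
          (∑ i, E0 i) * Real.log (Real.log r) + ∑ i, |Ct i| := by
        have := mul_le_mul_of_nonneg_right (hEs i) hll
        linarith [hCs i]
      have h5 : 0 ≤ lam * ((∑ i, E0 i) * Real.log (Real.log r) + ∑ i, |Ct i|) := by positivity
      have h6 : lam * (∑ p ∈ PS z y, (rho D p : ℝ) *
          (Jr p r * Jr (κT a i) p * x4 e p) / (p : ℝ)) / 2 ^ (m * k) ≤
          lam * ((∑ i, E0 i) * Real.log (Real.log r) + ∑ i, |Ct i|) := by
        rw [div_le_iff₀ h4]
        have h8 := mul_le_mul_of_nonneg_left h3 hlam.le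
        nlinarith
      have h7 : 0 ≤ 1 / 2 * (lam * Sp (fun p => rho D p) z y / 2 ^ (m * k)) := by
        have := hS0 y
        positivity
      have h8 : 0 ≤ lam * |Cl| := mul_nonneg hlam.le (abs_nonneg Cl)
      linarith)
  refine ⟨C, fun y hy => ?_⟩
  have haz : ∀ i j, (a i - a j).natAbs ≤ z := by
    intro i j
    have h1 := single_le_sum (f := fun j => (a i - a j).natAbs) (fun _ _ => Nat.zero_le _) (mem_univ j)
    have h2 := single_le_sum (f := fun i => ∑ j, (a i - a j).natAbs) (fun _ _ => Nat.zero_le _)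
      (mem_univ i)
    omega
  rw [hSl, h1 m k a (fun p => lam * rz D z p) c z y (by omega) ha haz]
  refine le_trans (le_of_eq ?_) ((le_abs_self _).trans (hC y hy))
  refine sum_congr rfl fun d _ => ?_
  congr 1
  refine prod_congr rfl fun i _ => ?_
  unfold gp
  refine prod_congr rfl fun p hp => ?_
  rw [hb]
  simp only
  rw [if_pos (Nat.prime_of_mem_primeFactors hp)]

end Pool.Agent.TH344.TJ
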