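import Mathlib
import Pool.Agent.TH344.TJ.Stm
import Pool.Agent.TH841.PT.PrimeM
import Pool.Agent.TH841.PT.Fin2

/-!
# Project TJ, job TJ-PRM: the moments for all polynomials, and at prime arguments (helper113)

After `Pool/Agent/TH841/PT/Sel.lean` and `Pool/Agent/TH841/PT/PrimeM.lean`.
-/

set_option autoImplicit false

namespace Pool.Agent.TH344.TJ

open Finset Polynomial Pool.Agent.W262.RK
open Pool.Agent.TH841.PT

open Pool.Agent.H474R2.PG (rho)

namespace Prm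

variable {R : ℤ → ℝ}

lemma abs_bd {C M e : ℝ} (hM : 0 ≤ M) (he0 : 0 ≤ e) (he : e ≤ 1) : C * (M * e) ≤ |C| * M := by
  calc C * (M * e) ≤ |C| * (M * e) :=
        mul_le_mul_of_nonneg_right (le_abs_self _) (mul_nonneg hM he0)
    _ ≤ |C| * (M * 1) :=
        mul_le_mul_of_nonneg_left (mul_le_mul_of_nonneg_left he hM) (abs_nonneg _)
    _ = |C| * M := by rw [mul_one]

/-- large exponents, squarefree polynomials -/
theorem avsq_of (h : AVR R) (D : ℤ[X]) (k0 B : ℕ) (hD : Squarefree (D.map (Int.castRingHom ℚ)))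
    (hd : 0 < D.natDegree) (hk : 2 * D.natDegree ≤ 4 ^ k0) : ∃ C : ℝ, ∀ (N : ℤ) (X : ℕ), 1 ≤ X →
    N.natAbs ≤ X ^ B → ∑ t ∈ (Icc 1 X).filter (fun t : ℕ => D.eval (N + (t : ℤ)) ≠ 0),
      R (D.eval (N + (t : ℤ))) ^ k0 ≤ C * X := by
  obtain ⟨z0, hz0⟩ := h D 1 1 k0 B (by rwa [mul_one]) hd (by rwa [mul_one]) 0
    (fun p hp _ t hd => by
      rw [eval_one] at hd
      exact absurd hd (Nat.prime_iff_prime_int.1 hp).not_dvd_one)
  obtain ⟨C, hC⟩ := hz0 z0 le_rfl
  refine ⟨|C|, fun N X hX hN => ?_⟩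
  have h1 := hC N X hX hN ((Icc 1 X).filter (fun t : ℕ => D.eval (N + (t : ℤ)) ≠ 0))
    (filter_subset _ _) (fun t ht => ⟨by rw [one_mul]; exact (mem_filter.1 ht).2, by
      intro p hp _ _ hd
      rw [eval_one] at hd
      exact absurd hd (Nat.prime_iff_prime_int.1 hp).not_dvd_one⟩)
  rw [one_mul] at h1
  refine h1.trans (abs_bd (Nat.cast_nonneg _) (Real.exp_pos _).le ?_)
  rw [Real.exp_le_one_iff, neg_nonpos]
  exact Sp_nonneg (fun p => Nat.cast_nonneg _) _ _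

/-- the moments, squarefree polynomials, all exponents -/
theorem r_sq (hE : ELM R) (h : AVR R) (D : ℤ[X]) (k L : ℕ)
    (hD : Squarefree (D.map (Int.castRingHom ℚ))) :
    ∃ C : ℝ, ∀ (N : ℤ) (M : ℕ), 1 ≤ M → |N| ≤ (M : ℤ) ^ L →
      ∑ t ∈ (Ioc N (N + M)).filter (fun t => D.eval t ≠ 0), R (D.eval t) ^ k ≤ C * M := by
  classical
  have hR0 := hE.1
  by_cases hd : 0 < D.natDegree
  · set k' := k + 2 * D.natDegree with hk'
    have hk2 : 2 * D.natDegree ≤ 4 ^ k' := by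
      have h1 : k' < 4 ^ k' := Nat.lt_pow_self (by norm_num)
      omega
    obtain ⟨C, hC⟩ := avsq_of h D k' L hD hd hk2
    refine ⟨1 + C, fun N M hM hN => ?_⟩
    have h1 := to_Ioc (fun t => 1 + R (D.eval t) ^ k')
      (fun t => add_nonneg zero_le_one (pow_nonneg (hR0 _) _)) (fun t => D.eval t ≠ 0) N M
    have h2 : ∑ t ∈ (Ioc N (N + M)).filter (fun t => D.eval t ≠ 0), R (D.eval t) ^ k ≤
        ∑ t ∈ (Ioc N (N + M)).filter (fun t => D.eval t ≠ 0), (1 + R (D.eval t) ^ k') := by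
      refine sum_le_sum fun t _ => ?_
      have h0 := hR0 (D.eval t)
      rcases le_total (R (D.eval t)) 1 with h3 | h3
      · have := pow_le_one₀ (n := k) h0 h3
        have := pow_nonneg h0 k'
        linarith
      · have := pow_le_pow_right₀ h3 (by omega : k ≤ k')
        linarith
    refine h2.trans (h1.trans ?_)
    rw [sum_add_distrib, add_mul]
    refine add_le_add ?_ ?_
    · rw [sum_const, nsmul_eq_mul, mul_one, one_mul]
      have := card_filter_le (Icc 1 M) (fun t : ℕ => D.eval (N + (t : ℤ)) ≠ 0)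
      rw [Nat.card_Icc] at this
      exact_mod_cast this.trans (by omega)
    · convert hC N M hM (natAbs_le_of hN)
  · obtain ⟨c, hc⟩ : ∃ c : ℤ, D = C c :=
      ⟨D.coeff 0, Polynomial.eq_C_of_natDegree_eq_zero (by omega)⟩
    refine ⟨R c ^ k, fun N M hM hN => ?_⟩
    have h0 : 0 ≤ R c ^ k := pow_nonneg (hR0 _) _
    calc ∑ t ∈ (Ioc N (N + M)).filter (fun t => D.eval t ≠ 0), R (D.eval t) ^ k
        = ((Ioc N (N + M)).filter (fun t => D.eval t ≠ 0)).card * R c ^ k := by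
          rw [hc]
          simp only [eval_C]
          rw [sum_const, nsmul_eq_mul]
      _ ≤ M * R c ^ k := by
          apply mul_le_mul_of_nonneg_right _ h0
          have := card_filter_le (Ioc N (N + M)) (fun t => D.eval t ≠ 0)
          rw [Int.card_Ioc] at this
          exact_mod_cast this.trans (by omega)
      _ = _ := mul_comm _ _

/-- invariance under squares -/
theorem r_fac (hE : ELM R) {D D₁ D₂ : ℤ[X]} (hfac : D = D₁ * D₂ ^ 2) {t : ℤ}
    (ht : D.eval t ≠ 0) (k : ℕ) : D₁.eval t ≠ 0 ∧ R (D.eval t) ^ k ≤ R (D₁.eval t) ^ k := by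
  have hev : D.eval t = D₁.eval t * D₂.eval t ^ 2 := by
    rw [hfac, eval_mul, eval_pow]
  have h1 : D₁.eval t ≠ 0 := by
    intro h0
    apply ht
    rw [hev, h0, zero_mul]
  have h2 : D₂.eval t ≠ 0 := by
    intro h0
    apply ht
    rw [hev, h0]
    ring
  refine ⟨h1, pow_le_pow_left₀ (hE.1 _) ?_ k⟩
  rw [hev]
  exact hE.2.2.1 _ _ h1 h2

section

variable {r : ℕ} {G : Fin r → ℤ[X]}

open Classical in
/-- the small arguments -/
lemma small_part (hE : ELM R) (h : AVR R) (P : ℤ[X])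
    (hP : Squarefree (P.map (Int.castRingHom ℚ))) (hG : Irr G) (k : ℕ) :
    ∃ C : ℝ, 0 ≤ C ∧ ∀ (N : ℤ) (M : ℕ), 2 ≤ M →
      ∑ t ∈ ((Ioc N (N + M)).filter (fun t => P.eval t ≠ 0)).filter
        (fun t => ∃ i, ((G i).eval t).natAbs ^ 2 ≤ M),
        R (P.eval t) ^ k ≤ C * (M / (Real.log M) ^ r) := by
  obtain ⟨C, hC⟩ := r_sq hE h P k 1 hP
  choose K hK using fun i => grow (hG.deg i)
  obtain ⟨C2, hC20, hC2⟩ := sqrt_log r
  set Kt := ∑ i, K i with hKt
  refine ⟨|C| * (2 * Kt + 3) * C2, by positivity, fun N M hM => ?_⟩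
  have hM1 : (1 : ℝ) ≤ M := by exact_mod_cast (by omega : 1 ≤ M)
  set T : ℕ := Nat.sqrt M + Kt with hT
  have h1 := hC (-(T : ℤ) - 1) (2 * T + 1) (by omega) (by
    rw [pow_one, abs_le]
    push_cast
    constructor <;> omega)
  have h2 : ∑ t ∈ ((Ioc N (N + M)).filter (fun t => P.eval t ≠ 0)).filter
        (fun t => ∃ i, ((G i).eval t).natAbs ^ 2 ≤ M), R (P.eval t) ^ k ≤
      ∑ t ∈ (Ioc (-(T : ℤ) - 1) (-(T : ℤ) - 1 + (2 * T + 1 : ℕ))).filter (fun t => P.eval t ≠ 0),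
        R (P.eval t) ^ k := by
    refine sum_le_sum_of_subset_of_nonneg ?_ fun t _ _ => pow_nonneg (hE.1 _) _
    intro t ht
    rw [mem_filter, mem_filter] at ht
    obtain ⟨⟨_, ht2⟩, i, hi⟩ := ht
    rw [mem_filter, mem_Ioc]
    have h3 := hK i t
    have h4 : ((G i).eval t).natAbs ≤ Nat.sqrt M := Nat.le_sqrt'.2 hi
    have h5 : K i ≤ Kt := single_le_sum (f := K) (fun _ _ => Nat.zero_le _) (mem_univ i)
    have h6 : t.natAbs ≤ T := by omega
    refine ⟨⟨by omega, by push_cast; omega⟩, ht2⟩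
  have h3 : (Nat.sqrt M : ℝ) ≤ Real.sqrt M := by
    apply Real.le_sqrt_of_sq_le
    exact_mod_cast Nat.sqrt_le' M
  have h4 : (1 : ℝ) ≤ Real.sqrt M := Real.one_le_sqrt.2 hM1
  refine h2.trans (h1.trans ?_)
  have h5 : ((2 * T + 1 : ℕ) : ℝ) ≤ (2 * Kt + 3) * Real.sqrt M := by
    rw [hT]
    push_cast
    have h6 : (Kt : ℝ) ≤ Kt * Real.sqrt M := le_mul_of_one_le_right (Nat.cast_nonneg _) h4
    linarith
  calc C * ((2 * T + 1 : ℕ) : ℝ) ≤ |C| * ((2 * T + 1 : ℕ) : ℝ) :=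
        mul_le_mul_of_nonneg_right (le_abs_self _) (Nat.cast_nonneg _)
    _ ≤ |C| * ((2 * Kt + 3) * Real.sqrt M) := mul_le_mul_of_nonneg_left h5 (abs_nonneg _)
    _ ≤ |C| * ((2 * Kt + 3) * (C2 * (M / (Real.log M) ^ r))) :=
        mul_le_mul_of_nonneg_left (mul_le_mul_of_nonneg_left (hC2 M hM) (by positivity))
          (abs_nonneg _)
    _ = _ := by ring

open Classical in
/-- **the moments at prime arguments**, the main case -/
theorem main_part (hE : ELM R) (h : AVR R) (hG : Irr G) (D H : ℤ[X]) (hD : 0 < D.natDegree)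
    (hDG : Squarefree (mQ (D * ∏ i, G i))) (hHD : Squarefree (mQ (H * D))) (zH : ℕ)
    (hH : ∀ p : ℕ, p.Prime → zH < p → ∀ t : ℤ, (p : ℤ) ∣ H.eval t → (p : ℤ) ∣ (∏ i, G i).eval t)
    (k L : ℕ) :
    ∃ C : ℝ, 0 ≤ C ∧ ∀ (N : ℤ) (M : ℕ), 2 ≤ M → |N| ≤ (M : ℤ) ^ L →
      ∑ t ∈ (Ioc N (N + M)).filter (fun t => (H * D).eval t ≠ 0 ∧ AllPr G t),
        R ((H * D).eval t) ^ k ≤ C * (M / (Real.log M) ^ r) := by
  set k' := k + 2 * (D * ∏ i, G i).natDegree with hk'
  have hk2 : 2 * (D * ∏ i, G i).natDegree ≤ 4 ^ k' := by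
    have h1 : k' < 4 ^ k' := Nat.lt_pow_self (by norm_num)
    omega
  obtain ⟨z1, hz1⟩ := h D (∏ i, G i) H k' L hDG hD hk2 zH hH
  obtain ⟨z2, hz2⟩ := exp_prod GDPf.gdp hG
  obtain ⟨C1, hC1⟩ := hz1 (z1 + z2) (by omega)
  obtain ⟨C2, hC20, hC2⟩ := hz2 (z1 + z2) (by omega)
  obtain ⟨C3, hC30, hC3⟩ := small_part hE h (H * D) hHD hG k
  refine ⟨|C1| * C2 + C3, by positivity, fun N M hM hN => ?_⟩
  have hM0 : (0 : ℝ) ≤ M := Nat.cast_nonneg _
  have hge : ∀ t, (H * D).eval t ≠ 0 → 1 ≤ R ((H * D).eval t) := fun t ht => hE.2.1 _ ht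
  -- the large part
  have hlarge : ∑ t ∈ (Ioc N (N + M)).filter (fun t => (H * D).eval t ≠ 0 ∧ AllPr G t ∧
      ∀ i, M < ((G i).eval t).natAbs ^ 2), R ((H * D).eval t) ^ k ≤
        |C1| * C2 * (M / (Real.log M) ^ r) := by
    have h1 : ∑ t ∈ (Ioc N (N + M)).filter (fun t => (H * D).eval t ≠ 0 ∧ AllPr G t ∧
      ∀ i, M < ((G i).eval t).natAbs ^ 2), R ((H * D).eval t) ^ k ≤
        ∑ t ∈ (Ioc N (N + M)).filter (fun t => (H * D).eval t ≠ 0 ∧ AllPr G t ∧
      ∀ i, M < ((G i).eval t).natAbs ^ 2), R ((H * D).eval t) ^ k' := by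
      refine sum_le_sum fun t ht => ?_
      exact pow_le_pow_right₀ (hge t (mem_filter.1 ht).2.1) (by omega)
    refine h1.trans ((to_Ioc (fun t => R ((H * D).eval t) ^ k')
      (fun t => pow_nonneg (hE.1 _) _) (fun t => (H * D).eval t ≠ 0 ∧ AllPr G t ∧
      ∀ i, M < ((G i).eval t).natAbs ^ 2) N M).trans ?_)
    refine (hC1 N M (by omega) (natAbs_le_of hN) _ (filter_subset _ _) ?_).trans ?_
    · intro t ht
      have ht' := (mem_filter.1 ht).2
      exact ⟨ht'.1, Sft_of ht'.2.1 ht'.2.2⟩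
    · calc C1 * (M * Real.exp (-Sp (fun p => (rho (∏ i, G i) p : ℝ)) (z1 + z2) M))
          ≤ |C1| * (M * Real.exp (-Sp (fun p => (rho (∏ i, G i) p : ℝ)) (z1 + z2) M)) :=
            mul_le_mul_of_nonneg_right (le_abs_self _) (by positivity)
        _ ≤ |C1| * (M * (C2 / (Real.log M) ^ r)) :=
            mul_le_mul_of_nonneg_left (mul_le_mul_of_nonneg_left (hC2 M hM) hM0) (abs_nonneg _)
        _ = _ := by ring
  have hsmall := hC3 N M hM
  refine le_trans ?_ ((add_le_add hlarge hsmall).trans (le_of_eq (by ring)))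
  have hsub : (Ioc N (N + M)).filter (fun t => (H * D).eval t ≠ 0 ∧ AllPr G t) ⊆
      (Ioc N (N + M)).filter (fun t => (H * D).eval t ≠ 0 ∧ AllPr G t ∧
      ∀ i, M < ((G i).eval t).natAbs ^ 2) ∪
      ((Ioc N (N + M)).filter (fun t => (H * D).eval t ≠ 0)).filter
        (fun t => ∃ i, ((G i).eval t).natAbs ^ 2 ≤ M) := by
    intro t ht
    rw [mem_filter] at ht
    rw [mem_union, mem_filter, mem_filter, mem_filter]
    by_cases hi : ∃ i, ((G i).eval t).natAbs ^ 2 ≤ M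
    · exact Or.inr ⟨⟨ht.1, ht.2.1⟩, hi⟩
    · push Not at hi
      exact Or.inl ⟨ht.1, ht.2.1, ht.2.2, hi⟩
  refine (sum_le_sum_of_subset_of_nonneg hsub fun t _ _ => pow_nonneg (hE.1 _) _).trans ?_
  have hnn : 0 ≤ ∑ t ∈ ((Ioc N (N + M)).filter (fun t => (H * D).eval t ≠ 0 ∧ AllPr G t ∧
      ∀ i, M < ((G i).eval t).natAbs ^ 2)) ∩
      (((Ioc N (N + M)).filter (fun t => (H * D).eval t ≠ 0)).filter
        (fun t => ∃ i, ((G i).eval t).natAbs ^ 2 ≤ M)), R ((H * D).eval t) ^ k :=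
    sum_nonneg fun t _ => pow_nonneg (hE.1 _) _
  have := sum_union_inter (s₁ := (Ioc N (N + M)).filter (fun t => (H * D).eval t ≠ 0 ∧
      AllPr G t ∧ ∀ i, M < ((G i).eval t).natAbs ^ 2))
      (s₂ := ((Ioc N (N + M)).filter (fun t => (H * D).eval t ≠ 0)).filter
        (fun t => ∃ i, ((G i).eval t).natAbs ^ 2 ≤ M))
      (f := fun t => R ((H * D).eval t) ^ k)
  linarith

open Classical in
/-- the moments at prime arguments, squarefree polynomials -/
theorem r_prime (hE : ELM R) (h : AVR R) (hG : Irr G) (P : ℤ[X])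
    (hP : Squarefree (P.map (Int.castRingHom ℚ))) (k L : ℕ) :
    ∃ C : ℝ, 0 ≤ C ∧ ∀ (N : ℤ) (M : ℕ), 2 ≤ M → |N| ≤ (M : ℤ) ^ L →
      ∑ t ∈ (Ioc N (N + M)).filter (fun t => P.eval t ≠ 0 ∧ AllPr G t),
        R (P.eval t) ^ k ≤ C * (M / (Real.log M) ^ r) := by
  obtain ⟨S, c, hc, hPc, hS⟩ := exists_irr P hP
  set S1 : Finset ℤ[X] := S.filter (fun f => ∃ i, Associated f (G i)) with hS1
  set S2 : Finset ℤ[X] := S.filter (fun f => ¬ ∃ i, Associated f (G i)) with hS2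
  set H : ℤ[X] := C c * ∏ f ∈ S1, f with hH
  set D : ℤ[X] := ∏ f ∈ S2, f with hD
  have hPHD : P = H * D := by
    rw [hPc, hH, hD, mul_assoc]
    congr 1
    exact (prod_filter_mul_prod_filter_not S _ _).symm
  have hprim : ∀ f ∈ S, f.IsPrimitive := fun f hf => (hS f hf).1.isPrimitive (hS f hf).2.ne'
  have hirrQ : ∀ f ∈ S, Irreducible (mQ f) := fun f hf =>
    ((hprim f hf).irreducible_iff_irreducible_map_fraction_map (K := ℚ)).1 (hS f hf).1
  have hsqD : Squarefree (mQ D) := by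
    have h1 : mQ P = mQ H * mQ D := by rw [hPHD, mQ, Polynomial.map_mul]
    exact Squarefree.squarefree_of_dvd (Dvd.intro_left _ h1.symm) hP
  have hassoc : ∀ f ∈ S1, ∃ i, f = G i ∨ f = -G i := by
    intro f hf
    obtain ⟨i, hi⟩ := (mem_filter.1 hf).2
    refine ⟨i, ?_⟩
    obtain ⟨u, hu⟩ := hi.symm
    obtain ⟨w, hw, hw'⟩ := Polynomial.isUnit_iff.1 u.isUnit
    rcases Int.isUnit_iff.1 hw with h1 | h1
    · left
      rw [← hu, ← hw', h1]
      simp
    · right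
      rw [← hu, ← hw', h1]
      simp
  rcases Nat.eq_zero_or_pos D.natDegree with h0 | hpos
  · -- the values have few prime factors
    have hS20 : S2 = ∅ := by
      by_contra hne
      obtain ⟨f, hf⟩ := nonempty_iff_ne_empty.2 hne
      have h1 : D ≠ 0 := prod_ne_zero_iff.2 fun g hg => (hS g (mem_filter.1 hg).1).1.ne_zero
      have h2 : f.natDegree ≤ D.natDegree := natDegree_le_of_dvd (dvd_prod_of_mem _ hf) h1
      have h3 := (hS f (mem_filter.1 hf).1).2
      omega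
    have hD1 : D = 1 := by rw [hD, hS20, prod_empty]
    obtain ⟨C1, hC10, hC1⟩ := count_prime avh hG L
    obtain ⟨hR0, hR1, hR2, A, W0, hA, hRA⟩ := hE
    set W : ℕ := c.natAbs.primeFactors.card + S1.card + W0 with hW
    have hA0 : 0 ≤ A := zero_le_one.trans hA
    refine ⟨(A ^ W) ^ k * C1, by positivity, fun N M hM hN => ?_⟩
    have hb : ∀ t : ℤ, P.eval t ≠ 0 → AllPr G t → R (P.eval t) ≤ A ^ W := by
      intro t ht hpr
      refine (hRA _ ht).trans ?_
      refine pow_le_pow_right₀ hA ?_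
      rw [hW]
      refine Nat.add_le_add_right ?_ W0
      have hPe : P.eval t = c * ∏ f ∈ S1, f.eval t := by
        rw [hPHD, hD1, mul_one, hH, eval_mul, eval_C, eval_prod]
      have hsub : (P.eval t).natAbs.primeFactors ⊆ c.natAbs.primeFactors ∪
            S1.image (fun f => (f.eval t).natAbs) := by
        intro p hp
        have hpp := Nat.prime_of_mem_primeFactors hp
        have hpd := Int.natCast_dvd.2 (Nat.dvd_of_mem_primeFactors hp)
        have hpi := Nat.prime_iff_prime_int.1 hpp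
        rw [hPe] at hpd
        rw [mem_union]
        rcases hpi.dvd_mul.1 hpd with h1 | h1
        · left
          rw [Nat.mem_primeFactors]
          exact ⟨hpp, Int.natCast_dvd.1 h1, Int.natAbs_ne_zero.2 hc⟩
        · right
          obtain ⟨f, hf, hfd⟩ := (hpi.dvd_finsetProd_iff _).1 h1
          rw [mem_image]
          refine ⟨f, hf, ?_⟩
          obtain ⟨i, hi⟩ := hassoc f hf
          have h2 : (f.eval t).natAbs = ((G i).eval t).natAbs := by
            rcases hi with hi | hi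
            · rw [hi]
            · rw [hi, eval_neg, Int.natAbs_neg]
          rw [h2]
          have h3 : p ∣ ((G i).eval t).natAbs := by
            rw [← h2]
            exact Int.natCast_dvd.1 hfd
          exact ((Nat.prime_dvd_prime_iff_eq hpp (hpr i)).1 h3).symm
      refine (card_le_card hsub).trans ((card_union_le _ _).trans ?_)
      exact Nat.add_le_add_left card_image_le _
    calc ∑ t ∈ (Ioc N (N + M)).filter (fun t => P.eval t ≠ 0 ∧ AllPr G t), R (P.eval t) ^ k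
        ≤ ∑ t ∈ (Ioc N (N + M)).filter (fun t => P.eval t ≠ 0 ∧ AllPr G t), (A ^ W) ^ k := by
          refine sum_le_sum fun t ht => ?_
          have ht' := (mem_filter.1 ht).2
          exact pow_le_pow_left₀ (hR0 _) (hb t ht'.1 ht'.2) k
      _ = (A ^ W) ^ k *
          (((Ioc N (N + M)).filter (fun t => P.eval t ≠ 0 ∧ AllPr G t)).card : ℝ) := by
          rw [sum_const, nsmul_eq_mul, mul_comm]
      _ ≤ (A ^ W) ^ k * (C1 * (M / (Real.log M) ^ r)) := by
          refine mul_le_mul_of_nonneg_left ?_ (by positivity)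
          exact hC1 N M hM hN _ (filter_subset _ _) fun t ht => (mem_filter.1 ht).2.2
      _ = _ := by ring
  · -- the main case
    rw [hPHD]
    refine main_part hE h hG D H hpos ?_ (by rw [← hPHD]; exact hP) c.natAbs ?_ k L
    · unfold mQ
      rw [Polynomial.map_mul]
      refine (squarefree_mul_iff).2 ⟨?_, hsqD, hG.sqf⟩
      rw [hD, Polynomial.map_prod, Polynomial.map_prod]
      refine (IsCoprime.prod_left fun f hf => IsCoprime.prod_right fun i _ => ?_).isRelPrime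
      have hf' := mem_filter.1 hf
      refine ((hirrQ f hf'.1).coprime_iff_not_dvd).2 fun hd => hf'.2 ⟨i, ?_⟩
      have h1 : f ∣ G i :=
        (IsPrimitive.Int.dvd_iff_map_cast_dvd_map_cast f (G i) (hprim f hf'.1)).2 hd
      exact (hS f hf'.1).1.associated_of_dvd (hG.irr i) h1
    · intro p hp hz t hd
      have hpi := Nat.prime_iff_prime_int.1 hp
      rw [hH, eval_mul, eval_C, eval_prod] at hd
      rcases hpi.dvd_mul.1 hd with h1 | h1
      · exfalso
        have := Nat.le_of_dvd (Int.natAbs_pos.2 hc) (Int.natCast_dvd.1 h1)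
        omega
      · obtain ⟨f, hf, hfd⟩ := (hpi.dvd_finsetProd_iff _).1 h1
        obtain ⟨i, hi⟩ := hassoc f hf
        rw [eval_prod]
        refine Dvd.dvd.trans ?_ (dvd_prod_of_mem _ (mem_univ i))
        rcases hi with hi | hi
        · rwa [hi] at hfd
        · rwa [hi, eval_neg, dvd_neg] at hfd

end

end Prm

variable {R : ℤ → ℝ}

theorem poly_of (hE : ELM R) (h : AVR R) (D : ℤ[X]) (hD : D ≠ 0) (k L : ℕ) :
    ∃ C : ℝ, ∀ (N : ℤ) (M : ℕ), 1 ≤ M → |N| ≤ (M : ℤ) ^ L →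
      ∑ t ∈ (Ioc N (N + M)).filter (fun t => D.eval t ≠ 0), R (D.eval t) ^ k ≤ C * M := by
  obtain ⟨D₁, D₂, hfac, hsq⟩ := exists_fac D hD
  obtain ⟨C, hC⟩ := Prm.r_sq hE h D₁ k L hsq
  refine ⟨C, fun N M hM hN => le_trans ?_ (hC N M hM hN)⟩
  refine (sum_le_sum fun t ht => (Prm.r_fac hE hfac (mem_filter.1 ht).2 k).2).trans
    (sum_le_sum_of_subset_of_nonneg (f := fun t => R (D₁.eval t) ^ k) ?_ ?_)
  · intro t ht
    rw [mem_filter] at ht ⊢
    exact ⟨ht.1, (Prm.r_fac hE hfac ht.2 k).1⟩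
  · intro t _ _
    exact pow_nonneg (hE.1 _) _

open Classical in
theorem prime_of (hE : ELM R) (h : AVR R) {r : ℕ} {G : Fin r → ℤ[X]} (hG : Irr G) (D : ℤ[X])
    (hD : D ≠ 0) (k L : ℕ) :
    ∃ C : ℝ, 0 ≤ C ∧ ∀ (N : ℤ) (M : ℕ), 2 ≤ M → |N| ≤ (M : ℤ) ^ L →
      ∑ t ∈ (Ioc N (N + M)).filter (fun t => D.eval t ≠ 0 ∧ AllPr G t), R (D.eval t) ^ k ≤
        C * (M / (Real.log M) ^ r) := by
  obtain ⟨D₁, D₂, hfac, hsq⟩ := exists_fac D hD
  obtain ⟨C, hC0, hC⟩ := Prm.r_prime hE h hG D₁ hsq k L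
  refine ⟨C, hC0, fun N M hM hN => le_trans ?_ (hC N M hM hN)⟩
  refine (sum_le_sum fun t ht => (Prm.r_fac hE hfac (mem_filter.1 ht).2.1 k).2).trans
    (sum_le_sum_of_subset_of_nonneg (f := fun t => R (D₁.eval t) ^ k) ?_ ?_)
  · intro t ht
    rw [mem_filter] at ht ⊢
    exact ⟨ht.1, (Prm.r_fac hE hfac ht.2.1 k).1, ht.2.2⟩
  · intro t _ _
    exact pow_nonneg (hE.1 _) _

end Pool.Agent.TH344.TJ
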