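import Pool.Agent.TH344.TJ.Stm
import Pool.Agent.TH344.JG.Sel
import Pool.Agent.TH344.JG.Loc

/-!
# Project TJ: the Selmer groups of the twists are bounded by the local count
-/

set_option autoImplicit false

namespace Pool.Agent.TH344.TJ

open Finset Pool.Agent.W262.RK Pool.Agent.W307.RT Pool.Agent.W307.RS
open Pool.Agent.TH841.PT Pool.Agent.TH344.JG

namespace SelT

/-! ### Products and symbols -/

/-- products over symmetric differences -/
lemma prod_symm {ι : Type*} [DecidableEq ι] (g : ι → ℤ) (S T : Finset ι)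
    (h : ∀ i ∈ S ∩ T, g i * g i = 1) :
    ∏ i ∈ symmDiff S T, g i = (∏ i ∈ S, g i) * ∏ i ∈ T, g i := by
  have h1 := Finset.prod_inter_mul_prod_sdiff S T g
  have h2 := Finset.prod_inter_mul_prod_sdiff T S g
  have h3 : ∏ q ∈ symmDiff S T, g q = (∏ q ∈ S \ T, g q) * ∏ q ∈ T \ S, g q := by
    have h4 : symmDiff S T = (S \ T) ∪ (T \ S) := rfl
    rw [h4, Finset.prod_union]
    exact disjoint_sdiff_sdiff
  have h5 : (∏ q ∈ S ∩ T, g q) * ∏ q ∈ S ∩ T, g q = 1 := by
    rw [← Finset.prod_mul_distrib]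
    exact Finset.prod_eq_one h
  rw [Finset.inter_comm T S] at h2
  rw [h3, ← h1, ← h2]
  calc _ = ((∏ q ∈ S ∩ T, g q) * ∏ q ∈ S ∩ T, g q) *
        ((∏ q ∈ S \ T, g q) * ∏ q ∈ T \ S, g q) := by rw [h5, one_mul]
    _ = _ := by ring

lemma jac_prod' {ι : Type*} (p : ℕ) (f : ι → ℤ) (S : Finset ι) :
    jacobiSym (∏ i ∈ S, f i) p = ∏ i ∈ S, jacobiSym (f i) p := by
  classical
  induction S using Finset.induction_on with
  | empty => simp [jacobiSym.one_left]
  | insert q S hq ih =>
    rw [Finset.prod_insert hq, Finset.prod_insert hq, jacobiSym.mul_left, ih]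

/-! ### The parity coordinate -/

lemma ext_castSucc {m : ℕ} (v : Fin m → Bool) (j : Fin m) : ext v j.castSucc = v j := by
  unfold ext
  rw [Fin.snoc_castSucc]

lemma ext_last {m : ℕ} (v : Fin m → Bool) : ext v (Fin.last m) =
    decide ((univ.filter (fun j => v j = true)).card % 2 = 1) := by
  unfold ext
  rw [Fin.snoc_last]

lemma ext_xor {m : ℕ} (v v' : Fin m → Bool) (i : Fin (m + 1)) :
    ext (fun l => xor (v l) (v' l)) i = xor (ext v i) (ext v' i) := by
  refine Fin.lastCases ?_ (fun j => ?_) i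
  · rw [ext_last, ext_last, ext_last]
    have h1 : univ.filter (fun j => xor (v j) (v' j) = true) =
        symmDiff (univ.filter (fun j => v j = true)) (univ.filter (fun j => v' j = true)) := by
      ext j
      simp only [mem_filter, mem_univ, true_and, mem_symmDiff]
      cases v j <;> cases v' j <;> simp
    rw [h1]
    set A := univ.filter (fun j => v j = true) with hA
    set B := univ.filter (fun j => v' j = true) with hB
    have h2 : (symmDiff A B).card = (A \ B).card + (B \ A).card := by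
      have h4 : symmDiff A B = (A \ B) ∪ (B \ A) := rfl
      rw [h4, Finset.card_union_of_disjoint disjoint_sdiff_sdiff]
    have h3 := Finset.card_sdiff_add_card_inter A B
    have h4 := Finset.card_sdiff_add_card_inter B A
    rw [Finset.inter_comm B A] at h4
    by_cases hx : A.card % 2 = 1 <;> by_cases hy : B.card % 2 = 1
    · rw [decide_eq_true hx, decide_eq_true hy, decide_eq_false (by omega)]; rfl
    · rw [decide_eq_true hx, decide_eq_false hy, decide_eq_true (by omega)]; rfl
    · rw [decide_eq_false hx, decide_eq_true hy, decide_eq_true (by omega)]; rfl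
    · rw [decide_eq_false hx, decide_eq_false hy, decide_eq_false (by omega)]; rfl
  · rw [ext_castSucc, ext_castSucc, ext_castSucc]

lemma jcT_true {m : ℕ} (p : ℕ) (a : Fin (m + 1) → ℤ) (v : Fin m → Bool) (j : Fin m)
    (hv : v j = true) : jacobiSym (cT a v j) p = jacobiSym (-1) p *
      ∏ i ∈ univ.filter (fun i => ext v i = false), jacobiSym (a j.castSucc - a i) p := by
  unfold cT
  rw [if_pos hv, ← jac_prod', ← jacobiSym.mul_left]
  congr 1
  ring

lemma jcT_false {m : ℕ} (p : ℕ) (a : Fin (m + 1) → ℤ) (v : Fin m → Bool) (j : Fin m)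
    (hv : v j = false) : jacobiSym (cT a v j) p =
      ∏ i ∈ univ.filter (fun i => ext v i = true), jacobiSym (a j.castSucc - a i) p := by
  unfold cT
  rw [if_neg (by rw [hv]; simp), ← jac_prod']

/-- the constants are multiplicative -/
lemma cT_mul {m p : ℕ} (hp : p.Prime) (a : Fin (m + 1) → ℤ)
    (hpa : ∀ i j, i ≠ j → ¬ (p : ℤ) ∣ a i - a j) (v v' : Fin m → Bool) (j : Fin m) :
    jacobiSym (cT a v j) p * jacobiSym (cT a v' j) p =
      jacobiSym (cT a (fun l => xor (v l) (v' l)) j) p := by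
  have hg : ∀ i, i ≠ j.castSucc → jacobiSym (a j.castSucc - a i) p *
      jacobiSym (a j.castSucc - a i) p = 1 := fun i hi =>
    SelPf.jac_sq hp (hpa _ _ (Ne.symm hi))
  have hJ : jacobiSym (-1) p * jacobiSym (-1) p = 1 := by
    refine SelPf.jac_sq hp ?_
    intro h
    have h2 := Int.natCast_dvd.1 h
    have h3 : p ∣ 1 := by simpa using h2
    exact hp.one_lt.ne' (Nat.dvd_one.1 h3)
  have hne : ∀ (u : Fin m → Bool) (b : Bool), u j ≠ b → ∀ i, ext u i = b → i ≠ j.castSucc := by
    rintro u b hu i hi rfl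
    rw [ext_castSucc] at hi
    exact hu hi
  cases hv : v j <;> cases hv' : v' j
  · rw [jcT_false p a v j hv, jcT_false p a v' j hv', jcT_false p a _ j (by simp [hv, hv']),
      ← prod_symm]
    · refine Finset.prod_congr ?_ fun _ _ => rfl
      ext i
      simp only [mem_filter, mem_univ, true_and, mem_symmDiff, ext_xor]
      cases ext v i <;> cases ext v' i <;> simp
    · intro i hi
      rw [mem_inter, mem_filter] at hi
      exact hg i (hne v true (by rw [hv]; simp) i hi.1.2)
  · rw [jcT_false p a v j hv, jcT_true p a v' j hv', jcT_true p a _ j (by simp [hv, hv'])]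
    have e : (∏ i ∈ univ.filter (fun i => ext v i = true), jacobiSym (a j.castSucc - a i) p) *
        (jacobiSym (-1) p * ∏ i ∈ univ.filter (fun i => ext v' i = false),
          jacobiSym (a j.castSucc - a i) p) = jacobiSym (-1) p *
        ((∏ i ∈ univ.filter (fun i => ext v i = true), jacobiSym (a j.castSucc - a i) p) *
        (∏ i ∈ univ.filter (fun i => ext v' i = false), jacobiSym (a j.castSucc - a i) p)) := by
      ring
    rw [e, ← prod_symm]
    · congr 1
      refine Finset.prod_congr ?_ fun _ _ => rfl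
      ext i
      simp only [mem_filter, mem_univ, true_and, mem_symmDiff, ext_xor]
      cases ext v i <;> cases ext v' i <;> simp
    · intro i hi
      rw [mem_inter, mem_filter] at hi
      exact hg i (hne v true (by rw [hv]; simp) i hi.1.2)
  · rw [jcT_true p a v j hv, jcT_false p a v' j hv', jcT_true p a _ j (by simp [hv, hv']),
      mul_assoc, ← prod_symm]
    · congr 1
      refine Finset.prod_congr ?_ fun _ _ => rfl
      ext i
      simp only [mem_filter, mem_univ, true_and, mem_symmDiff, ext_xor]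
      cases ext v i <;> cases ext v' i <;> simp
    · intro i hi
      rw [mem_inter, mem_filter] at hi
      exact hg i (hne v false (by rw [hv]; simp) i hi.1.2)
  · rw [jcT_true p a v j hv, jcT_true p a v' j hv', jcT_false p a _ j (by simp [hv, hv'])]
    have e : (jacobiSym (-1) p * ∏ i ∈ univ.filter (fun i => ext v i = false),
          jacobiSym (a j.castSucc - a i) p) *
        (jacobiSym (-1) p * ∏ i ∈ univ.filter (fun i => ext v' i = false),
          jacobiSym (a j.castSucc - a i) p) = (jacobiSym (-1) p * jacobiSym (-1) p) *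
        ((∏ i ∈ univ.filter (fun i => ext v i = false), jacobiSym (a j.castSucc - a i) p) *
        (∏ i ∈ univ.filter (fun i => ext v' i = false), jacobiSym (a j.castSucc - a i) p)) := by
      ring
    rw [e, hJ, one_mul, ← prod_symm]
    · refine Finset.prod_congr ?_ fun _ _ => rfl
      ext i
      simp only [mem_filter, mem_univ, true_and, mem_symmDiff, ext_xor]
      cases ext v i <;> cases ext v' i <;> simp
    · intro i hi
      rw [mem_inter, mem_filter] at hi
      exact hg i (hne v false (by rw [hv]; simp) i hi.1.2)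

/-! ### The data of an element -/

section

variable {m : ℕ} (a : Fin (m + 1) → ℤ) (D : ℤ) (s : ℕ)

/-- the hypothesis on the primes of `s` -/
def HS : Prop := ∀ p : ℕ, p.Prime → p ∣ s → p ≠ 2 ∧
    (p : ℤ) ∣ D ∧ ¬ (p : ℤ) ^ 2 ∣ D ∧ ∀ i j, i ≠ j → ¬ (p : ℤ) ∣ a i - a j

/-- the bad primes -/
def BB : Finset ℕ := (2 * D.natAbs * ∏ c : PR (m + 1), (df a c).natAbs).primeFactors.filter
      (fun q => ¬ q ∣ s)

/-- the primes of `s` that divide `d_j`, `j < m` -/
def ww (d : Fin (m + 1) → ℤ) : Fin m → Finset ℕ :=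
  fun j => s.primeFactors.filter (fun q : ℕ => (q : ℤ) ∣ d j.castSucc)

/-- the rest -/
def tau (d : Fin (m + 1) → ℤ) : Fin (m + 1) → Bool × Finset ℕ :=
  fun l => (decide (0 < d l), (BB a D s).filter (fun q : ℕ => (q : ℤ) ∣ d l))

variable {a D s}

lemma mem_s (hsq : Squarefree s) {q : ℕ} : q ∈ s.primeFactors ↔ q.Prime ∧ q ∣ s := by
  rw [Nat.mem_primeFactors]
  exact ⟨fun h => ⟨h.1, h.2.1⟩, fun h => ⟨h.1, h.2, hsq.ne_zero⟩⟩

lemma mem_ww (hsq : Squarefree s) (d : Fin (m + 1) → ℤ) {q : ℕ} (hq : q.Prime) (h : q ∣ s)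
    (j : Fin m) : q ∈ ww s d j ↔ (q : ℤ) ∣ d j.castSucc := by
  unfold ww
  rw [mem_filter, mem_s hsq]
  exact ⟨fun h2 => h2.2, fun h2 => ⟨⟨hq, h⟩, h2⟩⟩

lemma sel_good (hm : Even m) (ha : Function.Injective a) (hD : D ≠ 0) {d : Fin (m + 1) → ℤ}
    (hd : d ∈ SelJ (fun i => D * a i)) {q : ℕ} (hq : q.Prime) {l : Fin (m + 1)}
    (hl : (q : ℤ) ∣ d l) :
    q ∈ (2 * D.natAbs * ∏ c : PR (m + 1), (df a c).natAbs).primeFactors := by
  have hne : 2 * D.natAbs * ∏ c : PR (m + 1), (df a c).natAbs ≠ 0 := by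
    refine mul_ne_zero (mul_ne_zero two_ne_zero (Int.natAbs_ne_zero.2 hD))
      (Finset.prod_ne_zero_iff.2 fun c _ => ?_)
    rw [Int.natAbs_ne_zero]
    unfold df
    intro h
    have h2 := ha (sub_eq_zero.1 h)
    exact absurd h2 (ne_of_lt c.2)
  rw [Nat.mem_primeFactors]
  refine ⟨hq, ?_, hne⟩
  by_contra hnd
  have : Fact q.Prime := ⟨hq⟩
  refine goodj (m + 1) q (fun i => D * a i) d (by
    obtain ⟨r, hr⟩ := hm
    exact ⟨r, by omega⟩) ?_ ?_ hd.1 (hd.2.2 q) l hl
  · rintro rfl
    exact hnd ((dvd_mul_right _ _).mul_right _)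
  · intro c hc
    apply hnd
    have e : df (fun i => D * a i) c = D * df a c := by
      unfold df
      ring
    rw [e] at hc
    rcases (Nat.prime_iff_prime_int.1 hq).dvd_or_dvd hc with h | h
    · exact ((Int.natCast_dvd.1 h).mul_left 2).mul_right _
    · exact ((Int.natCast_dvd.1 h).trans (Finset.dvd_prod_of_mem (fun c => (df a c).natAbs)
        (Finset.mem_univ c))).mul_left _

lemma loct (h1 : S_LOCT) (hm : Even m) (hs : HS a D s) {d : Fin (m + 1) → ℤ}
    (hd : d ∈ SelJ (fun i => D * a i)) {q : ℕ} (hq : q.Prime) (hqs : q ∣ s) :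
    (∀ i, decide ((q : ℤ) ∣ d i) = ext (fun j => decide ((q : ℤ) ∣ d j.castSucc)) i) ∧
    ∀ j : Fin m,
    (¬ (q : ℤ) ∣ d j.castSucc →
      jacobiSym (d j.castSucc * cT a (fun l => decide ((q : ℤ) ∣ d l.castSucc)) j) q = 1) ∧
    ((q : ℤ) ∣ d j.castSucc →
      jacobiSym ((d j.castSucc / q) * (D / q) *
        cT a (fun l => decide ((q : ℤ) ∣ d l.castSucc)) j) q = 1) := by
  have : Fact q.Prime := ⟨hq⟩
  obtain ⟨g1, g2, g3, g4⟩ := hs q hq hqs
  exact h1 m q a D d hm g1 g4 g2 g3 hd.1 (hd.2.2 q)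

/-- the prime factors -/
lemma prime_set (h1 : S_LOCT) (hm : Even m) (ha : Function.Injective a) (hD : D ≠ 0)
    (hs : HS a D s) (hsq : Squarefree s) {d : Fin (m + 1) → ℤ}
    (hd : d ∈ SelJ (fun i => D * a i)) (l : Fin (m + 1)) {q : ℕ} (hq : q.Prime) :
    (q : ℤ) ∣ d l ↔ q ∈ (BB a D s).filter (fun q : ℕ => (q : ℤ) ∣ d l) ∨
        q ∣ s ∧ ext (fun j => decide (q ∈ ww s d j)) l = true := by
  have hloc : q ∣ s → (ext (fun j => decide (q ∈ ww s d j)) l = true ↔ (q : ℤ) ∣ d l) := by
    intro h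
    have e : (fun j => decide (q ∈ ww s d j)) = fun j => decide ((q : ℤ) ∣ d j.castSucc) := by
      funext j
      rw [decide_eq_decide]
      exact mem_ww hsq d hq h j
    rw [e, ← (loct h1 hm hs hd hq h).1 l, decide_eq_true_iff]
  constructor
  · intro h
    have h3 := sel_good hm ha hD hd hq h
    by_cases hqs : q ∣ s
    · exact Or.inr ⟨hqs, (hloc hqs).2 h⟩
    · left
      rw [mem_filter]
      exact ⟨mem_filter.2 ⟨h3, hqs⟩, h⟩
  · rintro (h | ⟨h, hc⟩)
    · exact (mem_filter.1 h).2
    · exact (hloc h).1 hc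

/-- the data determine `d` -/
lemma inj_data (h1 : S_LOCT) (hm : Even m) (ha : Function.Injective a) (hD : D ≠ 0)
    (hs : HS a D s) (hsq : Squarefree s) {d d' : Fin (m + 1) → ℤ}
    (hd : d ∈ SelJ (fun i => D * a i)) (hd' : d' ∈ SelJ (fun i => D * a i))
    (ht : tau a D s d = tau a D s d') (hw : ww s d = ww s d') : d = d' := by
  funext l
  have ht' := congrFun ht l
  unfold tau at ht'
  rw [Prod.mk.injEq] at ht'
  obtain ⟨t1, t2⟩ := ht'
  have h3 : ∀ q : ℕ, q.Prime → (q ∣ (d l).natAbs ↔ q ∣ (d' l).natAbs) := by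
    intro q hq
    rw [← Int.natCast_dvd, ← Int.natCast_dvd, prime_set h1 hm ha hD hs hsq hd l hq,
      prime_set h1 hm ha hD hs hsq hd' l hq, t2, hw]
  have h4 : (d l).natAbs = (d' l).natAbs :=
    (Nat.Squarefree.ext_iff (Int.squarefree_natAbs.2 (hd.1 l))
      (Int.squarefree_natAbs.2 (hd'.1 l))).2 fun p hp => h3 p hp
  have h5 : (0 < d l ↔ 0 < d' l) := by
    simpa using t1
  have h6 := (hd.1 l).ne_zero
  have h7 := (hd'.1 l).ne_zero
  omega

/-! ### The symbols -/

/-- the symbols of one coordinate -/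
lemma jac_coord (hm : Even m) (ha : Function.Injective a) (hD : D ≠ 0)
    (hsq : Squarefree s) {d : Fin (m + 1) → ℤ}
    (hd : d ∈ SelJ (fun i => D * a i)) (j : Fin m) {p : ℕ} (hp : p.Prime) (hps : p ∣ s) :
    jacobiSym (if (p : ℤ) ∣ d j.castSucc then d j.castSucc / p else d j.castSucc) p =
      (jacobiSym (d j.castSucc).sign p *
        ∏ q ∈ (BB a D s).filter (fun q : ℕ => (q : ℤ) ∣ d j.castSucc), jacobiSym (q : ℤ) p) *
      ∏ q ∈ (ww s d j).erase p, jacobiSym ((q : ℕ) : ℤ) p := by
  classical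
  rw [SelPf.jac_fac hp (d j.castSucc) (hd.1 _), mul_assoc]
  congr 1
  rw [← Finset.prod_union]
  · refine Finset.prod_congr ?_ fun _ _ => rfl
    ext q
    rw [mem_erase, Nat.mem_primeFactors, mem_union, mem_erase, ← Int.natCast_dvd]
    have hdl := (hd.1 j.castSucc).ne_zero
    constructor
    · rintro ⟨hqp, hq, hdv, -⟩
      by_cases hqs : q ∣ s
      · exact Or.inr ⟨hqp, (mem_ww hsq d hq hqs j).2 hdv⟩
      · left
        exact mem_filter.2 ⟨mem_filter.2 ⟨sel_good hm ha hD hd hq hdv, hqs⟩, hdv⟩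
    · rintro (h | ⟨hqp, h⟩)
      · obtain ⟨h3, hdv⟩ := mem_filter.1 h
        obtain ⟨h4, h5⟩ := mem_filter.1 h3
        refine ⟨?_, Nat.prime_of_mem_primeFactors h4, hdv, Int.natAbs_ne_zero.2 hdl⟩
        rintro rfl
        exact h5 hps
      · obtain ⟨h3, hdv⟩ := mem_filter.1 h
        exact ⟨hqp, Nat.prime_of_mem_primeFactors h3, hdv, Int.natAbs_ne_zero.2 hdl⟩
  · rw [Finset.disjoint_left]
    intro q hq hq'
    have h3 := (mem_filter.1 (mem_filter.1 hq).1).2
    have h4 := (mem_filter.1 (mem_erase.1 hq').2).1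
    exact h3 (Nat.dvd_of_mem_primeFactors h4)

/-- the local condition for one element -/
lemma cond_one (h1 : S_LOCT) (hm : Even m) (ha : Function.Injective a) (hD : D ≠ 0)
    (hs : HS a D s) (hsq : Squarefree s) {d : Fin (m + 1) → ℤ}
    (hd : d ∈ SelJ (fun i => D * a i)) (j : Fin m) {p : ℕ} (hp : p.Prime) (hps : p ∣ s) :
    (jacobiSym (d j.castSucc).sign p *
        ∏ q ∈ (BB a D s).filter (fun q : ℕ => (q : ℤ) ∣ d j.castSucc), jacobiSym (q : ℤ) p) *
      ((∏ q ∈ (ww s d j).erase p, jacobiSym ((q : ℕ) : ℤ) p) *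
        (if p ∈ ww s d j then jacobiSym (D / p) p else 1) *
        jacobiSym (cT a (fun l => decide (p ∈ ww s d l)) j) p) = 1 := by
  have hj := jac_coord hm ha hD hsq hd j hp hps
  have h2 := (loct h1 hm hs hd hp hps).2 j
  have e : (fun j => decide (p ∈ ww s d j)) = fun j => decide ((p : ℤ) ∣ d j.castSucc) := by
    funext j
    rw [decide_eq_decide]
    exact mem_ww hsq d hp hps j
  rw [← e] at h2
  by_cases hdv : (p : ℤ) ∣ d j.castSucc
  · have k := h2.2 hdv
    rw [if_pos hdv] at hj
    rw [if_pos ((mem_ww hsq d hp hps j).2 hdv)]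
    rw [jacobiSym.mul_left, jacobiSym.mul_left, hj] at k
    refine Eq.trans ?_ k
    ring
  · have k := h2.1 hdv
    rw [if_neg hdv] at hj
    rw [if_neg (fun h => hdv ((mem_ww hsq d hp hps j).1 h))]
    rw [jacobiSym.mul_left, hj] at k
    refine Eq.trans ?_ k
    ring

/-- the condition of `NT` -/
lemma cond_two (h1 : S_LOCT) (hm : Even m) (ha : Function.Injective a) (hD : D ≠ 0)
    (hs : HS a D s) (hsq : Squarefree s) {d d' : Fin (m + 1) → ℤ}
    (hd : d ∈ SelJ (fun i => D * a i)) (hd' : d' ∈ SelJ (fun i => D * a i))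
    (ht : tau a D s d = tau a D s d') (j : Fin m) {p : ℕ} (hp : p.Prime) (hps : p ∣ s) :
    (∏ q ∈ (symmDiff (ww s d j) (ww s d' j)).erase p, jacobiSym ((q : ℕ) : ℤ) p) *
        jacobiSym (cT a (fun l => decide (p ∈ symmDiff (ww s d l) (ww s d' l))) j) p =
        if p ∈ symmDiff (ww s d j) (ww s d' j) ∧ p ∈ ngs D s then -1 else 1 := by
  obtain ⟨g1, g2, g3, g4⟩ := hs p hp hps
  have q1 := cond_one h1 hm ha hD hs hsq hd j hp hps
  have q2 := cond_one h1 hm ha hD hs hsq hd' j hp hps
  have hsgn : (d j.castSucc).sign = (d' j.castSucc).sign ∧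
      (BB a D s).filter (fun q : ℕ => (q : ℤ) ∣ d j.castSucc) =
        (BB a D s).filter (fun q : ℕ => (q : ℤ) ∣ d' j.castSucc) := by
    have ht' := congrFun ht j.castSucc
    unfold tau at ht'
    rw [Prod.mk.injEq] at ht'
    obtain ⟨t1, t2⟩ := ht'
    refine ⟨?_, t2⟩
    have h5 : (0 < d j.castSucc ↔ 0 < d' j.castSucc) := by
      simpa using t1
    have h6 := (hd.1 j.castSucc).ne_zero
    have h7 := (hd'.1 j.castSucc).ne_zero
    rcases lt_or_gt_of_ne h6 with h | h
    · have h8 : d' j.castSucc < 0 := by omega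
      rw [Int.sign_eq_neg_one_of_neg h, Int.sign_eq_neg_one_of_neg h8]
    · have h8 : 0 < d' j.castSucc := h5.1 h
      rw [Int.sign_eq_one_of_pos h, Int.sign_eq_one_of_pos h8]
  rw [← hsgn.1, ← hsgn.2] at q2
  set A := jacobiSym (d j.castSucc).sign p *
    ∏ q ∈ (BB a D s).filter (fun q : ℕ => (q : ℤ) ∣ d j.castSucc), jacobiSym (q : ℤ) p with hA
  have hA0 : A ≠ 0 := by
    intro h
    rw [h, zero_mul] at q1
    exact zero_ne_one q1
  have q3 := mul_left_cancel₀ hA0 (q1.trans q2.symm)
  -- `ε`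
  have hpε : ¬ (p : ℤ) ∣ D / p := by
    rintro ⟨r, hr⟩
    apply g3
    refine ⟨r, ?_⟩
    rw [← Int.mul_ediv_cancel' g2, hr]
    ring
  have hε := SelPf.jac_sq hp hpε
  set ε := jacobiSym (D / p) p with hεd
  -- the product over the primes
  have hprod : ∏ q ∈ (symmDiff (ww s d j) (ww s d' j)).erase p, jacobiSym ((q : ℕ) : ℤ) p =
      (∏ q ∈ (ww s d j).erase p, jacobiSym ((q : ℕ) : ℤ) p) *
        ∏ q ∈ (ww s d' j).erase p, jacobiSym ((q : ℕ) : ℤ) p := by
    rw [← prod_symm]
    · refine Finset.prod_congr ?_ fun _ _ => rfl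
      ext q
      simp only [mem_erase, mem_symmDiff]
      tauto
    · intro q hq
      rw [mem_inter, mem_erase, mem_erase] at hq
      refine SelPf.jac_sq hp ?_
      rw [Int.natCast_dvd_natCast]
      intro h
      have hqp : q.Prime := Nat.prime_of_mem_primeFactors (mem_filter.1 hq.1.2).1
      exact hq.1.1 ((Nat.prime_dvd_prime_iff_eq hp hqp).1 h).symm
  have hsqr : ∀ w : Finset ℕ, w ⊆ s.primeFactors →
      (∏ q ∈ w.erase p, jacobiSym ((q : ℕ) : ℤ) p) * ∏ q ∈ w.erase p, jacobiSym ((q : ℕ) : ℤ) p = 1 := by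
    intro w hw
    rw [← Finset.prod_mul_distrib]
    refine Finset.prod_eq_one fun q hq => ?_
    rw [mem_erase] at hq
    refine SelPf.jac_sq hp ?_
    rw [Int.natCast_dvd_natCast]
    intro h
    have hqp : q.Prime := Nat.prime_of_mem_primeFactors (hw hq.2)
    exact hq.1 ((Nat.prime_dvd_prime_iff_eq hp hqp).1 h).symm
  have hc : (fun l => decide (p ∈ symmDiff (ww s d l) (ww s d' l))) =
      fun l => xor (decide (p ∈ ww s d l)) (decide (p ∈ ww s d' l)) := by
    funext l
    by_cases e1 : p ∈ ww s d l <;> by_cases e2 : p ∈ ww s d' l <;> simp [mem_symmDiff, e1, e2]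
  rw [hc, ← cT_mul hp a g4, hprod]
  have hmem : p ∈ ngs D s ↔ ε = -1 := by
    unfold ngs
    rw [mem_filter, mem_s hsq]
    exact ⟨fun h => h.2, fun h => ⟨⟨hp, hps⟩, h⟩⟩
  set P := ∏ q ∈ (ww s d j).erase p, jacobiSym ((q : ℕ) : ℤ) p with hP
  set P' := ∏ q ∈ (ww s d' j).erase p, jacobiSym ((q : ℕ) : ℤ) p with hP'
  set c := jacobiSym (cT a (fun l => decide (p ∈ ww s d l)) j) p with hcd
  set c' := jacobiSym (cT a (fun l => decide (p ∈ ww s d' l)) j) p with hcd'
  have hPP : P' * P' = 1 := hsqr _ (filter_subset _ _)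
  have hcc : c' * c' = 1 := by
    have h3 : A * (P' * (if p ∈ ww s d' j then ε else 1)) * c' = 1 :=
      (mul_assoc _ _ _).trans q2
    have h4 := Int.isUnit_iff.1 (IsUnit.of_mul_eq_one _ ((mul_comm _ _).trans h3))
    rcases h4 with h4 | h4 <;> rw [h4] <;> norm_num
  have hε' := mul_self_eq_one_iff.1 hε
  have hee : ∀ b : Prop, ∀ [Decidable b], (if b then ε else 1) * (if b then ε else 1) = 1 := by
    intro b _
    split_ifs
    · exact hε
    · norm_num
  -- the symmetric form
  have key : P * P' * (c * c') = (if p ∈ ww s d j then ε else 1) *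
      (if p ∈ ww s d' j then ε else 1) := by
    have e1 := hee (p ∈ ww s d j)
    calc P * P' * (c * c')
        = (P * (if p ∈ ww s d j then ε else 1) * c) * (P' * c') *
          (if p ∈ ww s d j then ε else 1) * 1 := by
            linear_combination (-(P * P' * (c * c'))) * e1
      _ = (P' * (if p ∈ ww s d' j then ε else 1) * c') * (P' * c') *
          (if p ∈ ww s d j then ε else 1) * 1 := by rw [q3]
      _ = (P' * P') * (c' * c') * ((if p ∈ ww s d j then ε else 1) *
          (if p ∈ ww s d' j then ε else 1)) := by ring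
      _ = _ := by rw [hPP, hcc, one_mul, one_mul]
  rw [key]
  by_cases e1 : p ∈ ww s d j <;> by_cases e2 : p ∈ ww s d' j
  · rw [if_pos e1, if_pos e2, hε, if_neg]
    rintro ⟨h, -⟩
    rw [mem_symmDiff] at h
    tauto
  · rw [if_pos e1, if_neg e2, mul_one]
    have h3 : p ∈ symmDiff (ww s d j) (ww s d' j) := mem_symmDiff.2 (Or.inl ⟨e1, e2⟩)
    rcases hε' with h | h
    · rw [if_neg, h]
      rintro ⟨-, h4⟩
      rw [hmem, h] at h4
      norm_num at h4
    · rw [if_pos ⟨h3, hmem.2 h⟩, h]
  · rw [if_neg e1, if_pos e2, one_mul]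
    have h3 : p ∈ symmDiff (ww s d j) (ww s d' j) := mem_symmDiff.2 (Or.inr ⟨e2, e1⟩)
    rcases hε' with h | h
    · rw [if_neg, h]
      rintro ⟨-, h4⟩
      rw [hmem, h] at h4
      norm_num at h4
    · rw [if_pos ⟨h3, hmem.2 h⟩, h]
  · rw [if_neg e1, if_neg e2, mul_one, if_neg]
    rintro ⟨h, -⟩
    rw [mem_symmDiff] at h
    tauto

end

end SelT

open SelT in
/-- TJ-SEL -/
theorem selt_of (h1 : S_LOCT) : S_SELT := by
  classical
  intro m a D s _ hm ha hD hsq hs
  have hfin : (SelJ (fun i => D * a i)).Finite := by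
    have hmaps : Set.MapsTo (fun d => (SelT.tau a D s d, SelT.ww s d)) (SelJ (fun i => D * a i))
        (((Fintype.piFinset (fun _ : Fin (m + 1) =>
          (Finset.univ : Finset Bool) ×ˢ (SelT.BB a D s).powerset)) ×ˢ
          (Fintype.piFinset (fun _ : Fin m => s.primeFactors.powerset)) : Finset _) : Set _) := by
      intro d _
      rw [Finset.mem_coe, Finset.mem_product, Fintype.mem_piFinset, Fintype.mem_piFinset]
      refine ⟨fun l => ?_, fun l => ?_⟩
      · rw [Finset.mem_product]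
        exact ⟨Finset.mem_univ _, Finset.mem_powerset.2 (Finset.filter_subset _ _)⟩
      · exact Finset.mem_powerset.2 (Finset.filter_subset _ _)
    refine Set.Finite.of_injOn hmaps ?_ (Finset.finite_toSet _)
    intro d hd d' hd' h
    rw [Prod.mk.injEq] at h
    exact SelT.inj_data h1 hm ha hD hs hsq hd hd' h.1 h.2
  refine ⟨hfin, ?_⟩
  rw [Set.ncard_eq_toFinset_card _ hfin]
  have hcard := Finset.card_le_mul_card_image (f := SelT.tau a D s) hfin.toFinset
    (NT a s (ngs D s)) (by
      intro t ht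
      rw [Finset.mem_image] at ht
      obtain ⟨d0, hd0, rfl⟩ := ht
      rw [Set.Finite.mem_toFinset] at hd0
      unfold NT
      refine Finset.card_le_card_of_injOn
        (fun d => fun j => symmDiff (SelT.ww s d0 j) (SelT.ww s d j)) ?_ ?_
      · intro d hd
        rw [Finset.mem_coe, Finset.mem_filter, Set.Finite.mem_toFinset] at hd
        rw [Finset.mem_coe, Finset.mem_filter, Fintype.mem_piFinset]
        refine ⟨fun j => ?_, ?_⟩
        · rw [Finset.mem_powerset]
          intro q hq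
          rw [Finset.mem_symmDiff] at hq
          rcases hq with ⟨h, -⟩ | ⟨h, -⟩
          · exact (Finset.filter_subset _ _) h
          · exact (Finset.filter_subset _ _) h
        · intro p hp j
          have h3 := SelT.cond_two h1 hm ha hD hs hsq hd0 hd.1 hd.2.symm j
            (Nat.prime_of_mem_primeFactors hp) (Nat.dvd_of_mem_primeFactors hp)
          convert h3
      · intro d hd d' hd' h
        rw [Finset.mem_coe, Finset.mem_filter, Set.Finite.mem_toFinset] at hd hd'
        refine SelT.inj_data h1 hm ha hD hs hsq hd.1 hd'.1 (hd.2.trans hd'.2.symm) ?_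
        funext j
        exact symmDiff_right_injective _ (congrFun h j))
  refine hcard.trans ?_
  rw [mul_comm]
  refine Nat.mul_le_mul_right _ ?_
  have himg : (hfin.toFinset.image (SelT.tau a D s)) ⊆
      Fintype.piFinset (fun _ : Fin (m + 1) =>
        (Finset.univ : Finset Bool) ×ˢ (SelT.BB a D s).powerset) := by
    intro t ht
    rw [Finset.mem_image] at ht
    obtain ⟨d, -, rfl⟩ := ht
    rw [Fintype.mem_piFinset]
    intro l
    rw [Finset.mem_product]
    exact ⟨Finset.mem_univ _, Finset.mem_powerset.2 (Finset.filter_subset _ _)⟩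
  refine (Finset.card_le_card himg).trans (le_of_eq ?_)
  rw [Fintype.card_piFinset_const, Finset.card_product, Finset.card_powerset, Finset.card_univ,
    Fintype.card_bool, ← pow_succ', ← pow_mul, ← pow_mul, mul_comm (m + 1), add_comm 1]
  rfl

/-- TJ-RNK -/
theorem rnkt_of (h : S_SELT) : S_RNKT := by
  intro m k a hm2 hm ha
  refine ⟨2 + ∑ i, ∑ j, (a i - a j).natAbs, fun z hz => ?_⟩
  have hza : ∀ i j, (a i - a j).natAbs ≤ z := by
    intro i j
    have h1 : (a i - a j).natAbs ≤ ∑ j, (a i - a j).natAbs :=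
      Finset.single_le_sum (f := fun j => (a i - a j).natAbs) (fun _ _ => Nat.zero_le _)
        (mem_univ j)
    have h2 : ∑ j, (a i - a j).natAbs ≤ ∑ i, ∑ j, (a i - a j).natAbs :=
      Finset.single_le_sum (f := fun i => ∑ j, (a i - a j).natAbs) (fun _ _ => Nat.zero_le _)
        (mem_univ i)
    omega
  have hz2 : 2 ≤ z := by omega
  refine ⟨((2 : ℝ) ^ (m + 1)) ^ (k * (1 + z)), by positivity, ?_⟩
  intro y X k' B d hd hb hX hy hk
  set s := S1 z y (fun _ : Unit => d) () with hs
  set v := S2 z y (fun _ : Unit => d) () with hv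
  have hsf : s.primeFactors =
      (PS z y).filter (fun p : ℕ => (p : ℤ) ∣ d ∧ ¬ (p : ℤ) ^ 2 ∣ d) := by
    rw [hs]
    exact primeFactors_S1 z y d
  have hvf : v.primeFactors = (PS z y).filter (fun p : ℕ => (p : ℤ) ^ 2 ∣ d) := by
    rw [hv]
    exact primeFactors_S2 z y d
  have hsq : Squarefree s := by
    rw [hs]
    unfold S1
    refine Finset.squarefree_prod_of_pairwise_isCoprime ?_ ?_
    · intro p hp q hq hpq
      have hp' := (mem_PS.1 (mem_filter.1 hp).1).2
      have hq' := (mem_PS.1 (mem_filter.1 hq).1).2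
      exact Nat.coprime_iff_isRelPrime.1 ((Nat.coprime_primes hp' hq').2 hpq)
    · intro p hp
      exact (mem_PS.1 (mem_filter.1 hp).1).2.prime.squarefree
  have hcond : ∀ p : ℕ, p.Prime → p ∣ s → p ≠ 2 ∧
      (p : ℤ) ∣ d ∧ ¬ (p : ℤ) ^ 2 ∣ d ∧ ∀ i j, i ≠ j → ¬ (p : ℤ) ∣ a i - a j := by
    intro p hp hps
    have h1 : p ∈ s.primeFactors := Nat.mem_primeFactors.2 ⟨hp, hps, hsq.ne_zero⟩
    rw [hsf, mem_filter, mem_PS] at h1
    obtain ⟨⟨⟨h2, h3⟩, -⟩, h4, h5⟩ := h1
    refine ⟨by omega, h4, h5, fun i j hij hdv => ?_⟩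
    have h6 : a i - a j ≠ 0 := fun h => hij (ha (sub_eq_zero.1 h))
    have h7 := Nat.le_of_dvd (Int.natAbs_pos.2 h6) (Int.natCast_dvd.1 hdv)
    have := hza i j
    omega
  obtain ⟨-, hle⟩ := h m a d s hm2 hm ha hd hsq hcond
  -- the bad primes
  have hbad : ((2 * d.natAbs * ∏ c : PR (m + 1), (df a c).natAbs).primeFactors.filter
      (fun q => ¬ q ∣ s)).card ≤ z + v.primeFactors.card + k' * B := by
    have hsub : (2 * d.natAbs * ∏ c : PR (m + 1), (df a c).natAbs).primeFactors.filter
        (fun q => ¬ q ∣ s) ⊆ (Icc 1 z ∪ v.primeFactors) ∪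
          d.natAbs.primeFactors.filter (fun p => y < p) := by
      intro q hq
      rw [mem_filter, Nat.mem_primeFactors] at hq
      obtain ⟨⟨hqp, hqd, -⟩, hqs⟩ := hq
      by_cases hqz : q ≤ z
      · exact mem_union_left _ (mem_union_left _ (mem_Icc.2 ⟨hqp.one_lt.le, hqz⟩))
      · have hqd' : q ∣ d.natAbs := by
          rcases (Nat.Prime.dvd_mul hqp).1 hqd with h1 | h1
          · rcases (Nat.Prime.dvd_mul hqp).1 h1 with h2 | h2
            · exfalso
              have := Nat.le_of_dvd two_pos h2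
              omega
            · exact h2
          · exfalso
            obtain ⟨c, -, hc⟩ := (hqp.prime.dvd_finsetProd_iff _).1 h1
            have h6 : df a c ≠ 0 := by
              unfold df
              intro h
              have h2 := ha (sub_eq_zero.1 h)
              exact absurd h2 (ne_of_lt c.2)
            have h7 := Nat.le_of_dvd (Int.natAbs_pos.2 h6) hc
            have h8 : (df a c).natAbs ≤ z := hza _ _
            omega
        by_cases hqy : y < q
        · exact mem_union_right _ (mem_filter.2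
            ⟨Nat.mem_primeFactors.2 ⟨hqp, hqd', Int.natAbs_ne_zero.2 hd⟩, hqy⟩)
        · refine mem_union_left _ (mem_union_right _ ?_)
          have hPS : q ∈ PS z y := mem_PS.2 ⟨⟨by omega, by omega⟩, hqp⟩
          rw [hvf, mem_filter]
          refine ⟨hPS, ?_⟩
          by_contra h3
          apply hqs
          have h4 : q ∈ s.primeFactors := by
            rw [hsf, mem_filter]
            exact ⟨hPS, Int.natCast_dvd.2 hqd', h3⟩
          exact Nat.dvd_of_mem_primeFactors h4
    refine (card_le_card hsub).trans ?_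
    refine (card_union_le _ _).trans ?_
    have h4 := card_union_le (Icc 1 z) v.primeFactors
    have h5 : (Icc 1 z).card = z := by rw [Nat.card_Icc]; omega
    have h6 := card_large (y := y) (Int.natAbs_ne_zero.2 hd) hb hk
    omega
  have hR : RJ a d ≤ ((2 : ℝ) ^ (m + 1)) ^ (1 + (z + v.primeFactors.card + k' * B)) *
      (NT a s (ngs d s) : ℝ) := by
    unfold RJ
    calc ((SelJ (fun i => d * a i)).ncard : ℝ)
        ≤ (((2 ^ (m + 1)) ^ (1 + ((2 * d.natAbs * ∏ c : PR (m + 1),
            (df a c).natAbs).primeFactors.filter (fun q => ¬ q ∣ s)).card) *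
            NT a s (ngs d s) : ℕ) : ℝ) := by exact_mod_cast hle
      _ = ((2 : ℝ) ^ (m + 1)) ^ (1 + ((2 * d.natAbs * ∏ c : PR (m + 1),
            (df a c).natAbs).primeFactors.filter (fun q => ¬ q ∣ s)).card) *
            (NT a s (ngs d s) : ℝ) := by push_cast; ring
      _ ≤ _ := by
        refine mul_le_mul_of_nonneg_right ?_ (Nat.cast_nonneg _)
        refine pow_le_pow_right₀ ?_ (by omega)
        exact one_le_pow₀ (by norm_num)
  have hR0 : 0 ≤ RJ a d := Nat.cast_nonneg _
  refine (pow_le_pow_left₀ hR0 hR k).trans (le_of_eq ?_)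
  unfold NTk
  rw [mul_pow]
  congr 1
  simp only [← pow_mul, ← pow_add]
  congr 1
  ring

end Pool.Agent.TH344.TJ
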