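import Pool.Agent.TH344.TJ.Stm
import Pool.Agent.W262.RK.Bas
import Pool.Agent.W125.RK2.SUBB
import Pool.Agent.W12.RS.CombK

/-!
# TJ-SUB and TJ-CMB: growth of the moments of the local count, the largest unlinked set
-/

set_option autoImplicit false

namespace Pool.Agent.TH344.TJ

open Finset Pool.Agent.W262.RK

namespace SubT

lemma jac_prod {ι : Type} (A : Finset ι) (f : ι → ℤ) (p : ℕ) :
    jacobiSym (∏ i ∈ A, f i) p = ∏ i ∈ A, jacobiSym (f i) p := by
  classical
  induction A using Finset.induction_on with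
  | empty => rw [prod_empty, prod_empty, jacobiSym.one_left]
  | insert a A ha ih => rw [prod_insert ha, prod_insert ha, jacobiSym.mul_left, ih]

lemma prod_sd {ι : Type} [DecidableEq ι] (χ : ι → ℤ) (A B : Finset ι)
    (hχ : ∀ q, χ q = 0 ∨ χ q = 1 ∨ χ q = -1)
    (hA : ∏ q ∈ A, χ q ≠ 0) : ∏ q ∈ symmDiff A B, χ q = (∏ q ∈ A, χ q) * ∏ q ∈ B, χ q := by
  have h1 : ∏ q ∈ A, χ q = (∏ q ∈ A \ B, χ q) * ∏ q ∈ A ∩ B, χ q := by
    rw [← prod_union (disjoint_sdiff_inter A B), sdiff_union_inter]
  have h2 : ∏ q ∈ B, χ q = (∏ q ∈ B \ A, χ q) * ∏ q ∈ A ∩ B, χ q := by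
    rw [inter_comm A B, ← prod_union (disjoint_sdiff_inter B A), sdiff_union_inter]
  have h3 : (∏ q ∈ A ∩ B, χ q) * ∏ q ∈ A ∩ B, χ q = 1 := by
    rw [← prod_mul_distrib]
    refine prod_eq_one fun q hq => ?_
    have h4 : χ q ≠ 0 := (prod_ne_zero_iff.1 hA) q (mem_of_mem_inter_left hq)
    rcases hχ q with h | h | h
    · exact absurd h h4
    · rw [h]; norm_num
    · rw [h]; norm_num
  have h5 : ∏ q ∈ symmDiff A B, χ q = (∏ q ∈ A \ B, χ q) * ∏ q ∈ B \ A, χ q := by
    rw [← prod_union (disjoint_sdiff_sdiff)]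
    rfl
  rw [h5, h1, h2]
  linear_combination (-(∏ q ∈ A \ B, χ q) * ∏ q ∈ B \ A, χ q) * h3

/-- the parity of a symmetric difference -/
lemma ext_xor {m : ℕ} (v v' : Fin m → Bool) (i : Fin (m + 1)) :
    ext (fun l => xor (v l) (v' l)) i = xor (ext v i) (ext v' i) := by
  refine Fin.lastCases ?_ (fun j => ?_) i
  · unfold ext
    rw [Fin.snoc_last, Fin.snoc_last, Fin.snoc_last]
    obtain ⟨A, hA⟩ : ∃ A : Finset (Fin m), A = univ.filter (fun j => v j = true) := ⟨_, rfl⟩
    obtain ⟨B, hB⟩ : ∃ B : Finset (Fin m), B = univ.filter (fun j => v' j = true) := ⟨_, rfl⟩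
    have h1 : univ.filter (fun j => xor (v j) (v' j) = true) = symmDiff A B := by
      ext j
      rw [mem_symmDiff, hA, hB]
      simp only [mem_filter, mem_univ, true_and]
      cases v j <;> cases v' j <;> simp
    rw [h1, ← hA, ← hB]
    have h2 : (A \ B).card + (A ∩ B).card = A.card := card_sdiff_add_card_inter A B
    have h3 : (B \ A).card + (B ∩ A).card = B.card := card_sdiff_add_card_inter B A
    have h4 : (symmDiff A B).card = (A \ B).card + (B \ A).card := by
      rw [← card_union_of_disjoint disjoint_sdiff_sdiff]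
      rfl
    rw [inter_comm B A] at h3
    rw [h4]
    rcases Nat.mod_two_eq_zero_or_one A.card with hA' | hA' <;>
    rcases Nat.mod_two_eq_zero_or_one B.card with hB' | hB'
    · have : ((A \ B).card + (B \ A).card) % 2 = 0 := by omega
      simp [this, hA', hB']
    · have : ((A \ B).card + (B \ A).card) % 2 = 1 := by omega
      simp [this, hA', hB']
    · have : ((A \ B).card + (B \ A).card) % 2 = 1 := by omega
      simp [this, hA', hB']
    · have : ((A \ B).card + (B \ A).card) % 2 = 0 := by omega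
      simp [this, hA', hB']
  · unfold ext
    rw [Fin.snoc_castSucc, Fin.snoc_castSucc, Fin.snoc_castSucc]

/-- the group property -/
lemma jac_cT {m : ℕ} (a : Fin (m + 1) → ℤ) (v v' : Fin m → Bool) (j : Fin m) (p : ℕ)
    (h : jacobiSym (cT a v j) p ≠ 0) (h' : jacobiSym (cT a v' j) p ≠ 0) :
    jacobiSym (cT a (fun l => xor (v l) (v' l)) j) p =
      jacobiSym (cT a v j) p * jacobiSym (cT a v' j) p := by
  classical
  obtain ⟨χ, hχd⟩ : ∃ χ : Fin (m + 1) → ℤ, ∀ i, χ i = jacobiSym (a j.castSucc - a i) p :=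
    ⟨_, fun _ => rfl⟩
  have hχ : ∀ q, χ q = 0 ∨ χ q = 1 ∨ χ q = -1 := fun q => by
    rw [hχd]; exact jacobiSym.trichotomy _ _
  have hP : ∀ A : Finset (Fin (m + 1)), jacobiSym (∏ i ∈ A, (a j.castSucc - a i)) p =
      ∏ i ∈ A, χ i := by
    intro A
    rw [jac_prod]
    exact prod_congr rfl fun i _ => (hχd i).symm
  obtain ⟨ε, hε⟩ : ∃ ε : ℤ, ε = jacobiSym (-1) p := ⟨_, rfl⟩
  have hN : ∀ A : Finset (Fin (m + 1)), jacobiSym (-∏ i ∈ A, (a j.castSucc - a i)) p =
      ε * ∏ i ∈ A, χ i := by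
    intro A
    rw [← hP, hε, ← jacobiSym.mul_left, neg_one_mul]
  have e1 : univ.filter (fun i => ext (fun l => xor (v l) (v' l)) i = true) =
      symmDiff (univ.filter (fun i => ext v i = true)) (univ.filter (fun i => ext v' i = true)) := by
    ext i
    rw [mem_symmDiff]
    simp only [mem_filter, mem_univ, true_and, ext_xor]
    cases ext v i <;> cases ext v' i <;> simp
  have e2 : univ.filter (fun i => ext (fun l => xor (v l) (v' l)) i = true) =
      symmDiff (univ.filter (fun i => ext v i = false))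
        (univ.filter (fun i => ext v' i = false)) := by
    ext i
    rw [mem_symmDiff]
    simp only [mem_filter, mem_univ, true_and, ext_xor]
    cases ext v i <;> cases ext v' i <;> simp
  have e3 : univ.filter (fun i => ext (fun l => xor (v l) (v' l)) i = false) =
      symmDiff (univ.filter (fun i => ext v i = false)) (univ.filter (fun i => ext v' i = true)) := by
    ext i
    rw [mem_symmDiff]
    simp only [mem_filter, mem_univ, true_and, ext_xor]
    cases ext v i <;> cases ext v' i <;> simp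
  have e4 : univ.filter (fun i => ext (fun l => xor (v l) (v' l)) i = false) =
      symmDiff (univ.filter (fun i => ext v i = true)) (univ.filter (fun i => ext v' i = false)) := by
    ext i
    rw [mem_symmDiff]
    simp only [mem_filter, mem_univ, true_and, ext_xor]
    cases ext v i <;> cases ext v' i <;> simp
  unfold cT at h h' ⊢
  cases hv : v j <;> cases hv' : v' j
  · simp only [hv, hv', Bool.false_eq_true, if_false, Bool.xor_self] at h h' ⊢
    rw [hP] at h h'
    rw [hP, hP, hP, e1]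
    exact prod_sd χ _ _ hχ h
  · simp only [hv, hv', Bool.false_eq_true, if_false, Bool.false_xor, if_true] at h h' ⊢
    rw [hP] at h
    rw [hN] at h'
    rw [hN, hN, hP, e4, prod_sd χ _ _ hχ h]
    ring
  · simp only [hv, hv', Bool.false_eq_true, if_false, Bool.xor_false, if_true] at h h' ⊢
    rw [hN] at h
    rw [hP] at h'
    rw [hN, hN, hP, e3, prod_sd χ _ _ hχ (right_ne_zero_of_mul h)]
    ring
  · simp only [hv, hv', Bool.false_eq_true, if_false, Bool.xor_self, if_true] at h h' ⊢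
    rw [hN] at h h'
    rw [hN, hN, hP, e2, prod_sd χ _ _ hχ (right_ne_zero_of_mul h)]
    have h1 : ε * ε = 1 := by
      rcases jacobiSym.trichotomy (-1) p with h2 | h2 | h2
      · exact absurd (hε.trans h2) (left_ne_zero_of_mul h)
      · rw [hε, h2]; norm_num
      · rw [hε, h2]; norm_num
    linear_combination (-(∏ i ∈ univ.filter (fun i => ext v i = false), χ i) *
      ∏ i ∈ univ.filter (fun i => ext v' i = false), χ i) * h1

/-- the condition of `NT` -/
def CondT {m : ℕ} (a : Fin (m + 1) → ℤ) (s : ℕ) (E : Finset ℕ) (w : Fin m → Finset ℕ) : Prop :=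
  ∀ p ∈ s.primeFactors, ∀ j : Fin m,
      (∏ q ∈ (w j).erase p, jacobiSym ((q : ℕ) : ℤ) p) *
        jacobiSym (cT a (fun l => decide (p ∈ w l)) j) p =
        if p ∈ w j ∧ p ∈ E then -1 else 1

open Classical in
lemma NT_eq {m : ℕ} (a : Fin (m + 1) → ℤ) (s : ℕ) (E : Finset ℕ) :
    NT a s E = ((Fintype.piFinset (fun _ : Fin m => s.primeFactors.powerset)).filter
      (CondT a s E)).card := by
  unfold NT CondT
  congr!

open Classical in
lemma fiber_le {m : ℕ} (a : Fin (m + 1) → ℤ) (s e : ℕ) (hs0 : s ≠ 0) (he0 : e ≠ 0)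
    (E : Finset ℕ) (R : Fin m → Finset ℕ) :
    (((Fintype.piFinset (fun _ : Fin m => (s * e).primeFactors.powerset)).filter
      (CondT a (s * e) E)).filter
      (fun w => (fun j => w j ∩ e.primeFactors) = R)).card ≤
      NT a s (E ∩ s.primeFactors) := by
  rcases (((Fintype.piFinset (fun _ : Fin m => (s * e).primeFactors.powerset)).filter
      (CondT a (s * e) E)).filter
      (fun w => (fun j => w j ∩ e.primeFactors) = R)).eq_empty_or_nonempty with h | ⟨w₀, hw₀⟩
  · rw [h]
    simp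
  rw [mem_filter, mem_filter, Fintype.mem_piFinset] at hw₀
  obtain ⟨⟨hw₀1, hw₀2⟩, hw₀3⟩ := hw₀
  rw [NT_eq]
  have hPU : (s * e).primeFactors = s.primeFactors ∪ e.primeFactors :=
    Nat.primeFactors_mul hs0 he0
  refine card_le_card_of_injOn (fun w j => symmDiff (w j) (w₀ j)) ?_ ?_
  · intro w hw
    have hw := mem_coe.1 hw
    rw [mem_filter, mem_filter, Fintype.mem_piFinset] at hw
    obtain ⟨⟨hw1, hw2⟩, hw3⟩ := hw
    have hsub : ∀ j, symmDiff (w j) (w₀ j) ⊆ s.primeFactors := by
      intro j q hq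
      rw [mem_symmDiff] at hq
      have h1 : q ∈ (s * e).primeFactors := by
        rcases hq with h | h
        · exact mem_powerset.1 (hw1 j) h.1
        · exact mem_powerset.1 (hw₀1 j) h.1
      rw [hPU, mem_union] at h1
      rcases h1 with h1 | h1
      · exact h1
      · exfalso
        have h2 : q ∈ w j ↔ q ∈ w₀ j := by
          have h3 : q ∈ w j ∩ e.primeFactors ↔ q ∈ w₀ j ∩ e.primeFactors := by
            have h4 : w j ∩ e.primeFactors = w₀ j ∩ e.primeFactors :=
              congrFun (hw3.trans hw₀3.symm) j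
            rw [h4]
          simpa only [mem_inter, h1, and_true] using h3
        tauto
    refine mem_coe.2 (mem_filter.2 ⟨Fintype.mem_piFinset.2 fun j => mem_powerset.2 (hsub j), ?_⟩)
    intro p hp j
    have hp' : p ∈ (s * e).primeFactors := by
      rw [hPU]
      exact mem_union_left _ hp
    have h1 := hw2 p hp' j
    have h2 := hw₀2 p hp' j
    have hx : (fun l => decide (p ∈ symmDiff (w l) (w₀ l))) =
        fun l => xor (decide (p ∈ w l)) (decide (p ∈ w₀ l)) := by
      funext l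
      simp only [mem_symmDiff]
      by_cases ha : p ∈ w l <;> by_cases hb : p ∈ w₀ l <;> simp [ha, hb]
    have he : (symmDiff (w j) (w₀ j)).erase p = symmDiff ((w j).erase p) ((w₀ j).erase p) := by
      ext q
      simp only [mem_erase, mem_symmDiff]
      tauto
    have n1 : (∏ q ∈ (w j).erase p, jacobiSym ((q : ℕ) : ℤ) p) *
        jacobiSym (cT a (fun l => decide (p ∈ w l)) j) p ≠ 0 := by
      rw [h1]
      split_ifs <;> norm_num
    have n2 : (∏ q ∈ (w₀ j).erase p, jacobiSym ((q : ℕ) : ℤ) p) *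
        jacobiSym (cT a (fun l => decide (p ∈ w₀ l)) j) p ≠ 0 := by
      rw [h2]
      split_ifs <;> norm_num
    show (∏ q ∈ (symmDiff (w j) (w₀ j)).erase p, jacobiSym ((q : ℕ) : ℤ) p) *
        jacobiSym (cT a (fun l => decide (p ∈ symmDiff (w l) (w₀ l))) j) p =
        if p ∈ symmDiff (w j) (w₀ j) ∧ p ∈ E ∩ s.primeFactors then -1 else 1
    rw [hx, he, prod_sd (fun q : ℕ => jacobiSym (q : ℤ) p) _ _
      (fun q => jacobiSym.trichotomy _ _) (left_ne_zero_of_mul n1),
      jac_cT a _ _ j p (right_ne_zero_of_mul n1) (right_ne_zero_of_mul n2)]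
    have h7 : p ∈ E ∩ s.primeFactors ↔ p ∈ E := by
      rw [mem_inter]
      exact ⟨fun h => h.1, fun h => ⟨h, hp⟩⟩
    have h8 : (∏ q ∈ (w j).erase p, jacobiSym ((q : ℕ) : ℤ) p) *
        (∏ q ∈ (w₀ j).erase p, jacobiSym ((q : ℕ) : ℤ) p) *
        (jacobiSym (cT a (fun l => decide (p ∈ w l)) j) p *
        jacobiSym (cT a (fun l => decide (p ∈ w₀ l)) j) p) =
        (if p ∈ w j ∧ p ∈ E then -1 else 1) * (if p ∈ w₀ j ∧ p ∈ E then -1 else 1) := by
      rw [← h1, ← h2]
      ring
    rw [h8]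
    simp only [mem_symmDiff, h7]
    by_cases ha : p ∈ w j <;> by_cases hb : p ∈ w₀ j <;> by_cases hc : p ∈ E <;> simp [ha, hb, hc]
  · intro w _ w' _ h
    funext j
    have := congrFun h j
    exact symmDiff_left_injective (w₀ j) this

open Classical in
lemma NT_le {m : ℕ} (a : Fin (m + 1) → ℤ) (s e : ℕ) (hs0 : s ≠ 0) (he0 : e ≠ 0)
    (E : Finset ℕ) :
    NT a (s * e) E ≤ (2 ^ m) ^ e.primeFactors.card * NT a s (E ∩ s.primeFactors) := by
  rw [NT_eq]
  have h := card_eq_sum_card_fiberwise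
    (s := (Fintype.piFinset (fun _ : Fin m => (s * e).primeFactors.powerset)).filter
      (CondT a (s * e) E))
    (t := Fintype.piFinset (fun _ : Fin m => e.primeFactors.powerset))
    (f := fun w => (fun j => w j ∩ e.primeFactors))
    (fun w _ => mem_coe.2 (Fintype.mem_piFinset.2 fun j => mem_powerset.2 inter_subset_right))
  rw [h]
  refine (sum_le_sum fun R _ => fiber_le a s e hs0 he0 E R).trans ?_
  rw [sum_const, Fintype.card_piFinset_const, card_powerset, smul_eq_mul, ← pow_mul, ← pow_mul,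
    mul_comm m]

end SubT

open SubT

theorem subt : S_SUBT := by
  classical
  intro m k a _
  refine ⟨0, fun z _ y _ s e hd => ?_⟩
  have hne := PP_ne_zero z y
  have hse : s * e ≠ 0 := fun h => hne (by rw [h] at hd; exact Nat.eq_zero_of_zero_dvd hd)
  have hs0 : s ≠ 0 := left_ne_zero_of_mul hse
  have he0 : e ≠ 0 := right_ne_zero_of_mul hse
  have hsq : Squarefree (s * e) := (PP_squarefree z y).squarefree_of_dvd hd
  have hPQ : Disjoint s.primeFactors e.primeFactors :=
    (Nat.coprime_of_squarefree_mul hsq).disjoint_primeFactors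
  have hPU : (s * e).primeFactors = s.primeFactors ∪ e.primeFactors :=
    Nat.primeFactors_mul hs0 he0
  have hstep : ∀ E : Finset ℕ, NTk k a (s * e) E ≤
      ((2 ^ (m + 1)) ^ k) ^ e.primeFactors.card * NTk k a s (E ∩ s.primeFactors) := by
    intro E
    unfold NTk
    have h2 : (NT a (s * e) E : ℝ) ≤
        (2 ^ m) ^ e.primeFactors.card * (NT a s (E ∩ s.primeFactors) : ℝ) := by
      exact_mod_cast NT_le a s e hs0 he0 E
    have h3 : (NT a (s * e) E : ℝ) ≤
        (2 ^ (m + 1)) ^ e.primeFactors.card * (NT a s (E ∩ s.primeFactors) : ℝ) := by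
      refine h2.trans (mul_le_mul_of_nonneg_right ?_ (Nat.cast_nonneg _))
      exact pow_le_pow_left₀ (by positivity) (pow_le_pow_right₀ (by norm_num) (by omega)) _
    refine (pow_le_pow_left₀ (Nat.cast_nonneg _) h3 k).trans (le_of_eq ?_)
    rw [mul_pow, ← pow_mul, ← pow_mul _ k, mul_comm k]
  unfold FA
  rw [hPU, card_union_of_disjoint hPQ]
  obtain ⟨P, hP⟩ : ∃ P, P = s.primeFactors := ⟨_, rfl⟩
  obtain ⟨Q, hQ⟩ : ∃ Q, Q = e.primeFactors := ⟨_, rfl⟩
  rw [← hP, ← hQ] at hstep hPQ ⊢
  calc (1 / 2 : ℝ) ^ (P.card + Q.card) * ∑ E ∈ (P ∪ Q).powerset, NTk k a (s * e) E ≤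
      (1 / 2 : ℝ) ^ (P.card + Q.card) * ∑ E ∈ (P ∪ Q).powerset,
        ((2 ^ (m + 1)) ^ k) ^ Q.card * NTk k a s (E ∩ P) := by
        apply mul_le_mul_of_nonneg_left _ (by positivity)
        exact Finset.sum_le_sum fun E _ => hstep E
    _ = ((2 ^ (m + 1)) ^ k) ^ Q.card * ((1 / 2 : ℝ) ^ P.card *
        ∑ E ∈ P.powerset, NTk k a s E) := by
        rw [← Finset.mul_sum, Pool.Agent.W125.RK2.sum_inter P Q hPQ
          (fun E => NTk k a s E), pow_add]
        have h2 : (1 / 2 : ℝ) ^ Q.card * 2 ^ Q.card = 1 := by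
          rw [← mul_pow]
          norm_num
        linear_combination (((2 ^ (m + 1)) ^ k) ^ Q.card * ((1 / 2 : ℝ) ^ P.card *
          ∑ E ∈ P.powerset, NTk k a s E)) * h2

namespace CmbT

open Pool.Agent.W12.RS

lemma dT_eq {m k : ℕ} (v x : Fin k → Fin m → Bool) :
    ((dT v x : ℕ) : ZMod 2) = ∑ a : Fin k × Fin m, bt (v a.1 a.2) * bt (x a.1 a.2) := by
  unfold dT
  rw [card_filter, Nat.cast_sum]
  refine sum_congr rfl fun a _ => ?_
  cases v a.1 a.2 <;> cases x a.1 a.2 <;> simp [bt]

end CmbT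

open Pool.Agent.W12.RS CmbT in
theorem cmbt : S_CMBT := by
  classical
  intro m k U hU
  obtain ⟨φ, hφ⟩ : ∃ φ : IT m k → (Fin k × Fin m → ZMod 2) × (Fin k × Fin m → ZMod 2),
      ∀ i, φ i = (fun a => bt (i.1.1 a.1 a.2), fun a => bt (i.1.2 a.1 a.2)) := ⟨_, fun _ => rfl⟩
  have hinj : Function.Injective φ := by
    intro i i' h
    rw [hφ, hφ] at h
    have e1 := congrArg Prod.fst h
    have e2 := congrArg Prod.snd h
    apply Subtype.ext
    refine Prod.ext ?_ ?_
    · funext b j
      exact bt_inj (congrFun e1 (b, j))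
    · funext b j
      exact bt_inj (congrFun e2 (b, j))
  rw [← card_image_of_injective U hinj]
  have h2 := iso_card (U.image φ) (by
    intro u hu w hw
    rw [mem_image] at hu hw
    obtain ⟨i, hi, rfl⟩ := hu
    obtain ⟨i', hi', rfl⟩ := hw
    have h3 := hU i hi i' hi'
    unfold LT at h3
    rw [decide_eq_decide] at h3
    have h4 := cast_eq_of_mod h3
    rw [dT_eq, dT_eq] at h4
    rw [hφ, hφ]
    simp only
    rw [sum_add_distrib]
    have h5 : ∑ a : Fin k × Fin m, bt (i.1.2 a.1 a.2) * bt (i'.1.1 a.1 a.2) =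
        ∑ a : Fin k × Fin m, bt (i'.1.1 a.1 a.2) * bt (i.1.2 a.1 a.2) :=
      sum_congr rfl fun a _ => mul_comm _ _
    rw [h5, ← h4]
    exact CharTwo.add_self_eq_zero _)
  refine h2.trans ?_
  rw [Fintype.card_prod, Fintype.card_fin, Fintype.card_fin, mul_comm]

end Pool.Agent.TH344.TJ
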