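import Mathlib
import Pool.Agent.TH344.TJ.Loc
import Pool.Agent.TH344.TJ.Sel
import Pool.Agent.TH344.TJ.Exp
import Pool.Agent.TH344.TJ.Sub
import Pool.Agent.TH344.TJ.Mak
import Pool.Agent.TH344.TJ.GavH
import Pool.Agent.TH344.TJ.Elm
import Pool.Agent.TH344.TJ.Prm
import Pool.Agent.TH344.JG.Main
import Pool.Agent.TH344.JG.MW

/-!
# Project TJ: the moments of the 2-Selmer groups of the twists of a hyperelliptic Jacobian
-/

set_option autoImplicit false

namespace Pool.Agent.TH344.TJ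

open Finset Polynomial Pool.Agent.TH841.PT Pool.Agent.TH344.JG

theorem selt : S_SELT := selt_of loct

theorem rnkt : S_RNKT := rnkt_of selt

theorem makt : S_MAKT := makt_of expt cmbt

variable {g : ℕ}

theorem elm (hg : 1 ≤ g) (a : Fin (2 * g + 1) → ℤ) (ha : Function.Injective a) : ELM (RJ a) :=
  elm_of selt (by omega) ⟨g, by omega⟩ a ha

theorem avr (hg : 1 ≤ g) (a : Fin (2 * g + 1) → ℤ) (ha : Function.Injective a) : AVR (RJ a) :=
  avr_of rnkt subt makt gavh (by omega) ⟨g, by omega⟩ a ha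

/-- the twists by the values of a polynomial -/
theorem rj_poly (hg : 1 ≤ g) (a : Fin (2 * g + 1) → ℤ) (ha : Function.Injective a) (D : ℤ[X])
    (hD : D ≠ 0) (k L : ℕ) : ∃ C : ℝ, ∀ (N : ℤ) (M : ℕ), 1 ≤ M → |N| ≤ (M : ℤ) ^ L →
      ∑ t ∈ (Ioc N (N + M)).filter (fun t => D.eval t ≠ 0), RJ a (D.eval t) ^ k ≤ C * M :=
  poly_of (elm hg a ha) (avr hg a ha) D hD k L

open Classical in
/-- the twists by the values of a polynomial at prime arguments -/
theorem rj_prime (hg : 1 ≤ g) (a : Fin (2 * g + 1) → ℤ) (ha : Function.Injective a) {r : ℕ}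
    {G : Fin r → ℤ[X]} (hG : Irr G) (D : ℤ[X]) (hD : D ≠ 0) (k L : ℕ) :
    ∃ C : ℝ, 0 ≤ C ∧ ∀ (N : ℤ) (M : ℕ), 2 ≤ M → |N| ≤ (M : ℤ) ^ L →
      ∑ t ∈ (Ioc N (N + M)).filter (fun t => D.eval t ≠ 0 ∧ AllPr G t), RJ a (D.eval t) ^ k ≤
        C * (M / (Real.log M) ^ r) :=
  prime_of (elm hg a ha) (avr hg a ha) hG D hD k L

end Pool.Agent.TH344.TJ
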