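import Mathlib
import Pool.Agent.TH344.TJ.Main
import Pool.Agent.TH344.TJ.GavW
import Pool.Agent.TH344.TJ.Wts

/-!
# Project TJ: the weighted moments of the 2-Selmer groups of the twists of a hyperelliptic Jacobian
-/

set_option autoImplicit false

namespace Pool.Agent.TH344.TJ

theorem awr {g : ℕ} (hg : 1 ≤ g) (a : Fin (2 * g + 1) → ℤ) (ha : Function.Injective a) :
    AWR (RJ a) :=
  awr_of rnkt subt makt gavw (by omega) ⟨g, by omega⟩ a ha

end Pool.Agent.TH344.TJ
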