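import Mathlib
import Pool.Agent.TH344.TJ.Main
import Pool.Agent.TH344.GT.Prod

/-!
# Project TJ: the twists of a hyperelliptic Jacobian over varying multiquadratic fields
-/

set_option autoImplicit false

namespace Pool.Agent.TH344.TJ

open Finset Polynomial Pool.Agent.TH841.PT Pool.Agent.TH344.JG

variable {g : ℕ}

open Classical in
/-- the products of the orders of the 2-Selmer groups of the twists by `D₀ (t) ∏_(i ∈ T) D_i (t)` -/
theorem rj_fields (hg : 1 ≤ g) (a : Fin (2 * g + 1) → ℤ) (ha : Function.Injective a) {r : ℕ}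
    {G : Fin r → ℤ[X]} (hG : Irr G) {s : ℕ} (D0 : ℤ[X]) (D : Fin s → ℤ[X]) (hD0 : D0 ≠ 0)
    (hD : ∀ i, D i ≠ 0) (k L : ℕ) :
    ∃ C : ℝ, 0 ≤ C ∧ ∀ (N : ℤ) (M : ℕ), 2 ≤ M → |N| ≤ (M : ℤ) ^ L → ∀ S : Finset ℤ,
      (∀ t ∈ S, t ∈ Ioc N (N + M) ∧ D0.eval t ≠ 0 ∧ (∀ i, (D i).eval t ≠ 0) ∧ AllPr G t) →
      ∑ t ∈ S, (∏ T : Finset (Fin s), RJ a (D0.eval t * ∏ i ∈ T, (D i).eval t)) ^ k ≤
        C * (M / (Real.log M) ^ r) := by
  have hDT : ∀ T : Finset (Fin s), D0 * ∏ i ∈ T, D i ≠ 0 := fun T =>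
    mul_ne_zero hD0 (prod_ne_zero_iff.2 fun i _ => hD i)
  have hev : ∀ (T : Finset (Fin s)) (t : ℤ), (D0 * ∏ i ∈ T, D i).eval t =
      D0.eval t * ∏ i ∈ T, (D i).eval t := by
    intro T t
    rw [eval_mul, eval_prod]
  choose CT hCT0 hCT using fun T : Finset (Fin s) => rj_prime hg a ha hG (D0 * ∏ i ∈ T, D i)
    (hDT T) (Fintype.card (Finset (Fin s)) * k) L
  refine ⟨∑ T, CT T, sum_nonneg fun T _ => hCT0 T, fun N M hM hN S hS => ?_⟩
  have hE := elm hg a ha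
  calc ∑ t ∈ S, (∏ T : Finset (Fin s), RJ a (D0.eval t * ∏ i ∈ T, (D i).eval t)) ^ k
      ≤ ∑ t ∈ S, ∑ T : Finset (Fin s),
          RJ a (D0.eval t * ∏ i ∈ T, (D i).eval t) ^ (Fintype.card (Finset (Fin s)) * k) :=
        sum_le_sum fun t _ => Pool.Agent.TH344.GT.prod_pow_le' _ (fun T => hE.1 _) k
    _ = ∑ T : Finset (Fin s), ∑ t ∈ S,
          RJ a (D0.eval t * ∏ i ∈ T, (D i).eval t) ^ (Fintype.card (Finset (Fin s)) * k) :=
        sum_comm
    _ ≤ ∑ T : Finset (Fin s), CT T * (M / (Real.log M) ^ r) := by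
        refine sum_le_sum fun T _ => le_trans ?_ (hCT T N M hM hN)
        have h1 : S ⊆ (Ioc N (N + M)).filter (fun t =>
            (D0 * ∏ i ∈ T, D i).eval t ≠ 0 ∧ AllPr G t) := by
          intro t ht
          obtain ⟨h1, h2, h3, h4⟩ := hS t ht
          rw [mem_filter, hev]
          exact ⟨h1, mul_ne_zero h2 (prod_ne_zero_iff.2 fun i _ => h3 i), h4⟩
        refine le_trans (sum_le_sum_of_subset_of_nonneg h1 fun t _ _ => pow_nonneg (hE.1 _) _) ?_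
        exact le_of_eq (sum_congr rfl fun t _ => by rw [hev])
    _ = _ := by rw [sum_mul]

end Pool.Agent.TH344.TJ
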